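import Pool.Agent.Lib.MP_c984cf_ag_N5.XDefs

/-!
# Contractible hypersurfaces of log-general type in dimension five: the torus action
-/

set_option autoImplicit false

noncomputable section

namespace Pool.Agent.MP_c984cf_ag_N5

open Set Filter Topology

theorem act_tau {p : ℂ × ℂ} (hp : p ∈ Tt) (g : C4) : tau (act p g) = p.1 * tau g := by
  obtain ⟨h1, h2⟩ := hp
  unfold tau act
  simp only
  field_simp

theorem act_cc {p : ℂ × ℂ} (hp : p ∈ Tt) (g : C4) : cc (act p g) = p.2 * cc g := by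
  obtain ⟨h1, h2⟩ := hp
  unfold cc act
  simp only
  field_simp

theorem act_inv {p : ℂ × ℂ} (hp : p ∈ Tt) (g : C4) : act (p.1⁻¹, p.2⁻¹) (act p g) = g := by
  obtain ⟨h1, h2⟩ := hp
  obtain ⟨a, b, c, d⟩ := g
  unfold act
  simp only [Prod.mk.injEq]
  refine ⟨?_, ?_, ?_, ?_⟩ <;> field_simp

private theorem Act_inv_mem {p : ℂ × ℂ} (hp : p ∈ Tt) : ((p.1⁻¹, p.2⁻¹) : ℂ × ℂ) ∈ Tt :=
  ⟨inv_ne_zero hp.1, inv_ne_zero hp.2⟩

private theorem Act_Ph {p : ℂ × ℂ} (hp : p ∈ Tt) {s : C4} (hs : s ∈ S) : Ph (act p s) = p := by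
  unfold Ph
  rw [act_tau hp, act_cc hp, hs.1, hs.2, mul_one, mul_one]

private theorem Act_mem {p : ℂ × ℂ} (hp : p ∈ Tt) {g : C4} (h1 : tau g = p.1)
    (h2 : cc g = p.2) : act (p.1⁻¹, p.2⁻¹) g ∈ S := by
  have e1 := act_tau (Act_inv_mem hp) g
  have e2 := act_cc (Act_inv_mem hp) g
  rw [h1] at e1
  rw [h2] at e2
  refine ⟨e1.trans ?_, e2.trans ?_⟩
  · exact inv_mul_cancel₀ hp.1
  · exact inv_mul_cancel₀ hp.2

/-- Proof. `Vx` is homeomorphic to `S ×ˢ Mm` by `z ↦ (act (p.1⁻¹, p.2⁻¹) (Gg z), p)`,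
`p = Ph (Gg z)`, with the inverse
`(s, p) ↦ Gi (act p s)` (`Ph (act p s) = p` for `s ∈ S`); then `Ctr.prod_snd hS`. -/
theorem Vx_eqv (hS : Ctr S) : Eqv Vx Mm (fun z => Ph (Gg z)) := by
  have hactc : ContinuousOn (fun q : (ℂ × ℂ) × C4 => act q.1 q.2) {q | q.1 ∈ Tt} := by
    unfold act
    have e1 : ∀ q ∈ {q : (ℂ × ℂ) × C4 | q.1 ∈ Tt}, q.1.1 ^ 5 ≠ 0 :=
      fun q hq => pow_ne_zero 5 hq.1
    have e2 : ∀ q ∈ {q : (ℂ × ℂ) × C4 | q.1 ∈ Tt}, q.1.2 ^ 8 ≠ 0 :=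
      fun q hq => pow_ne_zero 8 hq.2
    have e3 : ∀ q ∈ {q : (ℂ × ℂ) × C4 | q.1 ∈ Tt}, q.1.1 ^ 2 ≠ 0 :=
      fun q hq => pow_ne_zero 2 hq.1
    have e4 : ∀ q ∈ {q : (ℂ × ℂ) × C4 | q.1 ∈ Tt}, q.1.2 ^ 3 ≠ 0 :=
      fun q hq => pow_ne_zero 3 hq.2
    refine ContinuousOn.prodMk ?_ (ContinuousOn.prodMk ?_ (ContinuousOn.prodMk ?_ ?_))
    · refine ContinuousOn.mul (ContinuousOn.div (by fun_prop) (by fun_prop) e2) (by fun_prop)
    · refine ContinuousOn.mul (ContinuousOn.div (by fun_prop) (by fun_prop) e3) (by fun_prop)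
    · refine ContinuousOn.mul (ContinuousOn.div (by fun_prop) (by fun_prop) e1) (by fun_prop)
    · refine ContinuousOn.mul (ContinuousOn.div (by fun_prop) (by fun_prop) e4) (by fun_prop)
  have hPGc : Continuous (fun z : C5 => Ph (Gg z)) := Ph_cont.comp Gg_cont
  have hQ : ∀ z ∈ Vx, Qf (Ph (Gg z)) ≠ 0 := by
    intro z hz
    rw [X5_Q hz.1.1]
    exact hz.2
  have e : Eqv Vx (S ×ˢ Mm)
      (fun z => (act ((Ph (Gg z)).1⁻¹, (Ph (Gg z)).2⁻¹) (Gg z), Ph (Gg z))) := by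
    refine Eqv.of_inv (g := fun q : C4 × (ℂ × ℂ) => Gi (act q.2 q.1)) ⟨?_, ?_⟩ ⟨?_, ?_⟩ ?_ ?_
    · refine ContinuousOn.prodMk ?_ hPGc.continuousOn
      have h1 : ContinuousOn
          (fun z : C5 => ((((Ph (Gg z)).1⁻¹, (Ph (Gg z)).2⁻¹), Gg z) : (ℂ × ℂ) × C4)) Vx := by
        refine ContinuousOn.prodMk (ContinuousOn.prodMk ?_ ?_) Gg_cont.continuousOn
        · exact (continuous_fst.comp hPGc).continuousOn.inv₀ (fun z hz => hz.1.2.1)
        · exact (continuous_snd.comp hPGc).continuousOn.inv₀ (fun z hz => hz.1.2.2)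
      have h2 := hactc.comp h1 (fun z hz => Act_inv_mem hz.1.2)
      refine h2.congr (fun z _ => ?_)
      simp only [Function.comp]
    · intro z hz
      have e1 : tau (Gg z) = (Ph (Gg z)).1 := rfl
      have e2 : cc (Gg z) = (Ph (Gg z)).2 := rfl
      have e3 : act ((Ph (Gg z)).1⁻¹, (Ph (Gg z)).2⁻¹) (Gg z) ∈ S :=
        Act_mem (p := Ph (Gg z)) (g := Gg z) hz.1.2 e1 e2
      have e4 : Ph (Gg z) ∈ Mm := And.intro hz.1.2 (hQ z hz)
      exact Set.mk_mem_prod e3 e4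
    · have h1 : ContinuousOn (fun q : C4 × (ℂ × ℂ) => act q.2 q.1) (S ×ˢ Mm) := by
        have h2 : ContinuousOn (fun q : C4 × (ℂ × ℂ) => ((q.2, q.1) : (ℂ × ℂ) × C4))
            (S ×ˢ Mm) := by fun_prop
        have h3 := hactc.comp h2 (fun q hq => hq.2.1)
        refine h3.congr (fun q _ => ?_)
        simp only [Function.comp]
      have h3 : ContinuousOn Gi {g : C4 | Qf (Ph g) ≠ 0} := by
        unfold Gi
        have hq : Continuous (fun g : C4 => Qf (Ph g)) := Qf_cont.comp Ph_cont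
        have e1 : ∀ g ∈ {g : C4 | Qf (Ph g) ≠ 0}, Qf (Ph g) ≠ 0 := fun g hg => hg
        refine ContinuousOn.prodMk hq.continuousOn (ContinuousOn.prodMk ?_
          (ContinuousOn.prodMk ?_ (ContinuousOn.prodMk ?_ ?_)))
        · exact ContinuousOn.div (by fun_prop) hq.continuousOn e1
        · exact ContinuousOn.div (by fun_prop) hq.continuousOn e1
        · fun_prop
        · fun_prop
      refine h3.comp h1 (fun q hq => ?_)
      change Qf (Ph (act q.2 q.1)) ≠ 0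
      rw [Act_Ph hq.2.1 hq.1]
      exact hq.2.2
    · intro q hq
      have h1 : Ph (act q.2 q.1) = q.2 := Act_Ph hq.2.1 hq.1
      have h2 : Qf (Ph (act q.2 q.1)) ≠ 0 := by
        rw [h1]
        exact hq.2.2
      refine ⟨⟨Gi_mem h2, ?_⟩, ?_⟩
      · change Ph (Gg (Gi (act q.2 q.1))) ∈ Tt
        rw [Gg_Gi h2, h1]
        exact hq.2.1
      · exact h2
    · intro z hz
      change Gi (act (Ph (Gg z)) (act ((Ph (Gg z)).1⁻¹, (Ph (Gg z)).2⁻¹) (Gg z))) = z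
      have h1 := act_inv (Act_inv_mem hz.1.2) (Gg z)
      simp only [inv_inv] at h1
      have h2 : act (Ph (Gg z)) (act ((Ph (Gg z)).1⁻¹, (Ph (Gg z)).2⁻¹) (Gg z)) = Gg z := h1
      rw [h2]
      exact Gi_Gg hz.1.1 hz.2
    · intro q hq
      have h1 : Ph (act q.2 q.1) = q.2 := Act_Ph hq.2.1 hq.1
      have h2 : Qf (Ph (act q.2 q.1)) ≠ 0 := by
        rw [h1]
        exact hq.2.2
      change (act ((Ph (Gg (Gi (act q.2 q.1)))).1⁻¹, (Ph (Gg (Gi (act q.2 q.1)))).2⁻¹)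
        (Gg (Gi (act q.2 q.1))), Ph (Gg (Gi (act q.2 q.1)))) = q
      rw [Gg_Gi h2, h1, act_inv hq.2.1]
  exact (Ctr.prod_snd hS).comp e

end Pool.Agent.MP_c984cf_ag_N5
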