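import Pool.Agent.Lib.MP_c984cf_ag.Deriv

/-!
# Contractible hypersurfaces of log-general type in dimension five: Jacobian criterion
-/

set_option autoImplicit false

noncomputable section

namespace Pool.Agent.MP_c984cf_ag_N5

open MvPolynomial Pool.Agent.MP_c984cf_ag

/-- chain rule -/
theorem deriv_aeval {K : Type} [Field K] [Algebra ℂ K] {d : ℕ} (D : Derivation ℂ K K)
    (f : Fin d → K) (P : MvPolynomial (Fin d) ℂ) :
    D (aeval f P) = ∑ i, aeval f (pderiv i P) * D (f i) := by
  classical
  induction P using MvPolynomial.induction_on with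
  | C a =>
    have h1 : aeval f (C a : MvPolynomial (Fin d) ℂ) = algebraMap ℂ K a := by
      rw [aeval_C]
    rw [h1, Derivation.map_algebraMap]
    simp only [pderiv_C, map_zero, zero_mul, Finset.sum_const_zero]
  | add p q hp hq =>
    simp only [map_add, hp, hq, add_mul, Finset.sum_add_distrib]
  | mul_X p j hp =>
    have h1 : ∀ i, aeval f (pderiv i (p * X j)) * D (f i) =
        aeval f (pderiv i p) * D (f i) * f j + (if j = i then aeval f p * D (f i) else 0) := by
      intro i
      rw [pderiv_mul, pderiv_X, map_add, map_mul, map_mul, aeval_X]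
      by_cases h2 : j = i
      · subst h2
        rw [Pi.single_eq_same, map_one, if_pos rfl]
        ring
      · rw [Pi.single_eq_of_ne h2, map_zero, if_neg h2]
        ring
    rw [Finset.sum_congr rfl fun i _ => h1 i, Finset.sum_add_distrib, ← Finset.sum_mul, ← hp,
      Finset.sum_ite_eq, if_pos (Finset.mem_univ j), map_mul, aeval_X, Derivation.leibniz,
      smul_eq_mul, smul_eq_mul]
    ring

/-- Jacobian criterion. Proof. Suppose `aeval f P = 0` for some `P ≠ 0`, of minimal `totalDegree`. By `deriv_aeval`,
`∑ i, aeval f (pderiv i P) * D j (f i) = 0` for all `j`, and the matrix `D j (f i)` is invertible (`jac D f ≠ 0`), so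
`aeval f (pderiv i P) = 0` for all `i` (`Matrix.eq_zero_of_vecMul_eq_zero` or similar). `pderiv i P` has smaller degree
or is `0`; so all `pderiv i P = 0`, `P` is a constant `C c` (characteristic `0`; look at a monomial in the support),
`c = 0`. (Alternatively: strong induction on `totalDegree`.) -/
theorem algInd_of_jac {K : Type} [Field K] [Algebra ℂ K] {d : ℕ} (D : Fin d → Derivation ℂ K K)
    (f : Fin d → K) (h : jac D f ≠ 0) : AlgebraicIndependent ℂ f := by
  rw [algebraicIndependent_iff]
  have key : ∀ (N : ℕ) (P : MvPolynomial (Fin d) ℂ), P.totalDegree ≤ N → aeval f P = 0 →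
      P = 0 := by
    intro N
    induction N with
    | zero =>
      intro P hP h0
      have h1 : P = C (coeff 0 P) := totalDegree_eq_zero_iff_eq_C.1 (Nat.le_zero.1 hP)
      rw [h1, aeval_C] at h0
      have h2 : coeff 0 P = 0 := (FaithfulSMul.algebraMap_injective ℂ K) (by rw [h0, map_zero])
      rw [h1, h2, C_0]
    | succ N ih =>
      intro P hP h0
      have h1 : ∀ i, aeval f (pderiv i P) = 0 := by
        have h2 : (fun i => aeval f (pderiv i P)) = (0 : Fin d → K) := by
          apply Matrix.eq_zero_of_vecMul_eq_zero
            (M := Matrix.of fun i j => (D j (f i) : K)) h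
          funext j
          have h3 := deriv_aeval (D j) f P
          rw [h0, map_zero] at h3
          simp only [Matrix.vecMul, dotProduct, Matrix.of_apply, Pi.zero_apply]
          exact h3.symm
        exact fun i => congrFun h2 i
      have h2 : ∀ i, pderiv i P = 0 := by
        intro i
        refine ih _ ?_ (h1 i)
        refine Finset.sup_le fun m hm => ?_
        have h3 : coeff (m + Finsupp.single i 1) P ≠ 0 := by
          intro h4
          rw [mem_support_iff, coeff_pderiv, h4, zero_mul] at hm
          exact hm rfl
        have h4 := le_totalDegree (mem_support_iff.2 h3)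
        rw [Finsupp.sum_add_index' (fun _ => rfl) (fun _ _ _ => rfl),
          Finsupp.sum_single_index rfl] at h4
        have h5 := h4.trans hP
        exact Nat.le_of_succ_le_succ h5
      have h3 : ∀ s : Fin d →₀ ℕ, s ≠ 0 → coeff s P = 0 := by
        intro s hs
        obtain ⟨i, hi⟩ := Finsupp.ne_iff.1 hs
        rw [Finsupp.coe_zero, Pi.zero_apply] at hi
        have h4 : s - Finsupp.single i 1 + Finsupp.single i 1 = s :=
          tsub_add_cancel_of_le (Finsupp.single_le_iff.2 (Nat.one_le_iff_ne_zero.2 hi))
        have h5 := coeff_pderiv (i := i) P (s - Finsupp.single i 1)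
        rw [h2 i, coeff_zero, h4] at h5
        rcases mul_eq_zero.1 h5.symm with h6 | h6
        · exact h6
        · exact absurd h6 (Nat.cast_add_one_ne_zero _)
      have h4 : P = C (coeff 0 P) := by
        ext s
        rw [coeff_C]
        by_cases hs : s = 0
        · rw [hs, if_pos rfl]
        · rw [if_neg (Ne.symm hs), h3 s hs]
      rw [h4, aeval_C] at h0
      have h5 : coeff 0 P = 0 := (FaithfulSMul.algebraMap_injective ℂ K) (by rw [h0, map_zero])
      rw [h4, h5, C_0]
  exact fun P hP => key _ P le_rfl hP

end Pool.Agent.MP_c984cf_ag_N5
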