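import Mathlib

/-!
# Contractible hypersurfaces of log-general type in dimension five: homotopy equivalences of sets

All maps are total functions between the ambient spaces, restricted to subsets: `MapC A B f` (continuous
map `A → B`), `Hty A B f g` (homotopy of maps `A → B`), `Eqv A B f` (homotopy equivalence), `Ctr A`
(contractible).
-/

set_option autoImplicit false

noncomputable section

namespace Pool.Agent.MP_c984cf_ag_N5

open Set Filter Topology

section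

variable {E F G : Type} [TopologicalSpace E] [TopologicalSpace F] [TopologicalSpace G]

/-- `f` is a continuous map of the set `A` to the set `B` -/
def MapC (A : Set E) (B : Set F) (f : E → F) : Prop := ContinuousOn f A ∧ MapsTo f A B

/-- homotopy of maps from `A` to `B` -/
def Hty (A : Set E) (B : Set F) (f g : E → F) : Prop :=
  ∃ H : ℝ → E → F, ContinuousOn (fun z : ℝ × E => H z.1 z.2) (Icc 0 1 ×ˢ A) ∧
    (∀ s ∈ Icc (0 : ℝ) 1, MapsTo (H s) A B) ∧ (∀ a ∈ A, H 0 a = f a) ∧ ∀ a ∈ A, H 1 a = g a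

/-- `f` is a homotopy equivalence from `A` to `B` -/
def Eqv (A : Set E) (B : Set F) (f : E → F) : Prop :=
  MapC A B f ∧ ∃ g : F → E, MapC B A g ∧ Hty A A (fun a => g (f a)) id ∧
    Hty B B (fun b => f (g b)) id

/-- `A` is contractible -/
def Ctr (A : Set E) : Prop := ∃ a0 ∈ A, Hty A A id fun _ => a0

/-! ### gluing of continuous functions -/

theorem cont_glue {S : Set E} {f : E → F} {l : E → ℝ} (hl : ContinuousOn l S) (c : ℝ)
    (h1 : ContinuousOn f {x | x ∈ S ∧ l x ≤ c}) (h2 : ContinuousOn f {x | x ∈ S ∧ c ≤ l x}) :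
    ContinuousOn f S := by
  intro x hx
  rcases lt_trichotomy (l x) c with h | h | h
  · have h3 : {x | x ∈ S ∧ l x ≤ c} ∈ 𝓝[S] x := by
      filter_upwards [(hl x hx).eventually (gt_mem_nhds h), self_mem_nhdsWithin] with y hy hyS
      exact ⟨hyS, le_of_lt hy⟩
    exact (h1 x ⟨hx, h.le⟩).mono_of_mem_nhdsWithin h3
  · have h3 : S = {x | x ∈ S ∧ l x ≤ c} ∪ {x | x ∈ S ∧ c ≤ l x} := by
      ext y
      constructor
      · intro hy
        rcases le_total (l y) c with h | h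
        · exact Or.inl ⟨hy, h⟩
        · exact Or.inr ⟨hy, h⟩
      · rintro (hy | hy) <;> exact hy.1
    rw [h3]
    exact (h1 x ⟨hx, h.le⟩).union (h2 x ⟨hx, h.ge⟩)
  · have h3 : {x | x ∈ S ∧ c ≤ l x} ∈ 𝓝[S] x := by
      filter_upwards [(hl x hx).eventually (lt_mem_nhds h), self_mem_nhdsWithin] with y hy hyS
      exact ⟨hyS, le_of_lt hy⟩
    exact (h2 x ⟨hx, h.le⟩).mono_of_mem_nhdsWithin h3

/-! ### maps -/

theorem MapC.comp {A : Set E} {B : Set F} {C : Set G} {f : E → F} {g : F → G} (hg : MapC B C g)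
    (hf : MapC A B f) : MapC A C (fun a => g (f a)) :=
  ⟨hg.1.comp hf.1 hf.2, fun _ ha => hg.2 (hf.2 ha)⟩

theorem MapC.id {A : Set E} : MapC A A (fun a => a) := ⟨continuousOn_id, fun _ ha => ha⟩

theorem MapC.mono {A A' : Set E} {B B' : Set F} {f : E → F} (h : MapC A B f) (hA : A' ⊆ A)
    (hB : B ⊆ B') : MapC A' B' f := ⟨h.1.mono hA, fun _ ha => hB (h.2 (hA ha))⟩

theorem MapC.congr {A : Set E} {B : Set F} {f g : E → F} (h : MapC A B f)
    (hfg : ∀ a ∈ A, g a = f a) : MapC A B g :=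
  ⟨h.1.congr hfg, fun a ha => by rw [hfg a ha]; exact h.2 ha⟩

/-! ### homotopies -/

theorem Hty.refl {A : Set E} {B : Set F} {f : E → F} (h : MapC A B f) : Hty A B f f :=
  ⟨fun _ => f, h.1.comp continuousOn_snd fun _ hz => hz.2, fun _ _ => h.2, fun _ _ => rfl,
    fun _ _ => rfl⟩

theorem Hty.symm {A : Set E} {B : Set F} {f g : E → F} (h : Hty A B f g) : Hty A B g f := by
  obtain ⟨H, h1, h2, h3, h4⟩ := h
  refine ⟨fun s => H (1 - s), ?_, ?_, ?_, ?_⟩
  · have hc : ContinuousOn (fun z : ℝ × E => ((1 - z.1, z.2) : ℝ × E)) (Icc 0 1 ×ˢ A) := by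
      fun_prop
    exact h1.comp hc fun z hz => ⟨⟨by linarith [hz.1.2], by linarith [hz.1.1]⟩, hz.2⟩
  · intro s hs
    exact h2 _ ⟨by linarith [hs.2], by linarith [hs.1]⟩
  · intro a ha
    simpa using h4 a ha
  · intro a ha
    simpa using h3 a ha

theorem Hty.trans {A : Set E} {B : Set F} {f g k : E → F} (h : Hty A B f g) (h' : Hty A B g k) :
    Hty A B f k := by
  obtain ⟨H, h1, h2, h3, h4⟩ := h
  obtain ⟨H', h1', h2', h3', h4'⟩ := h'
  refine ⟨fun s a => if s ≤ 1 / 2 then H (2 * s) a else H' (2 * s - 1) a, ?_, ?_, ?_, ?_⟩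
  · refine cont_glue (l := fun z : ℝ × E => z.1) (by fun_prop) (1 / 2) ?_ ?_
    · have hc : ContinuousOn (fun z : ℝ × E => ((2 * z.1, z.2) : ℝ × E))
          {z | z ∈ Icc (0 : ℝ) 1 ×ˢ A ∧ z.1 ≤ 1 / 2} := by fun_prop
      refine (h1.comp hc fun z hz => ⟨⟨?_, ?_⟩, hz.1.2⟩).congr ?_
      · change 0 ≤ 2 * z.1
        linarith [hz.1.1.1]
      · change 2 * z.1 ≤ 1
        linarith [hz.2]
      · intro z hz
        simp only [if_pos hz.2, Function.comp]
    · have hc : ContinuousOn (fun z : ℝ × E => ((2 * z.1 - 1, z.2) : ℝ × E))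
          {z | z ∈ Icc (0 : ℝ) 1 ×ˢ A ∧ 1 / 2 ≤ z.1} := by fun_prop
      refine (h1'.comp hc fun z hz => ⟨⟨?_, ?_⟩, hz.1.2⟩).congr ?_
      · change 0 ≤ 2 * z.1 - 1
        linarith [hz.2]
      · change 2 * z.1 - 1 ≤ 1
        linarith [hz.1.1.2]
      · intro z hz
        rcases eq_or_lt_of_le hz.2 with h5 | h5
        · simp only [← h5, le_refl, if_true, Function.comp]
          rw [show (2 : ℝ) * (1 / 2) = 1 by norm_num, sub_self, h4 _ hz.1.2, h3' _ hz.1.2]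
        · simp only [if_neg (not_le.2 h5), Function.comp]
  · intro s hs a ha
    by_cases h5 : s ≤ 1 / 2
    · simp only [if_pos h5]
      exact h2 _ ⟨by linarith [hs.1], by linarith⟩ ha
    · simp only [if_neg h5]
      rw [not_le] at h5
      exact h2' _ ⟨by linarith, by linarith [hs.2]⟩ ha
  · intro a ha
    have h5 : (0 : ℝ) ≤ 1 / 2 := by norm_num
    simp only [if_pos h5, mul_zero]
    exact h3 a ha
  · intro a ha
    have h5 : ¬(1 : ℝ) ≤ 1 / 2 := by norm_num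
    simp only [if_neg h5]
    rw [show (2 : ℝ) * 1 - 1 = 1 by norm_num]
    exact h4' a ha

theorem Hty.congr {A : Set E} {B : Set F} {f g f' g' : E → F} (h : Hty A B f g)
    (hf : ∀ a ∈ A, f' a = f a) (hg : ∀ a ∈ A, g' a = g a) : Hty A B f' g' := by
  obtain ⟨H, h1, h2, h3, h4⟩ := h
  exact ⟨H, h1, h2, fun a ha => by rw [h3 a ha, hf a ha], fun a ha => by rw [h4 a ha, hg a ha]⟩

theorem Hty.mono {A A' : Set E} {B B' : Set F} {f g : E → F} (h : Hty A B f g) (hA : A' ⊆ A)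
    (hB : B ⊆ B') : Hty A' B' f g := by
  obtain ⟨H, h1, h2, h3, h4⟩ := h
  exact ⟨H, h1.mono (prod_mono_right hA), fun s hs a ha => hB (h2 s hs (hA ha)),
    fun a ha => h3 a (hA ha), fun a ha => h4 a (hA ha)⟩

/-- composition with a map on the left -/
theorem Hty.post {A : Set E} {B : Set F} {C : Set G} {f g : E → F} {k : F → G}
    (h : Hty A B f g) (hk : MapC B C k) : Hty A C (fun a => k (f a)) (fun a => k (g a)) := by
  obtain ⟨H, h1, h2, h3, h4⟩ := h
  refine ⟨fun s a => k (H s a), hk.1.comp h1 fun z hz => h2 _ hz.1 hz.2,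
    fun s hs a ha => hk.2 (h2 s hs ha), fun a ha => congrArg k (h3 a ha),
    fun a ha => congrArg k (h4 a ha)⟩

/-- composition with a map on the right -/
theorem Hty.pre {A : Set E} {B : Set F} {C : Set G} {f g : F → G} {k : E → F}
    (h : Hty B C f g) (hk : MapC A B k) : Hty A C (fun a => f (k a)) (fun a => g (k a)) := by
  obtain ⟨H, h1, h2, h3, h4⟩ := h
  refine ⟨fun s a => H s (k a), ?_, fun s hs a ha => h2 s hs (hk.2 ha),
    fun a ha => h3 _ (hk.2 ha), fun a ha => h4 _ (hk.2 ha)⟩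
  have hc : ContinuousOn (fun z : ℝ × E => ((z.1, k z.2) : ℝ × F)) (Icc 0 1 ×ˢ A) :=
    continuousOn_fst.prodMk (hk.1.comp continuousOn_snd fun _ hz => hz.2)
  exact h1.comp hc fun z hz => ⟨hz.1, hk.2 hz.2⟩

/-! ### homotopy equivalences -/

theorem Eqv.mapC {A : Set E} {B : Set F} {f : E → F} (h : Eqv A B f) : MapC A B f := h.1

theorem Eqv.of_inv {A : Set E} {B : Set F} {f : E → F} {g : F → E} (hf : MapC A B f)
    (hg : MapC B A g) (h1 : ∀ a ∈ A, g (f a) = a) (h2 : ∀ b ∈ B, f (g b) = b) : Eqv A B f :=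
  ⟨hf, g, hg, (Hty.refl MapC.id).congr h1 fun _ _ => rfl,
    (Hty.refl MapC.id).congr h2 fun _ _ => rfl⟩

theorem Eqv.refl {A : Set E} : Eqv A A id :=
  Eqv.of_inv (g := id) MapC.id MapC.id (fun _ _ => rfl) fun _ _ => rfl

theorem Eqv.comp {A : Set E} {B : Set F} {C : Set G} {f : E → F} {g : F → G} (hg : Eqv B C g)
    (hf : Eqv A B f) : Eqv A C (fun a => g (f a)) := by
  obtain ⟨mf, f', mf', f1, f2⟩ := hf
  obtain ⟨mg, g', mg', g1, g2⟩ := hg
  refine ⟨mg.comp mf, fun c => f' (g' c), mf'.comp mg', ?_, ?_⟩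
  · exact ((g1.pre mf).post mf').trans f1
  · exact ((f2.pre mg').post mg).trans g2

/-- a map homotopic to a homotopy equivalence is a homotopy equivalence -/
theorem Eqv.of_hty {A : Set E} {B : Set F} {f f' : E → F} (h : Eqv A B f) (h' : Hty A B f f')
    (m : MapC A B f') : Eqv A B f' := by
  obtain ⟨mf, g, mg, h1, h2⟩ := h
  refine ⟨m, g, mg, ?_, ?_⟩
  · exact ((h'.symm).post mg).trans h1
  · exact ((h'.symm).pre mg).trans h2

theorem Eqv.congr {A : Set E} {B : Set F} {f f' : E → F} (h : Eqv A B f)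
    (h' : ∀ a ∈ A, f' a = f a) : Eqv A B f' :=
  h.of_hty ((Hty.refl h.1).congr (fun _ _ => rfl) h') (h.1.congr h')

/-- two out of three -/
theorem Eqv.of_comp_right {A : Set E} {B : Set F} {C : Set G} {f : E → F} {g : F → G}
    (mf : MapC A B f) (hg : Eqv B C g) (h : Eqv A C (fun a => g (f a))) : Eqv A B f := by
  obtain ⟨mg, g', mg', g1, g2⟩ := hg
  obtain ⟨_, k, mk, k1, k2⟩ := h
  -- inverse `k ∘ g`
  refine ⟨mf, fun b => k (g b), mk.comp mg, k1, ?_⟩
  -- `f k g ~ g' g f k g ~ g' g ~ id`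
  have e1 : Hty B B (fun b => f (k (g b))) (fun b => g' (g (f (k (g b))))) :=
    (g1.symm.pre (mf.comp (mk.comp mg)))
  have e2 : Hty B B (fun b => g' (g (f (k (g b))))) (fun b => g' (g b)) :=
    (k2.pre mg).post mg'
  exact (e1.trans e2).trans g1

/-- two out of three -/
theorem Eqv.of_comp_left {A : Set E} {B : Set F} {C : Set G} {f : E → F} {g : F → G}
    (mg : MapC B C g) (hf : Eqv A B f) (h : Eqv A C (fun a => g (f a))) : Eqv B C g := by
  obtain ⟨mf, f', mf', f1, f2⟩ := hf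
  obtain ⟨_, k, mk, k1, k2⟩ := h
  refine ⟨mg, fun c => f (k c), mf.comp mk, ?_, k2⟩
  -- `f k g ~ f k g f f' ~ f f' ~ id`
  have e1 : Hty B B (fun b => f (k (g b))) (fun b => f (k (g (f (f' b))))) :=
    ((f2.symm.post mg).post (mf.comp mk))
  have e2 : Hty B B (fun b => f (k (g (f (f' b))))) (fun b => f (f' b)) :=
    (k1.pre mf').post mf
  exact (e1.trans e2).trans f2

/-- deformation of `A` into `A'` which preserves `A'` -/
theorem Eqv.of_deform {A A' : Set E} (hs : A' ⊆ A) {D : ℝ → E → E}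
    (hD : ContinuousOn (fun z : ℝ × E => D z.1 z.2) (Icc 0 1 ×ˢ A))
    (h1 : ∀ s ∈ Icc (0 : ℝ) 1, MapsTo (D s) A A) (h2 : ∀ s ∈ Icc (0 : ℝ) 1, MapsTo (D s) A' A')
    (h3 : ∀ a ∈ A, D 0 a = a) (h4 : MapsTo (D 1) A A') : Eqv A' A id := by
  have hc : ContinuousOn (D 1) A := by
    have h5 : ContinuousOn (fun a : E => (((1 : ℝ), a) : ℝ × E)) A := by fun_prop
    exact hD.comp h5 fun a ha => ⟨⟨zero_le_one, le_rfl⟩, ha⟩
  refine ⟨MapC.id.mono (fun _ h => h) hs, D 1, ⟨hc, h4⟩, ?_, ?_⟩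
  · refine Hty.symm ⟨D, hD.mono (prod_mono_right hs), h2, fun a ha => h3 a (hs ha),
      fun _ _ => rfl⟩
  · exact Hty.symm ⟨D, hD, h1, h3, fun _ _ => rfl⟩

/-- transport of the inclusion of a subset by a homeomorphism -/
theorem Eqv.transport {A A' : Set E} {B B' : Set F} {f : E → F} {g : F → E} (hA : A' ⊆ A)
    (hB : B' ⊆ B) (mf : MapC A B f) (mg : MapC B A g) (mf' : MapsTo f A' B')
    (mg' : MapsTo g B' A') (h1 : ∀ a ∈ A, g (f a) = a) (h2 : ∀ b ∈ B, f (g b) = b)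
    (h : Eqv B' B id) : Eqv A' A id := by
  have e1 : Eqv A B f := Eqv.of_inv mf mg h1 h2
  have e2 : Eqv A' B' f := Eqv.of_inv (g := g) ⟨mf.1.mono hA, mf'⟩ ⟨mg.1.mono hB, mg'⟩
    (fun a ha => h1 a (hA ha)) fun b hb => h2 b (hB hb)
  exact Eqv.of_comp_right (MapC.id.mono (fun _ h => h) hA) e1 (h.comp e2)

/-! ### contractible sets -/

theorem Ctr.of_eqv {A : Set E} {B : Set F} {f : E → F} (h : Eqv A B f) (hA : Ctr A) : Ctr B := by
  obtain ⟨mf, g, mg, _, h2⟩ := h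
  obtain ⟨a0, ha0, h3⟩ := hA
  refine ⟨f a0, mf.2 ha0, ?_⟩
  have e1 : Hty B B (fun b => f (g b)) (fun _ => f a0) := (h3.pre mg).post mf
  exact h2.symm.trans e1

theorem Ctr.prod_snd {A : Set E} {B : Set F} (hA : Ctr A) : Eqv (A ×ˢ B) B Prod.snd := by
  obtain ⟨a0, ha0, H, h1, h2, h3, h4⟩ := hA
  refine ⟨⟨continuousOn_snd, fun z hz => hz.2⟩, fun b => (a0, b),
    ⟨by fun_prop, fun b hb => ⟨ha0, hb⟩⟩, ?_, Hty.refl MapC.id⟩
  refine Hty.symm ⟨fun s z => (H s z.1, z.2), ?_, fun s hs z hz => ⟨h2 s hs hz.1, hz.2⟩, ?_, ?_⟩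
  · have hc : ContinuousOn (fun z : ℝ × E × F => ((z.1, z.2.1) : ℝ × E))
        (Icc 0 1 ×ˢ (A ×ˢ B)) := by fun_prop
    refine (h1.comp hc fun z hz => ⟨hz.1, hz.2.1⟩).prodMk ?_
    fun_prop
  · intro z hz
    change (H 0 z.1, z.2) = z
    rw [h3 _ hz.1]
    rfl
  · intro z hz
    change (H 1 z.1, z.2) = (a0, z.2)
    rw [h4 _ hz.1]

theorem Ctr.contractibleSpace {A : Set E} (hA : Ctr A) : ContractibleSpace A := by
  obtain ⟨a0, ha0, H, h1, h2, h3, h4⟩ := hA
  rw [contractible_iff_id_nullhomotopic]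
  refine ⟨⟨a0, ha0⟩, ⟨?_⟩⟩
  refine
    { toFun := fun q => ⟨H q.1 q.2, h2 _ q.1.2 q.2.2⟩
      continuous_toFun := ?_
      map_zero_left := ?_
      map_one_left := ?_ }
  · refine Continuous.subtype_mk ?_ _
    have hc : Continuous (fun q : unitInterval × A => (((q.1 : ℝ), (q.2 : E)) : ℝ × E)) := by
      fun_prop
    exact h1.comp_continuous hc fun q => ⟨q.1.2, q.2.2⟩
  · intro a
    apply Subtype.ext
    exact h3 a a.2
  · intro a
    apply Subtype.ext
    exact h4 a a.2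

end

theorem Ctr.of_convex {E : Type} [NormedAddCommGroup E] [NormedSpace ℝ E] {A : Set E}
    (hA : Convex ℝ A) {a0 : E} (h0 : a0 ∈ A) : Ctr A := by
  refine ⟨a0, h0, fun s a => (1 - s) • a + s • a0, ?_, ?_, ?_, ?_⟩
  · fun_prop
  · intro s hs a ha
    exact hA ha h0 (by linarith [hs.2]) hs.1 (by ring)
  · intro a _
    simp
  · intro a _
    simp

/-- a set which is star shaped in the second variable -/
theorem Eqv.of_star {E F : Type} [TopologicalSpace E] [NormedAddCommGroup F] [NormedSpace ℝ F]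
    {B : Set E} {W : Set (E × F)} (h1 : ∀ z ∈ W, z.1 ∈ B) (h0 : ∀ b ∈ B, (b, (0 : F)) ∈ W)
    (h2 : ∀ z ∈ W, ∀ s ∈ Icc (0 : ℝ) 1, (z.1, s • z.2) ∈ W) : Eqv W B Prod.fst := by
  refine ⟨⟨continuousOn_fst, h1⟩, fun b => (b, 0), ⟨by fun_prop, h0⟩, ?_, Hty.refl MapC.id⟩
  refine ⟨fun s z => (z.1, s • z.2), ?_, fun s hs z hz => h2 z hz s hs, ?_, ?_⟩
  · fun_prop
  · intro z _
    simp
  · intro z _
    simp

end Pool.Agent.MP_c984cf_ag_N5
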