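import Pool.Agent.Lib.MP_c984cf_ag_N5.SDefs

/-!
# Contractible hypersurfaces of log-general type in dimension five: the convex piece
-/

set_option autoImplicit false

noncomputable section

namespace Pool.Agent.MP_c984cf_ag_N5

open Set Filter Topology

/-- coordinates `(x, y)` -/
def Bc : Set (ℂ × ℂ) := {z | 0 < z.1.re ∧ z.1.re < 1 ∧ 1 < z.2.re}

/-- the surface in terms of `x, y`: `g₄ = x (1 - x) / (y (1 - y)²)`, `g₃ = y³ (1 - y)⁶ / (x³ (1 - x)²)`,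
`g₂ = (1 - y) / g₄`, `g₁ = y / g₃` -/
def Bi (z : ℂ × ℂ) : C4 :=
  (z.1 ^ 3 * (1 - z.1) ^ 2 / (z.2 ^ 2 * (1 - z.2) ^ 6), z.2 * (1 - z.2) ^ 3 / (z.1 * (1 - z.1)),
    z.2 ^ 3 * (1 - z.2) ^ 6 / (z.1 ^ 3 * (1 - z.1) ^ 2), z.1 * (1 - z.1) / (z.2 * (1 - z.2) ^ 2))

private theorem BbE_ne {z : ℂ × ℂ} (hz : z ∈ Bc) :
    z.1 ≠ 0 ∧ 1 - z.1 ≠ 0 ∧ z.2 ≠ 0 ∧ 1 - z.2 ≠ 0 := by
  obtain ⟨h1, h2, h3⟩ := hz
  refine ⟨?_, ?_, ?_, ?_⟩
  · intro h
    rw [h, Complex.zero_re] at h1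
    exact lt_irrefl _ h1
  · intro h
    have h4 := congrArg Complex.re h
    rw [Complex.sub_re, Complex.one_re, Complex.zero_re] at h4
    linarith
  · intro h
    rw [h, Complex.zero_re] at h3
    linarith
  · intro h
    have h4 := congrArg Complex.re h
    rw [Complex.sub_re, Complex.one_re, Complex.zero_re] at h4
    linarith

private theorem BbE_x {z : ℂ × ℂ} (hz : z ∈ Bc) : xx (Bi z) = z.1 := by
  obtain ⟨h1, h2, h3, h4⟩ := BbE_ne hz
  show z.1 ^ 3 * (1 - z.1) ^ 2 / (z.2 ^ 2 * (1 - z.2) ^ 6) *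
    (z.2 * (1 - z.2) ^ 3 / (z.1 * (1 - z.1))) ^ 2 = z.1
  field_simp

private theorem BbE_y {z : ℂ × ℂ} (hz : z ∈ Bc) : yy (Bi z) = z.2 := by
  obtain ⟨h1, h2, h3, h4⟩ := BbE_ne hz
  show z.1 ^ 3 * (1 - z.1) ^ 2 / (z.2 ^ 2 * (1 - z.2) ^ 6) *
    (z.2 ^ 3 * (1 - z.2) ^ 6 / (z.1 ^ 3 * (1 - z.1) ^ 2)) = z.2
  field_simp

private theorem BbE_S {z : ℂ × ℂ} (hz : z ∈ Bc) : Bi z ∈ S := by
  obtain ⟨h1, h2, h3, h4⟩ := BbE_ne hz
  constructor
  · show xx (Bi z) + z.2 ^ 3 * (1 - z.2) ^ 6 / (z.1 ^ 3 * (1 - z.1) ^ 2) *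
      (z.1 * (1 - z.1) / (z.2 * (1 - z.2) ^ 2)) ^ 3 = 1
    rw [BbE_x hz]
    have h5 : z.2 ^ 3 * (1 - z.2) ^ 6 / (z.1 ^ 3 * (1 - z.1) ^ 2) *
      (z.1 * (1 - z.1) / (z.2 * (1 - z.2) ^ 2)) ^ 3 = 1 - z.1 := by
      field_simp
    rw [h5]
    ring
  · show yy (Bi z) + z.2 * (1 - z.2) ^ 3 / (z.1 * (1 - z.1)) *
      (z.1 * (1 - z.1) / (z.2 * (1 - z.2) ^ 2)) = 1
    rw [BbE_y hz]
    have h5 : z.2 * (1 - z.2) ^ 3 / (z.1 * (1 - z.1)) *
      (z.1 * (1 - z.1) / (z.2 * (1 - z.2) ^ 2)) = 1 - z.2 := by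
      field_simp
    rw [h5]
    ring

private theorem BbE_xy {g : C4} (hg : g ∈ Bb) : (xx g, yy g) ∈ Bc := ⟨hg.2.1, hg.2.2.1, hg.2.2.2⟩

private theorem BbE_cont : Continuous fun g : C4 => (xx g, yy g) := by
  unfold xx yy
  fun_prop

/-- Proof. `x, 1 - x, y, 1 - y ≠ 0` on `Bc`; direct computation (`field_simp`). -/
theorem Bi_mapC : MapC Bc Bb Bi := by
  refine ⟨?_, fun z hz => ⟨BbE_S hz, ?_, ?_, ?_⟩⟩
  · unfold Bi
    refine ContinuousOn.prodMk (ContinuousOn.div (by fun_prop) (by fun_prop) fun z hz => ?_)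
      (ContinuousOn.prodMk (ContinuousOn.div (by fun_prop) (by fun_prop) fun z hz => ?_)
      (ContinuousOn.prodMk (ContinuousOn.div (by fun_prop) (by fun_prop) fun z hz => ?_)
      (ContinuousOn.div (by fun_prop) (by fun_prop) fun z hz => ?_)))
    all_goals
      obtain ⟨h1, h2, h3, h4⟩ := BbE_ne hz
      simp only [ne_eq, mul_eq_zero, pow_eq_zero_iff', h1, h2, h3, h4, false_and, or_self,
        not_false_eq_true]
  · rw [BbE_x hz]
    exact hz.1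
  · rw [BbE_x hz]
    exact hz.2.1
  · rw [BbE_y hz]
    exact hz.2.2

theorem Bi_left {g : C4} (hg : g ∈ Bb) : Bi (xx g, yy g) = g := by
  obtain ⟨h1, h2, h3, h4⟩ := BbE_ne (BbE_xy hg)
  simp only at h1 h2 h3 h4
  have e1 := S_x hg.1
  have e2 := S_y hg.1
  obtain ⟨a, b, c, d⟩ := g
  have hx : xx (a, b, c, d) = a * b ^ 2 := rfl
  have hy : yy (a, b, c, d) = a * c := rfl
  simp only at e1 e2
  rw [e1] at h2
  rw [e2] at h4
  rw [hx] at h1
  have ha : a ≠ 0 := left_ne_zero_of_mul h1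
  have hb : b ≠ 0 := left_ne_zero_of_mul h4
  have hc : c ≠ 0 := left_ne_zero_of_mul h2
  have hd : d ≠ 0 := right_ne_zero_of_mul h4
  unfold Bi
  simp only
  rw [e1, e2, hx, hy]
  refine Prod.ext ?_ (Prod.ext ?_ (Prod.ext ?_ ?_))
  · simp only
    field_simp
  · simp only
    field_simp
  · simp only
    field_simp
  · simp only
    field_simp

theorem Bi_x {z : ℂ × ℂ} (hz : z ∈ Bc) : xx (Bi z) = z.1 := by
  exact BbE_x hz

theorem Bi_y {z : ℂ × ℂ} (hz : z ∈ Bc) : yy (Bi z) = z.2 := by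
  exact BbE_y hz

private theorem BbE_convex : Convex ℝ Bc := by
  intro z hz w hw a b ha hb hab
  obtain ⟨h1, h2, h3⟩ := hz
  obtain ⟨h4, h5, h6⟩ := hw
  have e1 : (a • z + b • w).1.re = a * z.1.re + b * w.1.re := by simp
  have e2 : (a • z + b • w).2.re = a * z.2.re + b * w.2.re := by simp
  have hb' : b = 1 - a := by linarith
  subst hb'
  rcases eq_or_lt_of_le ha with h | h
  · subst h
    simpa using ⟨h4, h5, h6⟩
  · refine ⟨?_, ?_, ?_⟩
    · rw [e1]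
      nlinarith [mul_pos h h1, mul_nonneg hb h4.le]
    · rw [e1]
      nlinarith [mul_lt_mul_of_pos_left h2 h, mul_le_mul_of_nonneg_left h5.le hb]
    · rw [e2]
      nlinarith [mul_lt_mul_of_pos_left h3 h, mul_le_mul_of_nonneg_left h6.le hb]

/-- Proof. `Bc` is convex, contains `(1 / 2, 2)`; `Ctr.of_eqv` with `Bi`. -/
theorem Bb_ctr : Ctr Bb := by
  have h0 : (((1 / 2 : ℝ) : ℂ), (2 : ℂ)) ∈ Bc := by
    refine ⟨?_, ?_, ?_⟩
    · rw [Complex.ofReal_re]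
      norm_num
    · rw [Complex.ofReal_re]
      norm_num
    · norm_num
  refine (Ctr.of_convex BbE_convex h0).of_eqv (f := Bi) (Eqv.of_inv Bi_mapC
    (g := fun g => (xx g, yy g)) ⟨BbE_cont.continuousOn, fun g hg => BbE_xy hg⟩ ?_
      fun g hg => Bi_left hg)
  intro z hz
  exact Prod.ext (BbE_x hz) (BbE_y hz)

/-- The intersection is `Bb` minus `{Re x = 1 / 2, Im y = 0}`. Proof. On `Bb`, `dd y = |Im y|`. If `Im y ≠ 0`, `g ∈ Sm`;
if `Im y = 0` and `Re x ≠ 1 / 2`, `g ∈ T0 ∪ T1`; if `Im y = 0`, `Re x = 1 / 2`, `g` is in none of the three sets. -/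
theorem mem_inter {g : C4} (hg : g ∈ Bb) : g ∈ Aa ↔ ee g ≠ 0 := by
  have hd : dd (yy g) = |(yy g).im| := by
    unfold dd
    rw [max_eq_left (by linarith [hg.2.2.2]), add_zero]
  have he : ee g = 0 ↔ (xx g).re = 1 / 2 ∧ (yy g).im = 0 := by
    unfold ee
    rw [neg_eq_zero]
    constructor
    · intro h
      have h1 := congrArg Complex.re h
      have h2 := congrArg Complex.im h
      simp only [Complex.add_re, Complex.ofReal_re, Complex.mul_re, Complex.I_re, mul_zero,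
        Complex.ofReal_im, Complex.I_im, mul_one, sub_self, add_zero, Complex.zero_re] at h1
      simp only [Complex.add_im, Complex.ofReal_im, Complex.mul_im, Complex.I_re, mul_zero,
        Complex.ofReal_re, Complex.I_im, mul_one, zero_add, add_zero, Complex.zero_im] at h2
      exact ⟨by linarith, h2⟩
    · rintro ⟨h1, h2⟩
      rw [h1, h2]
      simp
  constructor
  · intro h h0
    obtain ⟨h1, h2⟩ := he.1 h0
    have hd0 : dd (yy g) = 0 := by rw [hd, h2, abs_zero]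
    rcases h with h | h | h
    · have h3 := h.2.2
      rw [hd0, Complex.sub_re, Complex.one_re, h1] at h3
      norm_num at h3
    · have h3 := h.2.2
      rw [hd0, h1] at h3
      norm_num at h3
    · have h3 := h.2
      rw [hd0] at h3
      exact lt_irrefl _ h3
  · intro h
    by_cases h2 : (yy g).im = 0
    · have hd0 : dd (yy g) = 0 := by rw [hd, h2, abs_zero]
      have h1 : (xx g).re ≠ 1 / 2 := fun h1 => h (he.2 ⟨h1, h2⟩)
      rcases lt_or_gt_of_ne h1 with h3 | h3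
      · refine Or.inr (Or.inl ⟨hg.1, ?_, ?_⟩)
        · rw [hd0]
          exact one_pos
        · rw [hd0]
          linarith
      · refine Or.inl ⟨hg.1, ?_, ?_⟩
        · rw [hd0]
          exact one_pos
        · rw [hd0, Complex.sub_re, Complex.one_re]
          linarith
    · refine Or.inr (Or.inr ⟨hg.1, ?_⟩)
      rw [hd]
      exact abs_pos.2 h2

private def BbE_e (z : ℂ × ℂ) : ℂ := -((z.1.re - 1 / 2 : ℝ) + z.2.im * Complex.I)

private def BbE_th (l : ℂ) : ℝ := (4 * (1 + ‖l‖))⁻¹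

private def BbE_g (l : ℂ) : ℂ × ℂ :=
  (((1 / 2 - BbE_th l * l.re : ℝ) : ℂ), (2 : ℂ) - ((BbE_th l * l.im : ℝ) : ℂ) * Complex.I)

private theorem BbE_th_pos (l : ℂ) : 0 < BbE_th l := by
  unfold BbE_th
  positivity

private theorem BbE_th_cont : Continuous BbE_th := by
  unfold BbE_th
  refine Continuous.inv₀ (by fun_prop) fun l => ?_
  positivity

private theorem BbE_th_le (l : ℂ) : BbE_th l * ‖l‖ ≤ 1 / 4 := by
  unfold BbE_th
  have h := norm_nonneg l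
  rw [inv_mul_le_iff₀ (by positivity)]
  linarith

private theorem BbE_g_mem (l : ℂ) : BbE_g l ∈ Bc := by
  have h1 := BbE_th_le l
  have h2 : |BbE_th l * l.re| ≤ 1 / 4 := by
    rw [abs_mul, abs_of_pos (BbE_th_pos l)]
    exact (mul_le_mul_of_nonneg_left (Complex.abs_re_le_norm l) (BbE_th_pos l).le).trans h1
  obtain ⟨h3, h4⟩ := abs_le.1 h2
  refine ⟨?_, ?_, ?_⟩
  · show 0 < (((1 / 2 - BbE_th l * l.re : ℝ) : ℂ)).re
    rw [Complex.ofReal_re]
    linarith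
  · show (((1 / 2 - BbE_th l * l.re : ℝ) : ℂ)).re < 1
    rw [Complex.ofReal_re]
    linarith
  · show 1 < ((2 : ℂ) - ((BbE_th l * l.im : ℝ) : ℂ) * Complex.I).re
    rw [Complex.sub_re, Complex.re_ofReal_mul, Complex.I_re]
    norm_num

private theorem BbE_e_g (l : ℂ) : BbE_e (BbE_g l) = ((BbE_th l : ℝ) : ℂ) * l := by
  apply Complex.ext
  · simp [BbE_e, BbE_g]
  · simp [BbE_e, BbE_g]

private theorem BbE_e_cont : Continuous BbE_e := by
  unfold BbE_e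
  fun_prop

private theorem BbE_g_cont : Continuous BbE_g := by
  have := BbE_th_cont
  unfold BbE_g
  fun_prop

private theorem BbE_e_aff (s : ℝ) (z w : ℂ × ℂ) :
    BbE_e ((1 - s) • z + s • w) = ((1 - s : ℝ) : ℂ) * BbE_e z + ((s : ℝ) : ℂ) * BbE_e w := by
  apply Complex.ext
  · simp [BbE_e]
    ring
  · simp [BbE_e]
    ring

private theorem BbE_sc {t s : ℝ} (ht : 0 < t) (h0 : 0 ≤ s) (h1 : s ≤ 1) :
    ((1 - s) * t + s : ℝ) ≠ 0 := by
  rcases eq_or_lt_of_le h0 with h | h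
  · rw [← h]
    linarith
  · have := mul_nonneg (sub_nonneg.2 h1) ht.le
    linarith

private theorem BbE_eqv : Eqv {z | z ∈ Bc ∧ BbE_e z ≠ 0} Cx BbE_e := by
  have hg : ∀ l : ℂ, l ≠ 0 → BbE_e (BbE_g l) ≠ 0 := by
    intro l hl
    rw [BbE_e_g]
    exact mul_ne_zero (Complex.ofReal_ne_zero.2 (BbE_th_pos l).ne') hl
  refine ⟨⟨BbE_e_cont.continuousOn, fun z hz => hz.2⟩, BbE_g, ⟨BbE_g_cont.continuousOn,
    fun l hl => ⟨BbE_g_mem l, hg l hl⟩⟩, ?_, ?_⟩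
  · refine ⟨fun s z => (1 - s) • BbE_g (BbE_e z) + s • z, ?_, ?_, ?_, ?_⟩
    · have h1 := BbE_g_cont
      have h2 := BbE_e_cont
      exact Continuous.continuousOn (by fun_prop)
    · intro s hs z hz
      refine ⟨BbE_convex (BbE_g_mem _) hz.1 (by linarith [hs.2]) hs.1 (by ring), ?_⟩
      rw [BbE_e_aff, BbE_e_g]
      have h3 : ((1 - s : ℝ) : ℂ) * (((BbE_th (BbE_e z) : ℝ) : ℂ) * BbE_e z) +
          ((s : ℝ) : ℂ) * BbE_e z = (((1 - s) * BbE_th (BbE_e z) + s : ℝ) : ℂ) * BbE_e z := by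
        push_cast
        ring
      rw [h3]
      exact mul_ne_zero (Complex.ofReal_ne_zero.2 (BbE_sc (BbE_th_pos _) hs.1 hs.2)) hz.2
    · intro z _
      simp
    · intro z _
      simp
  · refine ⟨fun s l => (((1 - s) * BbE_th l + s : ℝ) : ℂ) * l, ?_, ?_, ?_, ?_⟩
    · have h1 := BbE_th_cont
      exact Continuous.continuousOn (by fun_prop)
    · intro s hs l hl
      exact mul_ne_zero (Complex.ofReal_ne_zero.2 (BbE_sc (BbE_th_pos _) hs.1 hs.2)) hl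
    · intro l _
      show (((1 - 0) * BbE_th l + 0 : ℝ) : ℂ) * l = BbE_e (BbE_g l)
      rw [BbE_e_g]
      simp
    · intro l _
      simp

/-- Proof. In the coordinates `(x, y)`: `Eqv` of `{z ∈ Bc | e z ≠ 0}`, `e (x, y) = -((Re x - 1/2) + i Im y)`. Inverse
`λ ↦ (1/2 - θ Re λ, 2 - i θ Im λ)`, `θ = (4 (1 + ‖λ‖))⁻¹`; `e` of it is `θ λ`, homotopic to `λ` through `(1 - s + s θ) λ`.
Straight line homotopy from `z` to the inverse of `e z`: `e` of it is `(1 - s + s θ (e z)) e z ≠ 0`, and the point stays in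
the convex set `Bc`. -/
theorem ee_eqv : Eqv (Aa ∩ Bb) Cx ee := by
  have h1 : Eqv (Aa ∩ Bb) {z | z ∈ Bc ∧ BbE_e z ≠ 0} (fun g => (xx g, yy g)) := by
    refine Eqv.of_inv (g := Bi) ⟨BbE_cont.continuousOn, fun g hg => ⟨BbE_xy hg.2, ?_⟩⟩
      ⟨Bi_mapC.1.mono fun z hz => hz.1, fun z hz => ⟨?_, Bi_mapC.2 hz.1⟩⟩
      (fun g hg => Bi_left hg.2) (fun z hz => Prod.ext (BbE_x hz.1) (BbE_y hz.1))
    · exact (mem_inter hg.2).1 hg.1
    · refine (mem_inter (Bi_mapC.2 hz.1)).2 ?_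
      have h2 : ee (Bi z) = BbE_e z := by
        unfold ee BbE_e
        rw [BbE_x hz.1, BbE_y hz.1]
      rw [h2]
      exact hz.2
  exact BbE_eqv.comp h1

end Pool.Agent.MP_c984cf_ag_N5
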