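import Pool.Agent.Lib.MP_c984cf_ag_N5.KDefs

/-!
# Contractible hypersurfaces of log-general type in dimension five: logarithmic derivatives
-/

set_option autoImplicit false

noncomputable section

namespace Pool.Agent.MP_c984cf_ag_N5

open MvPolynomial Pool.Agent.MP_c984cf_ag

variable {D : Fin 4 → Derivation ℂ K4 K4} (hD : ∀ i j, D j (gk i) = if i = j then 1 else 0)

include hD in
private theorem DLz_gk (i j : Fin 4) : dl D (gk i) j = (if i = j then 1 else 0) / gk i := by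
  change D j (gk i) / gk i = _
  rw [hD]

include hD in
/-- Proof. The matrix of `dl D (zk i) j` is `(1/g₁, 2/g₂, 0, 0), (0, 0, 1/g₃, 3/g₄), (1/g₁, 0, 1/g₃, 0),
(0, 1/g₂, 0, 1/g₄)` (`dl_mul`, `dl_pow`, `hD`); determinant `- 1 / (g₁ g₂ g₃ g₄)` (`Matrix.det_succ_row_zero`, `simp`). -/
theorem det_zk : Matrix.det (Matrix.of fun i j => dl D (zk i) j) = -pk⁻¹ := by
  have h := gk_ne
  have h0 := h 0
  have h1 := h 1
  have h2 := h 2
  have h3 := h 3
  have e0 : dl D (zk 0) = dl D (gk 0) + (2 : K4) • dl D (gk 1) := by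
    have h4 : zk 0 = gk 0 * gk 1 ^ 2 := rfl
    rw [h4, dl_mul D h0 (pow_ne_zero _ h1), dl_pow D h1]
    norm_num
  have e1 : dl D (zk 1) = dl D (gk 2) + (3 : K4) • dl D (gk 3) := by
    have h4 : zk 1 = gk 2 * gk 3 ^ 3 := rfl
    rw [h4, dl_mul D h2 (pow_ne_zero _ h3), dl_pow D h3]
    norm_num
  have e2 : dl D (zk 2) = dl D (gk 0) + dl D (gk 2) := by
    have h4 : zk 2 = gk 0 * gk 2 := rfl
    rw [h4, dl_mul D h0 h2]
  have e3 : dl D (zk 3) = dl D (gk 1) + dl D (gk 3) := by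
    have h4 : zk 3 = gk 1 * gk 3 := rfl
    rw [h4, dl_mul D h1 h3]
  have hM : (Matrix.of fun i j => dl D (zk i) j) =
      !![1 / gk 0, 2 / gk 1, 0, 0; 0, 0, 1 / gk 2, 3 / gk 3; 1 / gk 0, 0, 1 / gk 2, 0;
        0, 1 / gk 1, 0, 1 / gk 3] := by
    ext i j
    rw [Matrix.of_apply]
    fin_cases i
    · change dl D (zk 0) j = _
      rw [e0]
      change dl D (gk 0) j + 2 * dl D (gk 1) j = _
      rw [DLz_gk hD, DLz_gk hD]
      fin_cases j <;> simp [div_eq_mul_inv]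
    · change dl D (zk 1) j = _
      rw [e1]
      change dl D (gk 2) j + 3 * dl D (gk 3) j = _
      rw [DLz_gk hD, DLz_gk hD]
      fin_cases j <;> simp [div_eq_mul_inv]
    · change dl D (zk 2) j = _
      rw [e2]
      change dl D (gk 0) j + dl D (gk 2) j = _
      rw [DLz_gk hD, DLz_gk hD]
      fin_cases j <;> simp
    · change dl D (zk 3) j = _
      rw [e3]
      change dl D (gk 1) j + dl D (gk 3) j = _
      rw [DLz_gk hD, DLz_gk hD]
      fin_cases j <;> simp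
  rw [hM]
  simp [Matrix.det_succ_row_zero, Fin.sum_univ_succ, Fin.succAbove, pk]
  field_simp
  ring

/-- the rows of coefficients with respect to `dl D (zk k)` -/
def lin (D : Fin 4 → Derivation ℂ K4 K4) (f : K4) (r : Fin 4 → K4) : Prop :=
  f ≠ 0 ∧ dl D f = ∑ k, r k • dl D (zk k)

private theorem DLz_mul (D : Fin 4 → Derivation ℂ K4 K4) {f g : K4} {r s : Fin 4 → K4}
    (h1 : lin D f r) (h2 : lin D g s) : lin D (f * g) (r + s) := by
  refine ⟨mul_ne_zero h1.1 h2.1, ?_⟩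
  rw [dl_mul D h1.1 h2.1, h1.2, h2.2, ← Finset.sum_add_distrib]
  refine Finset.sum_congr rfl fun k _ => ?_
  rw [Pi.add_apply, add_smul]

private theorem DLz_smul (D : Fin 4 → Derivation ℂ K4 K4) (a : K4) (r : Fin 4 → K4) :
    a • ∑ k, r k • dl D (zk k) = ∑ k, (a • r) k • dl D (zk k) := by
  rw [Finset.smul_sum]
  refine Finset.sum_congr rfl fun k _ => ?_
  rw [Pi.smul_apply, smul_eq_mul, mul_smul]

private theorem DLz_pow (D : Fin 4 → Derivation ℂ K4 K4) {f : K4} {r : Fin 4 → K4}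
    (h : lin D f r) (n : ℕ) : lin D (f ^ n) ((n : K4) • r) := by
  refine ⟨pow_ne_zero _ h.1, ?_⟩
  rw [dl_pow D h.1, h.2, DLz_smul]

private theorem DLz_add (D : Fin 4 → Derivation ℂ K4 K4) {f g : K4} {r s : Fin 4 → K4}
    (h1 : lin D f r) (h2 : lin D g s) (h0 : f + g ≠ 0) :
    lin D (f + g) ((f / (f + g)) • r + (g / (f + g)) • s) := by
  refine ⟨h0, ?_⟩
  rw [dl_add D h1.1 h2.1 h0, h1.2, h2.2, DLz_smul, DLz_smul, ← Finset.sum_add_distrib]
  refine Finset.sum_congr rfl fun k _ => ?_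
  rw [Pi.add_apply, add_smul]

private theorem DLz_div (D : Fin 4 → Derivation ℂ K4 K4) {f g : K4} {r s : Fin 4 → K4}
    (h1 : lin D f r) (h2 : lin D g s) : lin D (f / g) (r - s) := by
  refine ⟨div_ne_zero h1.1 h2.1, ?_⟩
  rw [dl_div D h1.1 h2.1, h1.2, h2.2, ← Finset.sum_sub_distrib]
  refine Finset.sum_congr rfl fun k _ => ?_
  rw [Pi.sub_apply, sub_smul]

private theorem DLz_z (D : Fin 4 → Derivation ℂ K4 K4) (i : Fin 4) :
    lin D (zk i) (Pi.single i 1) := by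
  refine ⟨zk_ne i, ?_⟩
  rw [Finset.sum_eq_single i]
  · rw [Pi.single_eq_same, one_smul]
  · intro k _ hk
    rw [Pi.single_eq_of_ne hk, zero_smul]
  · intro h
    exact absurd (Finset.mem_univ i) h

private theorem DLz_congr {D : Fin 4 → Derivation ℂ K4 K4} {f : K4} {r s : Fin 4 → K4}
    (h : lin D f r) (h0 : r 0 = s 0) (h1 : r 1 = s 1) (h2 : r 2 = s 2) (h3 : r 3 = s 3) :
    lin D f s := by
  have e : r = s := by
    funext k
    fin_cases k
    · exact h0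
    · exact h1
    · exact h2
    · exact h3
  rwa [← e]

/-- Proof. `dl_add`: `dl τ = x dl X₁ + (1 - x) dl X₂`. -/
theorem lin_t : lin D tk ![xk, xk', 0, 0] := by
  refine DLz_congr (DLz_add D (DLz_z D 0) (DLz_z D 1) tk_ne) ?_ ?_ ?_ ?_ <;> simp [xk, xk', tk]

theorem lin_c : lin D ck ![0, 0, yk, yk'] := by
  refine DLz_congr (DLz_add D (DLz_z D 2) (DLz_z D 3) ck_ne) ?_ ?_ ?_ ?_ <;> simp [yk, yk', ck]

theorem lin_x : lin D xk ![xk', -xk', 0, 0] := by
  have h := xk_add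
  refine DLz_congr (DLz_div D (DLz_z D 0) lin_t) ?_ ?_ ?_ ?_ <;> simp
  linear_combination -h

theorem lin_x' : lin D xk' ![-xk, xk, 0, 0] := by
  have h := xk_add
  refine DLz_congr (DLz_div D (DLz_z D 1) lin_t) ?_ ?_ ?_ ?_ <;> simp
  linear_combination -h

theorem lin_y : lin D yk ![0, 0, yk', -yk'] := by
  have h := yk_add
  refine DLz_congr (DLz_div D (DLz_z D 2) lin_c) ?_ ?_ ?_ ?_ <;> simp
  linear_combination -h

theorem lin_y' : lin D yk' ![0, 0, -yk, yk] := by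
  have h := yk_add
  refine DLz_congr (DLz_div D (DLz_z D 3) lin_c) ?_ ?_ ?_ ?_ <;> simp
  linear_combination -h

theorem lin_m1 : lin D m1 ![2 * xk, 2 * xk', yk, yk'] := by
  refine DLz_congr (DLz_mul D (DLz_pow D lin_t 2) lin_c) ?_ ?_ ?_ ?_ <;> simp

theorem lin_m2 : lin D m2 ![xk, xk', 2 * yk, 2 * yk'] := by
  refine DLz_congr (DLz_mul D lin_t (DLz_pow D lin_c 2)) ?_ ?_ ?_ ?_ <;> simp

/-- `dl q = (M₁ dl M₁ + M₂ dl M₂) / q` (from `qk = 1 + m1 + m2`, `D j 1 = 0`, `dl D f j * f = D j f`). -/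
theorem lin_q : lin D qk
    ![(m1 * (2 * xk) + m2 * xk) / qk, (m1 * (2 * xk') + m2 * xk') / qk,
      (m1 * yk + m2 * (2 * yk)) / qk, (m1 * yk' + m2 * (2 * yk')) / qk] := by
  refine ⟨qk_ne, ?_⟩
  have h1 := (lin_m1 (D := D)).2
  have h2 := (lin_m2 (D := D)).2
  funext j
  have e1 : D j m1 = m1 * dl D m1 j := by
    change D j m1 = m1 * (D j m1 / m1)
    rw [mul_div_cancel₀ _ m1_ne]
  have e2 : D j m2 = m2 * dl D m2 j := by
    change D j m2 = m2 * (D j m2 / m2)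
    rw [mul_div_cancel₀ _ m2_ne]
  have e3 : dl D qk j = (m1 * dl D m1 j + m2 * dl D m2 j) / qk := by
    change D j qk / qk = _
    rw [← e1, ← e2]
    congr 1
    conv_lhs => rw [qk_m]
    rw [map_add, map_add, Derivation.map_one_eq_zero, zero_add]
  rw [e3, h1, h2]
  simp only [Fin.sum_univ_four, Pi.add_apply, Pi.smul_apply, smul_eq_mul, Matrix.cons_val_zero,
    Matrix.cons_val_one, Matrix.cons_val]
  ring

theorem lin_inv {f : K4} {r : Fin 4 → K4} (h : lin D f r) : lin D f⁻¹ (-r) := by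
  have h1 : lin D (f * f⁻¹) 0 := by
    rw [mul_inv_cancel₀ h.1]
    refine ⟨one_ne_zero, ?_⟩
    funext j
    change D j 1 / 1 = _
    rw [Derivation.map_one_eq_zero]
    simp
  have h2 := h1.2
  rw [dl_mul D h.1 (inv_ne_zero h.1), h.2] at h2
  refine ⟨inv_ne_zero h.1, ?_⟩
  have h3 : (∑ k, (0 : Fin 4 → K4) k • dl D (zk k)) = 0 := by simp
  rw [h3] at h2
  rw [eq_neg_of_add_eq_zero_right h2, ← Finset.sum_neg_distrib]
  refine Finset.sum_congr rfl fun k _ => ?_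
  rw [Pi.neg_apply, neg_smul]

include hD in
/-- `jac D c / ∏ c = - det (rows) / (g₁ g₂ g₃ g₄)` (`jac_dl`, `det_dl`, `det_zk`). -/
theorem jac_lin {c : Fin 4 → K4} {M : Matrix (Fin 4) (Fin 4) K4} (h : ∀ i, lin D (c i) (M i)) :
    jac D c / ∏ i, c i = -(M.det * pk⁻¹) := by
  rw [jac_dl D c fun i => (h i).1, det_dl D c zk M fun i => (h i).2, det_zk hD, mul_neg]

end Pool.Agent.MP_c984cf_ag_N5
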