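import Pool.Agent.Lib.MP_c984cf_ag_N5.Ker

/-!
# Contractible hypersurfaces of log-general type in dimension five: the function field
-/

set_option autoImplicit false

noncomputable section

namespace Pool.Agent.MP_c984cf_ag_N5

open MvPolynomial

/-- the coordinate ring -/
abbrev A5 : Type := P5 ⧸ Ideal.span {pp}

/-- the embedding of the coordinate ring in the function field -/
def phiA : A5 →ₐ[ℂ] K4 :=
  Ideal.Quotient.liftₐ _ phi (by
    intro a ha
    obtain ⟨c, rfl⟩ := Ideal.mem_span_singleton.mp ha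
    rw [map_mul, phi_pp, zero_mul])

theorem phiA_mk (F : P5) : phiA (Ideal.Quotient.mk _ F) = phi F := rfl

theorem phiA_inj : Function.Injective phiA := by
  rw [injective_iff_map_eq_zero]
  intro a ha
  obtain ⟨F, rfl⟩ := Ideal.Quotient.mk_surjective a
  rw [Ideal.Quotient.eq_zero_iff_mem, Ideal.mem_span_singleton]
  exact phi_ker ha

instance algA5 : Algebra A5 K4 := phiA.toRingHom.toAlgebra

theorem algA5_eq (a : A5) : algebraMap A5 K4 a = phiA a := rfl

instance towerA5 : IsScalarTower ℂ A5 K4 := by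
  apply IsScalarTower.of_algebraMap_eq (R := ℂ) (S := A5) (A := K4)
  intro z
  exact (AlgHom.commutes phiA z).symm

/-- Proof. Model: `isFractionRing_ratFunc` in Lib/MP_c984cf_ag/Kappa.lean. Every `algebraMap P4 K4 G` is the image of
an element of `A5` (the subring generated by `g₁ = phi (X 3)`, `g₂ = phi (1 + X 0 * X 2)`, `g₃ = phi (X 0 * X 1)`,
`g₄ = phi (X 4)`); every element of `K4` is a quotient of two of these. -/
instance fracA5 : IsFractionRing A5 K4 := by
  have hs : ∀ G : P4, algebraMap A5 K4 (Ideal.Quotient.mk _ (psi (Polynomial.C G))) =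
      algebraMap P4 K4 G := by
    intro G
    rw [algA5_eq, phiA_mk, phi_psi, Polynomial.eval_C]
  have hinj : Function.Injective (algebraMap A5 K4) := phiA_inj
  have : IsDomain A5 := Function.Injective.isDomain (algebraMap A5 K4) hinj
  refine (isLocalization_iff _ _).mpr ⟨?_, ?_, ?_⟩
  · intro y
    rw [isUnit_iff_ne_zero]
    intro h0
    exact nonZeroDivisors.coe_ne_zero y ((map_eq_zero_iff _ hinj).mp h0)
  · intro x
    obtain ⟨a, b, hb, rfl⟩ := IsFractionRing.div_surjective (A := P4) x
    have hb0 : algebraMap P4 K4 b ≠ 0 := IsFractionRing.to_map_ne_zero_of_mem_nonZeroDivisors hb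
    refine ⟨(Ideal.Quotient.mk _ (psi (Polynomial.C a)),
      ⟨Ideal.Quotient.mk _ (psi (Polynomial.C b)),
        mem_nonZeroDivisors_of_ne_zero fun h0 => hb0 ?_⟩), ?_⟩
    · rw [← hs b, h0, map_zero]
    · show algebraMap P4 K4 a / algebraMap P4 K4 b *
        algebraMap A5 K4 (Ideal.Quotient.mk _ (psi (Polynomial.C b))) =
        algebraMap A5 K4 (Ideal.Quotient.mk _ (psi (Polynomial.C a)))
      rw [hs, hs, div_mul_cancel₀ _ hb0]
  · intro x y hxy
    exact ⟨1, by rw [hinj hxy]⟩

end Pool.Agent.MP_c984cf_ag_N5
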