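import Pool.Agent.Lib.MP_c984cf_ag_N5.Frac
import Pool.Agent.Lib.MP_c984cf_ag.Deriv

/-!
# Contractible hypersurfaces of log-general type in dimension five: the frame and logarithmic
derivatives
-/

set_option autoImplicit false

noncomputable section

namespace Pool.Agent.MP_c984cf_ag_N5

open MvPolynomial Pool.Agent.MP_c984cf_ag

/-- The frame `∂/∂gⱼ` on `K4`. Proof. `exists_extend` (Lib/MP_c984cf_ag/Deriv.lean) for
`(Algebra.linearMap P4 K4).compDer (pderiv j)`, `choose`. -/
theorem exists_frame : ∃ D : Fin 4 → Derivation ℂ K4 K4,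
    ∀ i j, D j (gk i) = if i = j then 1 else 0 := by
  have h : ∀ j : Fin 4, ∃ D : Derivation ℂ K4 K4, ∀ a : P4,
      D (algebraMap P4 K4 a) = algebraMap P4 K4 (pderiv j a) := by
    intro j
    obtain ⟨D, hD⟩ := exists_extend (P := P4) (L := K4)
      ((Algebra.linearMap P4 K4).compDer (pderiv j))
    exact ⟨D, fun a => hD a⟩
  choose D hD using h
  refine ⟨D, fun i j => ?_⟩
  unfold gk
  rw [hD, pderiv_X]
  by_cases hij : i = j
  · subst hij
    rw [Pi.single_eq_same, if_pos rfl, map_one]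
  · rw [Pi.single_eq_of_ne (fun h => hij h),
      if_neg hij, map_zero]

/-- the logarithmic derivatives -/
def dl (D : Fin 4 → Derivation ℂ K4 K4) (f : K4) : Fin 4 → K4 := fun j => D j f / f

theorem dl_mul (D : Fin 4 → Derivation ℂ K4 K4) {f g : K4} (hf : f ≠ 0) (hg : g ≠ 0) :
    dl D (f * g) = dl D f + dl D g := by
  funext j
  change D j (f * g) / (f * g) = D j f / f + D j g / g
  rw [Derivation.leibniz, smul_eq_mul, smul_eq_mul]
  field_simp
  ring

theorem dl_div (D : Fin 4 → Derivation ℂ K4 K4) {f g : K4} (hf : f ≠ 0) (hg : g ≠ 0) :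
    dl D (f / g) = dl D f - dl D g := by
  have h : dl D (f / g * g) = dl D (f / g) + dl D g := dl_mul D (div_ne_zero hf hg) hg
  rw [div_mul_cancel₀ _ hg] at h
  rw [h, add_sub_cancel_right]

theorem dl_pow (D : Fin 4 → Derivation ℂ K4 K4) {f : K4} (hf : f ≠ 0) (n : ℕ) :
    dl D (f ^ n) = (n : K4) • dl D f := by
  induction n with
  | zero =>
    funext j
    change D j (f ^ 0) / f ^ 0 = ((0 : ℕ) : K4) * (D j f / f)
    rw [pow_zero, Derivation.map_one_eq_zero, Nat.cast_zero, zero_mul, zero_div]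
  | succ n ih =>
    rw [pow_succ, dl_mul D (pow_ne_zero _ hf) hf, ih, Nat.cast_succ, add_smul, one_smul]

/-- `d log (f + g) = (f dlog f + g dlog g) / (f + g)` -/
theorem dl_add (D : Fin 4 → Derivation ℂ K4 K4) {f g : K4} (hf : f ≠ 0) (hg : g ≠ 0)
    (hfg : f + g ≠ 0) : dl D (f + g) = (f / (f + g)) • dl D f + (g / (f + g)) • dl D g := by
  funext j
  change D j (f + g) / (f + g) = f / (f + g) * (D j f / f) + g / (f + g) * (D j g / g)
  rw [map_add]
  field_simp

/-- `jac D c / ∏ c = det (dlog c)` -/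
theorem jac_dl (D : Fin 4 → Derivation ℂ K4 K4) (c : Fin 4 → K4) (hc : ∀ i, c i ≠ 0) :
    jac D c / ∏ i, c i = Matrix.det (Matrix.of fun i j => dl D (c i) j) := by
  have h : (Matrix.of fun i j => D j (c i)) =
      Matrix.of fun i j => c i * (Matrix.of fun i j => dl D (c i) j) i j := by
    ext i j
    change D j (c i) = c i * (D j (c i) / c i)
    rw [mul_div_cancel₀ _ (hc i)]
  unfold jac
  rw [h, Matrix.det_mul_column, mul_div_cancel_left₀]
  exact Finset.prod_ne_zero_iff.2 fun i _ => hc i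

/-- If `dlog (c i) = ∑ k, M i k • dlog (z k)`, the determinants are related by `det M`. -/
theorem det_dl (D : Fin 4 → Derivation ℂ K4 K4) (c z : Fin 4 → K4) (M : Matrix (Fin 4) (Fin 4) K4)
    (h : ∀ i, dl D (c i) = ∑ k, M i k • dl D (z k)) :
    Matrix.det (Matrix.of fun i j => dl D (c i) j) =
      M.det * Matrix.det (Matrix.of fun i j => dl D (z i) j) := by
  rw [← Matrix.det_mul]
  congr 1
  ext i j
  rw [Matrix.mul_apply, Matrix.of_apply, h i, Finset.sum_apply]
  rfl

end Pool.Agent.MP_c984cf_ag_N5
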