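import Pool.Agent.Lib.MP_c984cf_ag_N5.GlueP

/-!
# Contractible hypersurfaces of log-general type in dimension five: the gluing lemma
-/

set_option autoImplicit false

noncomputable section

namespace Pool.Agent.MP_c984cf_ag_N5

open Set Filter Topology

variable {E : Type} [TopologicalSpace E]

/-- GLUING LEMMA. Proof: `X = A ∪ B`, `Z = A ∩ B`; `j, K, H` from `h` (homotopies reversed: `K 0 = id`, `K 1 = j` on
`Z`, `H 0 = id`, `H 1 = j` on `A`), `P` from `glue_paths`. `k x = max 0 (min 1 (3 l x - 1))` (so `k = 0` for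
`l ≤ 1/3`, `k = 1` for `l ≥ 2/3`). Define `Γ s x = x` if `l x ≤ 1/3`, `P (k x) s x` if `1/3 < l x < 2/3`, `H s x` if
`2/3 ≤ l x`. It is continuous on `Icc 0 1 ×ˢ X` (`cont_glue` twice with `l`, at `1/3` and `2/3`; the points with
`0 < l < 1` are in `Z`), maps `X` to `X`, `Γ 0 = id`, `Γ 1` maps `X` to `B` (for `2/3 ≤ l`: `H 1 x = j x ∈ Z`). The
inverse of the inclusion `B → X` is `r = Γ 1`; `Γ` is the homotopy from `id` to `r` on `X`. On `B` (in `B`): homotopy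
from `id` to `r` given by `(s, x) ↦ x` if `l x ≤ 1/3`, `P (s * k x) 1 x` if `1/3 ≤ l x` (then `x ∈ Z`); at `s = 1`
and `2/3 ≤ l x` it is `P 1 1 x = H 1 x`. -/
theorem glue {A B : Set E} {l : E → ℝ} (hl : ContinuousOn l (A ∪ B))
    (hA : ∀ x ∈ A ∪ B, 0 < l x → x ∈ A) (hB : ∀ x ∈ A ∪ B, l x < 1 → x ∈ B)
    (h : Eqv (A ∩ B) A id) : Eqv B (A ∪ B) id := by
  obtain ⟨_, j, mj, h1, h2⟩ := h
  obtain ⟨K, hK, hK1, hK2, hK3⟩ := h1.symm
  obtain ⟨H, hH, hH1, hH2, hH3⟩ := h2.symm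
  obtain ⟨P, hP, hP1, hP2, hP3, hP4, hP5⟩ := glue_paths inter_subset_left mj hK hK1
    (fun a ha => hK2 a ha) (fun a ha => hK3 a ha) hH hH1 (fun a ha => hH2 a ha)
    (fun a ha => hH3 a ha)
  obtain ⟨k, hk⟩ : ∃ k : E → ℝ, k = fun x => max 0 (min 1 (3 * l x - 1)) := ⟨_, rfl⟩
  have k01 : ∀ x, k x ∈ Icc (0 : ℝ) 1 := fun x => by
    rw [hk]
    exact ⟨le_max_left _ _, max_le zero_le_one (min_le_left _ _)⟩
  have kc : ContinuousOn k (A ∪ B) := by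
    rw [hk]
    fun_prop
  have ka : ∀ x, l x ≤ 1 / 3 → k x = 0 := fun x hx => by
    rw [hk]
    exact max_eq_left ((min_le_right _ _).trans (by linarith))
  have kb : ∀ x, 2 / 3 ≤ l x → k x = 1 := fun x hx => by
    rw [hk]
    change max 0 (min 1 (3 * l x - 1)) = 1
    rw [min_eq_left (by linarith), max_eq_right zero_le_one]
  have inA : ∀ x ∈ A ∪ B, 1 / 3 ≤ l x → x ∈ A := fun x hx h => hA x hx (by linarith)
  have inB : ∀ x ∈ A ∪ B, l x ≤ 2 / 3 → x ∈ B := fun x hx h => hB x hx (by linarith)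
  obtain ⟨Γ, hΓ⟩ : ∃ Γ : ℝ → E → E, Γ = fun s x => if l x ≤ 1 / 3 then x else
    if l x < 2 / 3 then P (k x) s x else H s x := ⟨_, rfl⟩
  have g1 : ∀ s x, l x ≤ 1 / 3 → Γ s x = x := fun s x hx => by
    rw [hΓ]
    simp only [if_pos hx]
  have g3 : ∀ s x, 2 / 3 ≤ l x → Γ s x = H s x := fun s x hx => by
    rw [hΓ]
    simp only [if_neg (show ¬ l x ≤ 1 / 3 by linarith), if_neg (not_lt.2 hx)]
  have g2 : ∀ s ∈ Icc (0 : ℝ) 1, ∀ x ∈ A ∪ B, 1 / 3 ≤ l x → l x ≤ 2 / 3 →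
      Γ s x = P (k x) s x := fun s hs x hx h3 h4 => by
    have hxZ : x ∈ A ∩ B := ⟨inA x hx h3, inB x hx h4⟩
    rcases eq_or_lt_of_le h3 with h5 | h5
    · rw [g1 s x h5.ge, ka x h5.ge, hP4 s hs x hxZ]
    rcases eq_or_lt_of_le h4 with h6 | h6
    · rw [g3 s x h6.ge, kb x h6.ge, hP5 s hs x hxZ]
    rw [hΓ]
    simp only [if_neg (not_le.2 h5), if_pos h6]
  have hΓc : ContinuousOn (fun z : ℝ × E => Γ z.1 z.2) (Icc 0 1 ×ˢ (A ∪ B)) := by
    have hl2 : ContinuousOn (fun z : ℝ × E => l z.2) (Icc 0 1 ×ˢ (A ∪ B)) :=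
      hl.comp continuousOn_snd fun z hz => hz.2
    refine cont_glue hl2 (1 / 3) ?_ ?_
    · exact continuousOn_snd.congr fun z hz => g1 _ _ hz.2
    · refine cont_glue (hl2.mono fun z hz => hz.1) (2 / 3) ?_ ?_
      · have hc : ContinuousOn (fun z : ℝ × E => ((k z.2, z.1, z.2) : ℝ × ℝ × E))
            {x | x ∈ {x | x ∈ Icc (0 : ℝ) 1 ×ˢ (A ∪ B) ∧ 1 / 3 ≤ l x.2} ∧ l x.2 ≤ 2 / 3} := by
          refine (kc.comp continuousOn_snd fun z hz => hz.1.1.2).prodMk ?_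
          fun_prop
        refine (hP.comp hc fun z hz => ⟨k01 _, hz.1.1.1, inA _ hz.1.1.2 hz.1.2,
          inB _ hz.1.1.2 hz.2⟩).congr fun z hz => ?_
        exact g2 _ hz.1.1.1 _ hz.1.1.2 hz.1.2 hz.2
      · refine (hH.mono fun z hz => ⟨hz.1.1.1, inA _ hz.1.1.2 hz.1.2⟩).congr fun z hz => ?_
        exact g3 _ _ hz.2
  have hΓm : ∀ s ∈ Icc (0 : ℝ) 1, MapsTo (Γ s) (A ∪ B) (A ∪ B) := fun s hs x hx => by
    rcases le_total (l x) (1 / 3) with h3 | h3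
    · rw [g1 s x h3]
      exact hx
    rcases le_total (l x) (2 / 3) with h4 | h4
    · rw [g2 s hs x hx h3 h4]
      exact Or.inl (hP1 _ (k01 x) s hs ⟨inA x hx h3, inB x hx h4⟩)
    · rw [g3 s x h4]
      exact Or.inl (hH1 s hs (inA x hx h3))
  have hΓ0 : ∀ x ∈ A ∪ B, Γ 0 x = x := fun x hx => by
    rcases le_total (l x) (1 / 3) with h3 | h3
    · rw [g1 0 x h3]
    rcases le_total (l x) (2 / 3) with h4 | h4
    · rw [g2 0 ⟨le_rfl, zero_le_one⟩ x hx h3 h4,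
        hP3 _ (k01 x) x ⟨inA x hx h3, inB x hx h4⟩]
    · rw [g3 0 x h4]
      exact hH2 x (inA x hx h3)
  have h11 : (1 : ℝ) ∈ Icc (0 : ℝ) 1 := ⟨zero_le_one, le_rfl⟩
  have hΓ1 : MapsTo (Γ 1) (A ∪ B) B := fun x hx => by
    rcases le_total (l x) (1 / 3) with h3 | h3
    · rw [g1 1 x h3]
      exact inB x hx (by linarith)
    rcases le_total (l x) (2 / 3) with h4 | h4
    · rw [g2 1 h11 x hx h3 h4]
      exact (hP2 _ (k01 x) ⟨inA x hx h3, inB x hx h4⟩).2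
    · rw [g3 1 x h4, hH3 x (inA x hx h3)]
      exact (mj.2 (inA x hx h3)).2
  have hΓ1c : ContinuousOn (Γ 1) (A ∪ B) := by
    have h5 : ContinuousOn (fun a : E => (((1 : ℝ), a) : ℝ × E)) (A ∪ B) := by fun_prop
    exact hΓc.comp h5 fun a ha => ⟨h11, ha⟩
  refine ⟨MapC.id.mono (fun _ h => h) subset_union_right, Γ 1, ⟨hΓ1c, hΓ1⟩, Hty.symm ?_,
    Hty.symm ⟨Γ, hΓc, hΓm, hΓ0, fun _ _ => rfl⟩⟩
  have hBX : ∀ x ∈ B, x ∈ A ∪ B := fun x hx => Or.inr hx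
  have sk : ∀ s ∈ Icc (0 : ℝ) 1, ∀ x, s * k x ∈ Icc (0 : ℝ) 1 := fun s hs x =>
    ⟨mul_nonneg hs.1 (k01 x).1, mul_le_one₀ hs.2 (k01 x).1 (k01 x).2⟩
  refine ⟨fun s x => if l x ≤ 1 / 3 then x else P (s * k x) 1 x, ?_, ?_, ?_, ?_⟩
  · have hl2 : ContinuousOn (fun z : ℝ × E => l z.2) (Icc 0 1 ×ˢ B) :=
      hl.comp continuousOn_snd fun z hz => hBX _ hz.2
    refine cont_glue hl2 (1 / 3) ?_ ?_
    · refine continuousOn_snd.congr fun z hz => ?_
      simp only [if_pos hz.2]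
    · have hc : ContinuousOn (fun z : ℝ × E => ((z.1 * k z.2, 1, z.2) : ℝ × ℝ × E))
          {x | x ∈ Icc (0 : ℝ) 1 ×ˢ B ∧ 1 / 3 ≤ l x.2} := by
        refine (continuousOn_fst.mul (kc.comp continuousOn_snd
          fun z hz => hBX _ hz.1.2)).prodMk ?_
        fun_prop
      refine (hP.comp hc fun z hz => ⟨sk _ hz.1.1 _, h11, inA _ (hBX _ hz.1.2) hz.2,
        hz.1.2⟩).congr fun z hz => ?_
      rcases eq_or_lt_of_le hz.2 with h5 | h5
      · simp only [if_pos h5.ge, Function.comp, ka _ h5.ge, mul_zero]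
        exact (hP4 1 h11 _ ⟨inA _ (hBX _ hz.1.2) hz.2, hz.1.2⟩).symm
      · simp only [if_neg (not_le.2 h5), Function.comp]
  · intro s hs x hx
    by_cases h3 : l x ≤ 1 / 3
    · simp only [if_pos h3]
      exact hx
    · simp only [if_neg h3]
      exact (hP2 _ (sk s hs x) ⟨inA x (hBX x hx) (not_le.1 h3).le, hx⟩).2
  · intro x hx
    by_cases h3 : l x ≤ 1 / 3
    · simp only [if_pos h3]
      rfl
    · simp only [if_neg h3, zero_mul]
      exact hP4 1 h11 x ⟨inA x (hBX x hx) (not_le.1 h3).le, hx⟩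
  · intro x hx
    change _ = Γ 1 x
    by_cases h3 : l x ≤ 1 / 3
    · simp only [if_pos h3]
      exact (g1 1 x h3).symm
    · simp only [if_neg h3, one_mul]
      have h3' := (not_le.1 h3).le
      rcases le_total (l x) (2 / 3) with h4 | h4
      · exact (g2 1 h11 x (hBX x hx) h3' h4).symm
      · rw [g3 1 x h4, kb x h4]
        exact hP5 1 h11 x ⟨inA x (hBX x hx) h3', hx⟩

end Pool.Agent.MP_c984cf_ag_N5
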