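import Pool.Agent.Lib.MP_c984cf_ag_N5.Basic

/-!
# Contractible hypersurfaces of log-general type in dimension five: families of paths
-/

set_option autoImplicit false

noncomputable section

namespace Pool.Agent.MP_c984cf_ag_N5

open Set Filter Topology

variable {E : Type} [TopologicalSpace E]

/-- families of paths in `A` which start at `z` and end in `Z`, from `f` to `g` -/
private def GlueP_Fam (A Z : Set E) (f g : ℝ → E → E) : Prop :=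
  ∃ P : ℝ → ℝ → E → E,
    ContinuousOn (fun z : ℝ × ℝ × E => P z.1 z.2.1 z.2.2) (Icc 0 1 ×ˢ (Icc 0 1 ×ˢ Z)) ∧
    (∀ κ ∈ Icc (0 : ℝ) 1, ∀ s ∈ Icc (0 : ℝ) 1, MapsTo (P κ s) Z A) ∧
    (∀ κ ∈ Icc (0 : ℝ) 1, MapsTo (P κ 1) Z Z) ∧
    (∀ κ ∈ Icc (0 : ℝ) 1, ∀ z ∈ Z, P κ 0 z = z) ∧
    (∀ s ∈ Icc (0 : ℝ) 1, ∀ z ∈ Z, P 0 s z = f s z) ∧
    ∀ s ∈ Icc (0 : ℝ) 1, ∀ z ∈ Z, P 1 s z = g s z

private theorem GlueP_symm {A Z : Set E} {f g : ℝ → E → E} (h : GlueP_Fam A Z f g) :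
    GlueP_Fam A Z g f := by
  obtain ⟨P, h1, h2, h3, h4, h5, h6⟩ := h
  have hm : ∀ κ ∈ Icc (0 : ℝ) 1, 1 - κ ∈ Icc (0 : ℝ) 1 := fun κ hκ =>
    ⟨by linarith [hκ.2], by linarith [hκ.1]⟩
  refine ⟨fun κ => P (1 - κ), ?_, ?_, ?_, ?_, ?_, ?_⟩
  · have hc : ContinuousOn (fun z : ℝ × ℝ × E => ((1 - z.1, z.2.1, z.2.2) : ℝ × ℝ × E))
        (Icc 0 1 ×ˢ (Icc 0 1 ×ˢ Z)) := by fun_prop
    exact h1.comp hc fun z hz => ⟨hm _ hz.1, hz.2⟩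
  · intro κ hκ
    exact h2 _ (hm κ hκ)
  · intro κ hκ
    exact h3 _ (hm κ hκ)
  · intro κ hκ
    exact h4 _ (hm κ hκ)
  · intro s hs z hz
    simp only [sub_zero]
    exact h6 s hs z hz
  · intro s hs z hz
    simp only [sub_self]
    exact h5 s hs z hz

private theorem GlueP_trans {A Z : Set E} {f g k : ℝ → E → E} (h : GlueP_Fam A Z f g)
    (h' : GlueP_Fam A Z g k) : GlueP_Fam A Z f k := by
  obtain ⟨P, h1, h2, h3, h4, h5, h6⟩ := h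
  obtain ⟨P', h1', h2', h3', h4', h5', h6'⟩ := h'
  have hl : ∀ κ ∈ Icc (0 : ℝ) 1, κ ≤ 1 / 2 → 2 * κ ∈ Icc (0 : ℝ) 1 := fun κ hκ hh =>
    ⟨by linarith [hκ.1], by linarith⟩
  have hr : ∀ κ ∈ Icc (0 : ℝ) 1, 1 / 2 ≤ κ → 2 * κ - 1 ∈ Icc (0 : ℝ) 1 := fun κ hκ hh =>
    ⟨by linarith, by linarith [hκ.2]⟩
  refine ⟨fun κ s z => if κ ≤ 1 / 2 then P (2 * κ) s z else P' (2 * κ - 1) s z,
    ?_, ?_, ?_, ?_, ?_, ?_⟩
  · refine cont_glue (l := fun z : ℝ × ℝ × E => z.1) (by fun_prop) (1 / 2) ?_ ?_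
    · have hc : ContinuousOn (fun z : ℝ × ℝ × E => ((2 * z.1, z.2.1, z.2.2) : ℝ × ℝ × E))
          {z | z ∈ Icc (0 : ℝ) 1 ×ˢ (Icc (0 : ℝ) 1 ×ˢ Z) ∧ z.1 ≤ 1 / 2} := by fun_prop
      refine (h1.comp hc fun z hz => ⟨hl _ hz.1.1 hz.2, hz.1.2⟩).congr ?_
      intro z hz
      simp only [if_pos hz.2, Function.comp]
    · have hc : ContinuousOn (fun z : ℝ × ℝ × E => ((2 * z.1 - 1, z.2.1, z.2.2) : ℝ × ℝ × E))
          {z | z ∈ Icc (0 : ℝ) 1 ×ˢ (Icc (0 : ℝ) 1 ×ˢ Z) ∧ 1 / 2 ≤ z.1} := by fun_prop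
      refine (h1'.comp hc fun z hz => ⟨hr _ hz.1.1 hz.2, hz.1.2⟩).congr ?_
      intro z hz
      rcases eq_or_lt_of_le hz.2 with h7 | h7
      · simp only [← h7, le_refl, if_true, Function.comp]
        rw [show (2 : ℝ) * (1 / 2) = 1 by norm_num, sub_self, h6 _ hz.1.2.1 _ hz.1.2.2,
          h5' _ hz.1.2.1 _ hz.1.2.2]
      · simp only [if_neg (not_le.2 h7), Function.comp]
  · intro κ hκ s hs z hz
    by_cases h7 : κ ≤ 1 / 2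
    · simp only [if_pos h7]
      exact h2 _ (hl κ hκ h7) s hs hz
    · simp only [if_neg h7]
      exact h2' _ (hr κ hκ (not_le.1 h7).le) s hs hz
  · intro κ hκ z hz
    by_cases h7 : κ ≤ 1 / 2
    · simp only [if_pos h7]
      exact h3 _ (hl κ hκ h7) hz
    · simp only [if_neg h7]
      exact h3' _ (hr κ hκ (not_le.1 h7).le) hz
  · intro κ hκ z hz
    by_cases h7 : κ ≤ 1 / 2
    · simp only [if_pos h7]
      exact h4 _ (hl κ hκ h7) z hz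
    · simp only [if_neg h7]
      exact h4' _ (hr κ hκ (not_le.1 h7).le) z hz
  · intro s hs z hz
    have h7 : (0 : ℝ) ≤ 1 / 2 := by norm_num
    simp only [if_pos h7, mul_zero]
    exact h5 s hs z hz
  · intro s hs z hz
    have h7 : ¬(1 : ℝ) ≤ 1 / 2 := by norm_num
    simp only [if_neg h7]
    rw [show (2 : ℝ) * 1 - 1 = 1 by norm_num]
    exact h6' s hs z hz

/-- from the constant path to `K` -/
private theorem GlueP_a {A Z : Set E} (hZ : Z ⊆ A) {K : ℝ → E → E}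
    (hK : ContinuousOn (fun z : ℝ × E => K z.1 z.2) (Icc 0 1 ×ˢ Z))
    (hK1 : ∀ s ∈ Icc (0 : ℝ) 1, MapsTo (K s) Z Z) (hK2 : ∀ a ∈ Z, K 0 a = a) :
    GlueP_Fam A Z (fun _ z => z) K := by
  have hm : ∀ a ∈ Icc (0 : ℝ) 1, ∀ b ∈ Icc (0 : ℝ) 1, a * b ∈ Icc (0 : ℝ) 1 := fun a ha b hb =>
    ⟨mul_nonneg ha.1 hb.1, mul_le_one₀ ha.2 hb.1 hb.2⟩
  refine ⟨fun ρ s z => K (ρ * s) z, ?_, ?_, ?_, ?_, ?_, ?_⟩
  · have hc : ContinuousOn (fun z : ℝ × ℝ × E => ((z.1 * z.2.1, z.2.2) : ℝ × E))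
        (Icc 0 1 ×ˢ (Icc 0 1 ×ˢ Z)) := by fun_prop
    exact hK.comp hc fun z hz => ⟨hm _ hz.1 _ hz.2.1, hz.2.2⟩
  · intro ρ hρ s hs z hz
    exact hZ (hK1 _ (hm ρ hρ s hs) hz)
  · intro ρ hρ z hz
    exact hK1 _ (hm ρ hρ 1 ⟨zero_le_one, le_rfl⟩) hz
  · intro ρ hρ z hz
    simp only [mul_zero]
    exact hK2 z hz
  · intro s hs z hz
    simp only [zero_mul]
    exact hK2 z hz
  · intro s hs z hz
    simp only [one_mul]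

/-- from `H` to `K` followed by `H` -/
private theorem GlueP_d {A Z : Set E} (hZ : Z ⊆ A) {j : E → E} (hj : MapC A Z j)
    {K H : ℝ → E → E}
    (hK : ContinuousOn (fun z : ℝ × E => K z.1 z.2) (Icc 0 1 ×ˢ Z))
    (hK1 : ∀ s ∈ Icc (0 : ℝ) 1, MapsTo (K s) Z Z) (hK2 : ∀ a ∈ Z, K 0 a = a)
    (hH : ContinuousOn (fun z : ℝ × E => H z.1 z.2) (Icc 0 1 ×ˢ A))
    (hH1 : ∀ s ∈ Icc (0 : ℝ) 1, MapsTo (H s) A A) (hH2 : ∀ a ∈ A, H 0 a = a)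
    (hH3 : ∀ a ∈ A, H 1 a = j a) :
    GlueP_Fam A Z H (fun s z => H (max 0 (s * (1 + 1) - 1)) (K (min (s * (1 + 1)) 1) z)) := by
  have hm1 : ∀ ρ ∈ Icc (0 : ℝ) 1, ∀ s ∈ Icc (0 : ℝ) 1,
      max 0 (s * (1 + ρ) - ρ) ∈ Icc (0 : ℝ) 1 := by
    intro ρ hρ s hs
    refine ⟨le_max_left _ _, max_le zero_le_one ?_⟩
    nlinarith [hρ.1, hρ.2, hs.1, hs.2]
  have hm2 : ∀ ρ ∈ Icc (0 : ℝ) 1, ∀ s ∈ Icc (0 : ℝ) 1,
      min (s * (1 + ρ)) ρ ∈ Icc (0 : ℝ) 1 := by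
    intro ρ hρ s hs
    refine ⟨le_min ?_ hρ.1, (min_le_right _ _).trans hρ.2⟩
    exact mul_nonneg hs.1 (by linarith [hρ.1])
  refine ⟨fun ρ s z => H (max 0 (s * (1 + ρ) - ρ)) (K (min (s * (1 + ρ)) ρ) z),
    ?_, ?_, ?_, ?_, ?_, ?_⟩
  · have hc : ContinuousOn (fun z : ℝ × ℝ × E =>
        ((min (z.2.1 * (1 + z.1)) z.1, z.2.2) : ℝ × E)) (Icc 0 1 ×ˢ (Icc 0 1 ×ˢ Z)) := by
      fun_prop
    have hc2 : ContinuousOn (fun z : ℝ × ℝ × E => K (min (z.2.1 * (1 + z.1)) z.1) z.2.2)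
        (Icc 0 1 ×ˢ (Icc 0 1 ×ˢ Z)) :=
      hK.comp hc fun z hz => ⟨hm2 _ hz.1 _ hz.2.1, hz.2.2⟩
    have hc3 : ContinuousOn (fun z : ℝ × ℝ × E => max 0 (z.2.1 * (1 + z.1) - z.1))
        (Icc 0 1 ×ˢ (Icc 0 1 ×ˢ Z)) := by fun_prop
    exact hH.comp (hc3.prodMk hc2) fun z hz =>
      ⟨hm1 _ hz.1 _ hz.2.1, hZ (hK1 _ (hm2 _ hz.1 _ hz.2.1) hz.2.2)⟩
  · intro ρ hρ s hs z hz
    exact hH1 _ (hm1 ρ hρ s hs) (hZ (hK1 _ (hm2 ρ hρ s hs) hz))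
  · intro ρ hρ z hz
    have e1 : max 0 (1 * (1 + ρ) - ρ) = (1 : ℝ) := by
      rw [show 1 * (1 + ρ) - ρ = 1 by ring]
      exact max_eq_right zero_le_one
    simp only [e1]
    have h7 : K (min (1 * (1 + ρ)) ρ) z ∈ A :=
      hZ (hK1 _ (hm2 ρ hρ 1 ⟨zero_le_one, le_rfl⟩) hz)
    rw [hH3 _ h7]
    exact hj.2 h7
  · intro ρ hρ z hz
    have e1 : max 0 (0 * (1 + ρ) - ρ) = (0 : ℝ) := by
      rw [zero_mul, zero_sub]
      exact max_eq_left (by linarith [hρ.1])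
    have e2 : min (0 * (1 + ρ)) ρ = (0 : ℝ) := by
      rw [zero_mul]
      exact min_eq_left hρ.1
    simp only [e1, e2]
    rw [hK2 z hz, hH2 z (hZ hz)]
  · intro s hs z hz
    have e1 : max 0 (s * (1 + 0) - 0) = s := by
      rw [add_zero, mul_one, sub_zero]
      exact max_eq_right hs.1
    have e2 : min (s * (1 + 0)) 0 = (0 : ℝ) := by
      rw [add_zero, mul_one]
      exact min_eq_right hs.1
    simp only [e1, e2]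
    rw [hK2 z hz]
  · intro s hs z hz
    rfl

/-- from `K`, `H` reversed, `H` to `K`, `H` -/
private theorem GlueP_c {A Z : Set E} (hZ : Z ⊆ A) {j : E → E} (hj : MapC A Z j)
    {K H : ℝ → E → E}
    (hK : ContinuousOn (fun z : ℝ × E => K z.1 z.2) (Icc 0 1 ×ˢ Z))
    (hK1 : ∀ s ∈ Icc (0 : ℝ) 1, MapsTo (K s) Z Z) (hK2 : ∀ a ∈ Z, K 0 a = a)
    (hK3 : ∀ a ∈ Z, K 1 a = j a)
    (hH : ContinuousOn (fun z : ℝ × E => H z.1 z.2) (Icc 0 1 ×ˢ A))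
    (hH1 : ∀ s ∈ Icc (0 : ℝ) 1, MapsTo (H s) A A) (hH2 : ∀ a ∈ A, H 0 a = a)
    (hH3 : ∀ a ∈ A, H 1 a = j a) :
    GlueP_Fam A Z
      (fun s z => if s * 3 ≤ 1 then K (s * 3) z else H (max (2 - s * 3) (s * 3 - 2)) z)
      (fun s z => H (max 0 (s * (1 + 1) - 1)) (K (min (s * (1 + 1)) 1) z)) := by
  have hm0 : ∀ ρ ∈ Icc (0 : ℝ) 1, ∀ s ∈ Icc (0 : ℝ) 1, s * (3 - ρ) ≤ 1 →
      s * (3 - ρ) ∈ Icc (0 : ℝ) 1 := by
    intro ρ hρ s hs h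
    exact ⟨mul_nonneg hs.1 (by linarith [hρ.2]), h⟩
  have hm1 : ∀ ρ ∈ Icc (0 : ℝ) 1, ∀ s ∈ Icc (0 : ℝ) 1,
      max 0 (s * (3 - ρ) - 2 + ρ) ∈ Icc (0 : ℝ) 1 := by
    intro ρ hρ s hs
    refine ⟨le_max_left _ _, max_le zero_le_one ?_⟩
    nlinarith [hρ.1, hρ.2, hs.1, hs.2]
  have hm2 : ∀ ρ ∈ Icc (0 : ℝ) 1, ∀ s ∈ Icc (0 : ℝ) 1, 1 ≤ s * (3 - ρ) →
      max ρ (2 - s * (3 - ρ)) ∈ Icc (0 : ℝ) 1 := by
    intro ρ hρ s hs h
    exact ⟨hρ.1.trans (le_max_left _ _), max_le hρ.2 (by linarith)⟩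
  refine ⟨fun ρ s z => if s * (3 - ρ) ≤ 1 then K (s * (3 - ρ)) z else
    H (max 0 (s * (3 - ρ) - 2 + ρ)) (H (max ρ (2 - s * (3 - ρ))) z), ?_, ?_, ?_, ?_, ?_, ?_⟩
  · refine cont_glue (l := fun z : ℝ × ℝ × E => z.2.1 * (3 - z.1)) (by fun_prop) 1 ?_ ?_
    · have hc : ContinuousOn (fun z : ℝ × ℝ × E => ((z.2.1 * (3 - z.1), z.2.2) : ℝ × E))
          {z | z ∈ Icc (0 : ℝ) 1 ×ˢ (Icc (0 : ℝ) 1 ×ˢ Z) ∧ z.2.1 * (3 - z.1) ≤ 1} := by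
        fun_prop
      refine (hK.comp hc fun z hz => ⟨hm0 _ hz.1.1 _ hz.1.2.1 hz.2, hz.1.2.2⟩).congr ?_
      intro z hz
      simp only [if_pos hz.2, Function.comp]
    · have hc : ContinuousOn (fun z : ℝ × ℝ × E =>
          ((max z.1 (2 - z.2.1 * (3 - z.1)), z.2.2) : ℝ × E))
          {z | z ∈ Icc (0 : ℝ) 1 ×ˢ (Icc (0 : ℝ) 1 ×ˢ Z) ∧ 1 ≤ z.2.1 * (3 - z.1)} := by
        fun_prop
      have hc2 : ContinuousOn (fun z : ℝ × ℝ × E => H (max z.1 (2 - z.2.1 * (3 - z.1))) z.2.2)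
          {z | z ∈ Icc (0 : ℝ) 1 ×ˢ (Icc (0 : ℝ) 1 ×ˢ Z) ∧ 1 ≤ z.2.1 * (3 - z.1)} :=
        hH.comp hc fun z hz => ⟨hm2 _ hz.1.1 _ hz.1.2.1 hz.2, hZ hz.1.2.2⟩
      have hc3 : ContinuousOn (fun z : ℝ × ℝ × E => max 0 (z.2.1 * (3 - z.1) - 2 + z.1))
          {z | z ∈ Icc (0 : ℝ) 1 ×ˢ (Icc (0 : ℝ) 1 ×ˢ Z) ∧ 1 ≤ z.2.1 * (3 - z.1)} := by
        fun_prop
      refine (hH.comp (hc3.prodMk hc2) fun z hz =>
        ⟨hm1 _ hz.1.1 _ hz.1.2.1, hH1 _ (hm2 _ hz.1.1 _ hz.1.2.1 hz.2) (hZ hz.1.2.2)⟩).congr ?_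
      intro z hz
      obtain ⟨ρ, s, w⟩ := z
      obtain ⟨⟨hρ, hs, hw⟩, h7⟩ := hz
      simp only at hρ hs hw h7
      rcases eq_or_lt_of_le h7 with h8 | h8
      · simp only [← h8, le_refl, if_true, Function.comp]
        have e1 : max 0 (1 - 2 + ρ) = (0 : ℝ) := max_eq_left (by linarith [hρ.2])
        have e2 : max ρ (2 - 1) = (1 : ℝ) := by
          rw [show (2 : ℝ) - 1 = 1 by norm_num]
          exact max_eq_right hρ.2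
        rw [e1, e2, hK3 w hw, hH3 w (hZ hw), hH2 _ (hZ (hj.2 (hZ hw)))]
      · simp only [if_neg (not_le.2 h8), Function.comp]
  · intro ρ hρ s hs z hz
    by_cases h7 : s * (3 - ρ) ≤ 1
    · simp only [if_pos h7]
      exact hZ (hK1 _ (hm0 ρ hρ s hs h7) hz)
    · simp only [if_neg h7]
      exact hH1 _ (hm1 ρ hρ s hs) (hH1 _ (hm2 ρ hρ s hs (not_le.1 h7).le) (hZ hz))
  · intro ρ hρ z hz
    have h7 : ¬1 * (3 - ρ) ≤ 1 := by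
      rw [not_le, one_mul]
      linarith [hρ.2]
    simp only [if_neg h7]
    have e1 : max 0 (1 * (3 - ρ) - 2 + ρ) = (1 : ℝ) := by
      rw [show 1 * (3 - ρ) - 2 + ρ = 1 by ring]
      exact max_eq_right zero_le_one
    rw [e1]
    have h8 : H (max ρ (2 - 1 * (3 - ρ))) z ∈ A :=
      hH1 _ (hm2 ρ hρ 1 ⟨zero_le_one, le_rfl⟩ (not_le.1 h7).le) (hZ hz)
    rw [hH3 _ h8]
    exact hj.2 h8
  · intro ρ hρ z hz
    have h7 : 0 * (3 - ρ) ≤ 1 := by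
      rw [zero_mul]
      exact zero_le_one
    simp only [if_pos h7]
    rw [zero_mul]
    exact hK2 z hz
  · intro s hs z hz
    simp only [sub_zero, add_zero]
    by_cases h7 : s * 3 ≤ 1
    · simp only [if_pos h7]
    · simp only [if_neg h7]
      rcases le_total (s * 3) 2 with h8 | h8
      · have e1 : max 0 (s * 3 - 2) = (0 : ℝ) := max_eq_left (by linarith)
        have e2 : max 0 (2 - s * 3) = 2 - s * 3 := max_eq_right (by linarith)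
        have e3 : max (2 - s * 3) (s * 3 - 2) = 2 - s * 3 := max_eq_left (by linarith)
        rw [e1, e2, e3, hH2]
        exact hH1 _ ⟨by linarith, by linarith⟩ (hZ hz)
      · have e1 : max 0 (s * 3 - 2) = s * 3 - 2 := max_eq_right (by linarith)
        have e2 : max 0 (2 - s * 3) = (0 : ℝ) := max_eq_left (by linarith)
        have e3 : max (2 - s * 3) (s * 3 - 2) = s * 3 - 2 := max_eq_right (by linarith)
        rw [e1, e2, e3, hH2 _ (hZ hz)]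
  · intro s hs z hz
    have e0 : s * (3 - 1) = s * (1 + 1) := by ring
    simp only [e0]
    by_cases h7 : s * (1 + 1) ≤ 1
    · simp only [if_pos h7]
      have e1 : max 0 (s * (1 + 1) - 1) = (0 : ℝ) := max_eq_left (by linarith)
      have e2 : min (s * (1 + 1)) 1 = s * (1 + 1) := min_eq_left h7
      rw [e1, e2, hH2]
      exact hZ (hK1 _ ⟨mul_nonneg hs.1 (by norm_num), h7⟩ hz)
    · simp only [if_neg h7]
      rw [not_le] at h7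
      have e1 : s * (1 + 1) - 2 + 1 = s * (1 + 1) - 1 := by ring
      have e2 : min (s * (1 + 1)) 1 = (1 : ℝ) := min_eq_right h7.le
      have e3 : max 1 (2 - s * (1 + 1)) = (1 : ℝ) := max_eq_left (by linarith)
      rw [e1, e2, e3, hK3 z hz, hH3 z (hZ hz)]

/-- from `K`, `H` reversed, `H` to `K` -/
private theorem GlueP_b {A Z : Set E} (hZ : Z ⊆ A) {j : E → E} (hj : MapC A Z j)
    {K H : ℝ → E → E}
    (hK : ContinuousOn (fun z : ℝ × E => K z.1 z.2) (Icc 0 1 ×ˢ Z))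
    (hK1 : ∀ s ∈ Icc (0 : ℝ) 1, MapsTo (K s) Z Z) (hK2 : ∀ a ∈ Z, K 0 a = a)
    (hK3 : ∀ a ∈ Z, K 1 a = j a)
    (hH : ContinuousOn (fun z : ℝ × E => H z.1 z.2) (Icc 0 1 ×ˢ A))
    (hH1 : ∀ s ∈ Icc (0 : ℝ) 1, MapsTo (H s) A A)
    (hH3 : ∀ a ∈ A, H 1 a = j a) :
    GlueP_Fam A Z
      (fun s z => if s * 3 ≤ 1 then K (s * 3) z else H (max (2 - s * 3) (s * 3 - 2)) z) K := by
  have hm0 : ∀ ρ ∈ Icc (0 : ℝ) 1, ∀ s ∈ Icc (0 : ℝ) 1, s * (3 - 2 * ρ) ≤ 1 →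
      s * (3 - 2 * ρ) ∈ Icc (0 : ℝ) 1 := by
    intro ρ hρ s hs h
    exact ⟨mul_nonneg hs.1 (by linarith [hρ.2]), h⟩
  have hm1 : ∀ ρ ∈ Icc (0 : ℝ) 1, ∀ s ∈ Icc (0 : ℝ) 1, 1 ≤ s * (3 - 2 * ρ) →
      max (2 - s * (3 - 2 * ρ)) (s * (3 - 2 * ρ) - 2 + 2 * ρ) ∈ Icc (0 : ℝ) 1 := by
    intro ρ hρ s hs h
    constructor
    · rcases le_total (s * (3 - 2 * ρ)) 2 with h8 | h8
      · exact (by linarith : (0 : ℝ) ≤ 2 - s * (3 - 2 * ρ)).trans (le_max_left _ _)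
      · exact (by linarith [hρ.1] : (0 : ℝ) ≤ s * (3 - 2 * ρ) - 2 + 2 * ρ).trans
          (le_max_right _ _)
    · refine max_le (by linarith) ?_
      nlinarith [hρ.1, hρ.2, hs.1, hs.2]
  refine ⟨fun ρ s z => if s * (3 - 2 * ρ) ≤ 1 then K (s * (3 - 2 * ρ)) z else
    H (max (2 - s * (3 - 2 * ρ)) (s * (3 - 2 * ρ) - 2 + 2 * ρ)) z, ?_, ?_, ?_, ?_, ?_, ?_⟩
  · refine cont_glue (l := fun z : ℝ × ℝ × E => z.2.1 * (3 - 2 * z.1)) (by fun_prop) 1 ?_ ?_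
    · have hc : ContinuousOn (fun z : ℝ × ℝ × E => ((z.2.1 * (3 - 2 * z.1), z.2.2) : ℝ × E))
          {z | z ∈ Icc (0 : ℝ) 1 ×ˢ (Icc (0 : ℝ) 1 ×ˢ Z) ∧ z.2.1 * (3 - 2 * z.1) ≤ 1} := by
        fun_prop
      refine (hK.comp hc fun z hz => ⟨hm0 _ hz.1.1 _ hz.1.2.1 hz.2, hz.1.2.2⟩).congr ?_
      intro z hz
      simp only [if_pos hz.2, Function.comp]
    · have hc : ContinuousOn (fun z : ℝ × ℝ × E =>
          ((max (2 - z.2.1 * (3 - 2 * z.1)) (z.2.1 * (3 - 2 * z.1) - 2 + 2 * z.1), z.2.2) :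
            ℝ × E))
          {z | z ∈ Icc (0 : ℝ) 1 ×ˢ (Icc (0 : ℝ) 1 ×ˢ Z) ∧ 1 ≤ z.2.1 * (3 - 2 * z.1)} := by
        fun_prop
      refine (hH.comp hc fun z hz => ⟨hm1 _ hz.1.1 _ hz.1.2.1 hz.2, hZ hz.1.2.2⟩).congr ?_
      intro z hz
      obtain ⟨ρ, s, w⟩ := z
      obtain ⟨⟨hρ, hs, hw⟩, h7⟩ := hz
      simp only at hρ hs hw h7
      rcases eq_or_lt_of_le h7 with h8 | h8
      · simp only [← h8, le_refl, if_true, Function.comp]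
        have e1 : max (2 - 1) (1 - 2 + 2 * ρ) = (1 : ℝ) := by
          rw [show (2 : ℝ) - 1 = 1 by norm_num]
          exact max_eq_left (by linarith [hρ.2])
        rw [e1, hK3 w hw, hH3 w (hZ hw)]
      · simp only [if_neg (not_le.2 h8), Function.comp]
  · intro ρ hρ s hs z hz
    by_cases h7 : s * (3 - 2 * ρ) ≤ 1
    · simp only [if_pos h7]
      exact hZ (hK1 _ (hm0 ρ hρ s hs h7) hz)
    · simp only [if_neg h7]
      exact hH1 _ (hm1 ρ hρ s hs (not_le.1 h7).le) (hZ hz)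
  · intro ρ hρ z hz
    by_cases h7 : 1 * (3 - 2 * ρ) ≤ 1
    · simp only [if_pos h7]
      exact hK1 _ (hm0 ρ hρ 1 ⟨zero_le_one, le_rfl⟩ h7) hz
    · simp only [if_neg h7]
      have e1 : max (2 - 1 * (3 - 2 * ρ)) (1 * (3 - 2 * ρ) - 2 + 2 * ρ) = (1 : ℝ) := by
        rw [show 1 * (3 - 2 * ρ) - 2 + 2 * ρ = 1 by ring]
        exact max_eq_right (by linarith [hρ.2])
      rw [e1, hH3 z (hZ hz)]
      exact hj.2 (hZ hz)
  · intro ρ hρ z hz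
    have h7 : 0 * (3 - 2 * ρ) ≤ 1 := by
      rw [zero_mul]
      exact zero_le_one
    simp only [if_pos h7]
    rw [zero_mul]
    exact hK2 z hz
  · intro s hs z hz
    simp only [mul_zero, sub_zero, add_zero]
  · intro s hs z hz
    have e0 : s * (3 - 2 * 1) = s := by ring
    simp only [e0]
    rw [if_pos hs.2]

/-- The families of paths used in the gluing lemma: `Z ⊆ A`, `K 0 = id`, `K 1 = j` is a homotopy in `Z`,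
`H 0 = id`, `H 1 = j` a homotopy in `A`. There is a continuous family `P κ z` (`κ ∈ [0, 1]`, `z ∈ Z`) of paths
in `A` which start at `z` and end in `Z`, from the constant path (`κ = 0`) to `s ↦ H s z` (`κ = 1`).

Proof. Four families, parameter `ρ ∈ [0, 1]` (each one a homotopy `Hty (Icc 0 1 ×ˢ Z) A` of maps
`(s, z) ↦ ..` with the side conditions; reparametrise `ρ`, glue with `cont_glue` in `κ` at `1/4, 1/2, 3/4`):
(a) `(ρ, s) ↦ K (ρ s) z` from const to `K s z`.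
(b) `σ = s (3 - 2 ρ)`: `if σ ≤ 1 then K σ z else H (max (2 - σ) (σ - 2 + 2 ρ)) z`; at `ρ = 1` it is `K s z`,
the end point (`s = 1`, `σ = 3 - 2 ρ`) is `H 1 z = j z` (for `ρ < 1`) resp. `K 1 z = j z`.
(c) `σ = s (3 - ρ)`: `if σ ≤ 1 then K σ z else H (max 0 (σ - 2 + ρ)) (H (max ρ (2 - σ)) z)`; at `ρ = 0` it is (b) at
`ρ = 0` (there: `H (max (2 - σ) (σ - 2)) z`; `H 0 = id`); the end point is `H 1 (H ρ z) = j (H ρ z) ∈ Z`.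
(d) `σ = s (1 + ρ)`: `H (max 0 (σ - ρ)) (K (min σ ρ) z)`; at `ρ = 1` it is (c) at `ρ = 1`; at `ρ = 0` it is `H s z`; the end
point is `H 1 (K ρ z) = j (K ρ z) ∈ Z`.
(In (b), (c) the two branches agree at `σ = 1` because `H 1 z = j z = K 1 z`.) -/
theorem glue_paths {A Z : Set E} (hZ : Z ⊆ A) {j : E → E} (hj : MapC A Z j) {K H : ℝ → E → E}
    (hK : ContinuousOn (fun z : ℝ × E => K z.1 z.2) (Icc 0 1 ×ˢ Z))
    (hK1 : ∀ s ∈ Icc (0 : ℝ) 1, MapsTo (K s) Z Z) (hK2 : ∀ a ∈ Z, K 0 a = a)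
    (hK3 : ∀ a ∈ Z, K 1 a = j a)
    (hH : ContinuousOn (fun z : ℝ × E => H z.1 z.2) (Icc 0 1 ×ˢ A))
    (hH1 : ∀ s ∈ Icc (0 : ℝ) 1, MapsTo (H s) A A) (hH2 : ∀ a ∈ A, H 0 a = a)
    (hH3 : ∀ a ∈ A, H 1 a = j a) :
    ∃ P : ℝ → ℝ → E → E,
      ContinuousOn (fun z : ℝ × ℝ × E => P z.1 z.2.1 z.2.2) (Icc 0 1 ×ˢ (Icc 0 1 ×ˢ Z)) ∧
      (∀ κ ∈ Icc (0 : ℝ) 1, ∀ s ∈ Icc (0 : ℝ) 1, MapsTo (P κ s) Z A) ∧
      (∀ κ ∈ Icc (0 : ℝ) 1, MapsTo (P κ 1) Z Z) ∧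
      (∀ κ ∈ Icc (0 : ℝ) 1, ∀ z ∈ Z, P κ 0 z = z) ∧
      (∀ s ∈ Icc (0 : ℝ) 1, ∀ z ∈ Z, P 0 s z = z) ∧
      ∀ s ∈ Icc (0 : ℝ) 1, ∀ z ∈ Z, P 1 s z = H s z := by
  have ha := GlueP_a hZ hK hK1 hK2
  have hb := GlueP_b hZ hj hK hK1 hK2 hK3 hH hH1 hH3
  have hc := GlueP_c hZ hj hK hK1 hK2 hK3 hH hH1 hH2 hH3
  have hd := GlueP_d hZ hj hK hK1 hK2 hH hH1 hH2 hH3
  exact GlueP_trans (GlueP_trans (GlueP_trans ha (GlueP_symm hb)) hc) (GlueP_symm hd)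

end Pool.Agent.MP_c984cf_ag_N5
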