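import Pool.Agent.Lib.MP_c984cf_ag_N5.KDefs

/-!
# Contractible hypersurfaces of log-general type in dimension five: the five forms
-/

set_option autoImplicit false

noncomputable section

namespace Pool.Agent.MP_c984cf_ag_N5

open MvPolynomial Pool.Agent.MP_c984cf_ag

/-- the numerators -/
def nk : Fin 5 → K4 :=
  ![gk 0 * gk 1 ^ 2 * gk 3, gk 3 * tk, gk 0 * gk 1 * ck, gk 0 * gk 1 ^ 2 * gk 3 * m1,
    gk 0 * gk 1 ^ 2 * gk 3 * m2]

/-- the five log pluricanonical forms (`m = 3`) -/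
def hk (i : Fin 5) : K4 := nk i / qk ^ 3

end Pool.Agent.MP_c984cf_ag_N5
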