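import Pool.Agent.Lib.MP_c984cf_ag_N5.HDefs
import Pool.Agent.Lib.MP_c984cf_ag_N5.DLz

/-!
# Contractible hypersurfaces of log-general type in dimension five: Jacobian of the quotients
-/

set_option autoImplicit false

noncomputable section

namespace Pool.Agent.MP_c984cf_ag_N5

open MvPolynomial Pool.Agent.MP_c984cf_ag

variable {D : Fin 4 → Derivation ℂ K4 K4} (hD : ∀ i j, D j (gk i) = if i = j then 1 else 0)

/-- `hk 1 / hk 0 = 1 / x`, `hk 2 / hk 0 = 1 / y'`, `hk 3 / hk 0 = m1`, `hk 4 / hk 0 = m2`. -/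
theorem hk_div : (fun i : Fin 4 => hk i.succ / hk 0) = ![xk⁻¹, yk'⁻¹, m1, m2] := by
  have hq := qk_ne
  have h0 := gk_ne 0
  have h1 := gk_ne 1
  have h3 := gk_ne 3
  have z0 : zk 0 = gk 0 * gk 1 ^ 2 := rfl
  have z3 : zk 3 = gk 1 * gk 3 := rfl
  funext i
  fin_cases i
  · show (gk 3 * tk / qk ^ 3) / (gk 0 * gk 1 ^ 2 * gk 3 / qk ^ 3) = xk⁻¹
    unfold xk
    rw [z0]
    field_simp
  · show (gk 0 * gk 1 * ck / qk ^ 3) / (gk 0 * gk 1 ^ 2 * gk 3 / qk ^ 3) = yk'⁻¹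
    unfold yk'
    rw [z3]
    field_simp
  · show (gk 0 * gk 1 ^ 2 * gk 3 * m1 / qk ^ 3) / (gk 0 * gk 1 ^ 2 * gk 3 / qk ^ 3) = m1
    field_simp
  · show (gk 0 * gk 1 ^ 2 * gk 3 * m2 / qk ^ 3) / (gk 0 * gk 1 ^ 2 * gk 3 / qk ^ 3) = m2
    field_simp

include hD in
/-- Proof. `jac_lin` with the rows `(-xk', xk', 0, 0)`, `(0, 0, yk, -yk)`, `(2 xk, 2 xk', yk, yk')`, `(xk, xk', 2 yk, 2 yk')`
(`lin_inv`, `lin_x`, `lin_y'`, `lin_m1`, `lin_m2`); the determinant is `3 xk' yk (xk + xk') (yk + yk') = 3 xk' yk ≠ 0`. -/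
theorem jac_hk : jac D (fun i : Fin 4 => hk i.succ / hk 0) ≠ 0 := by
  rw [hk_div]
  obtain ⟨M, hM⟩ : ∃ M : Matrix (Fin 4) (Fin 4) K4, M = Matrix.of
      ![![-xk', xk', 0, 0], ![0, 0, yk, -yk], ![2 * xk, 2 * xk', yk, yk'],
        ![xk, xk', 2 * yk, 2 * yk']] := ⟨_, rfl⟩
  have hlin : ∀ i, lin D ((![xk⁻¹, yk'⁻¹, m1, m2] : Fin 4 → K4) i) (M i) := by
    intro i
    rw [hM]
    fin_cases i
    · have h1 := lin_inv (lin_x (D := D))
      have h2 : (-![xk', -xk', 0, 0] : Fin 4 → K4) = ![-xk', xk', 0, 0] := by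
        funext j
        fin_cases j <;> simp
      rw [h2] at h1
      exact h1
    · have h1 := lin_inv (lin_y' (D := D))
      have h2 : (-![0, 0, -yk, yk] : Fin 4 → K4) = ![0, 0, yk, -yk] := by
        funext j
        fin_cases j <;> simp
      rw [h2] at h1
      exact h1
    · exact lin_m1
    · exact lin_m2
  have hdet : M.det = 3 * xk' * yk * ((xk + xk') * (yk + yk')) := by
    rw [hM, Matrix.det_succ_row_zero]
    simp [Fin.sum_univ_succ, Matrix.det_fin_three, Fin.succAbove]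
    ring
  have h3 : (3 : K4) ≠ 0 := by
    have h4 : algebraMap ℂ K4 3 = 3 := map_ofNat _ 3
    rw [← h4, Ne, FaithfulSMul.algebraMap_eq_zero_iff]
    norm_num
  rw [xk_add, yk_add, mul_one, mul_one] at hdet
  have h5 := jac_lin hD hlin
  intro h6
  rw [h6, zero_div, hdet] at h5
  exact neg_ne_zero.2 (mul_ne_zero (mul_ne_zero (mul_ne_zero h3 xk'_ne) yk_ne)
    (inv_ne_zero pk_ne)) h5.symm

end Pool.Agent.MP_c984cf_ag_N5
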