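import Pool.Agent.Lib.MP_c984cf_ag_N5.Frame

/-!
# Contractible hypersurfaces of log-general type in dimension five: the monomials and their logarithmic
derivatives
-/

set_option autoImplicit false

noncomputable section

namespace Pool.Agent.MP_c984cf_ag_N5

open MvPolynomial Pool.Agent.MP_c984cf_ag

/-- `X₁ = g₁ g₂², X₂ = g₃ g₄³, Y₁ = g₁ g₃, Y₂ = g₂ g₄` -/
def zk : Fin 4 → K4 :=
  ![gk 0 * gk 1 ^ 2, gk 2 * gk 3 ^ 3, gk 0 * gk 2, gk 1 * gk 3]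

/-- `τ = X₁ + X₂` -/
def tk : K4 := zk 0 + zk 1

/-- `c = Y₁ + Y₂` -/
def ck : K4 := zk 2 + zk 3

/-- `x = X₁ / τ` -/
def xk : K4 := zk 0 / tk

/-- `1 - x` -/
def xk' : K4 := zk 1 / tk

/-- `y = Y₁ / c` -/
def yk : K4 := zk 2 / ck

/-- `1 - y` -/
def yk' : K4 := zk 3 / ck

/-- `M₁ = τ² c` -/
def m1 : K4 := tk ^ 2 * ck

/-- `M₂ = τ c²` -/
def m2 : K4 := tk * ck ^ 2

/-- `g₁ g₂ g₃ g₄` -/
def pk : K4 := gk 0 * gk 1 * gk 2 * gk 3

theorem gk_ne (i : Fin 4) : gk i ≠ 0 := by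
  unfold gk
  rw [Ne, FaithfulSMul.algebraMap_eq_zero_iff]
  exact X_ne_zero i

theorem zk_ne (i : Fin 4) : zk i ≠ 0 := by
  have h := gk_ne
  fin_cases i
  · exact mul_ne_zero (h 0) (pow_ne_zero _ (h 1))
  · exact mul_ne_zero (h 2) (pow_ne_zero _ (h 3))
  · exact mul_ne_zero (h 0) (h 2)
  · exact mul_ne_zero (h 1) (h 3)

theorem ne_of_eval {F : P4} (x : Fin 4 → ℂ) (h : eval x F ≠ 0) : algebraMap P4 K4 F ≠ 0 := by
  rw [Ne, FaithfulSMul.algebraMap_eq_zero_iff]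
  intro h1
  rw [h1, map_zero] at h
  exact h rfl

theorem tk_ne : tk ≠ 0 := by
  have h : tk = algebraMap P4 K4 (X 0 * X 1 ^ 2 + X 2 * X 3 ^ 3) := by
    simp [tk, zk, gk]
  rw [h]
  refine ne_of_eval ![1, 1, 0, 0] ?_
  simp

theorem ck_ne : ck ≠ 0 := by
  have h : ck = algebraMap P4 K4 (X 0 * X 2 + X 1 * X 3) := by
    simp [ck, zk, gk]
  rw [h]
  refine ne_of_eval ![0, 1, 0, 1] ?_
  simp

theorem qk_m : qk = 1 + m1 + m2 := by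
  rw [qk_eq]
  simp only [QR, qR, tauR, ccR, m1, m2, tk, ck, zk, Matrix.cons_val_zero, Matrix.cons_val_one,
    Matrix.cons_val]

theorem xk_add : xk + xk' = 1 := by
  unfold xk xk'
  rw [← add_div]
  exact div_self tk_ne

theorem yk_add : yk + yk' = 1 := by
  unfold yk yk'
  rw [← add_div]
  exact div_self ck_ne

theorem m1_ne : m1 ≠ 0 := mul_ne_zero (pow_ne_zero _ tk_ne) ck_ne

theorem m2_ne : m2 ≠ 0 := mul_ne_zero tk_ne (pow_ne_zero _ ck_ne)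

theorem pk_ne : pk ≠ 0 :=
  mul_ne_zero (mul_ne_zero (mul_ne_zero (gk_ne 0) (gk_ne 1)) (gk_ne 2)) (gk_ne 3)

theorem xk_ne : xk ≠ 0 := div_ne_zero (zk_ne 0) tk_ne

theorem xk'_ne : xk' ≠ 0 := div_ne_zero (zk_ne 1) tk_ne

theorem yk_ne : yk ≠ 0 := div_ne_zero (zk_ne 2) ck_ne

theorem yk'_ne : yk' ≠ 0 := div_ne_zero (zk_ne 3) ck_ne

end Pool.Agent.MP_c984cf_ag_N5
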