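import Pool.Agent.Lib.MP_c984cf_ag_N5.Pol

/-!
# Contractible hypersurfaces of log-general type in dimension five: the coordinate ring
-/

set_option autoImplicit false

noncomputable section

namespace Pool.Agent.MP_c984cf_ag_N5

open MvPolynomial

/-- the function field `ℂ(g₁, g₂, g₃, g₄)` -/
abbrev K4 : Type := FractionRing P4

/-- `Q (Φ g)` in `ℂ[g₁, .., g₄]` -/
def q0P : P4 := QR (X 0) (X 1) (X 2) (X 3)

/-- the coordinate functions `gᵢ` -/
def gk (i : Fin 4) : K4 := algebraMap P4 K4 (X i)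

/-- `Q (Φ g)` in `K4` -/
def qk : K4 := algebraMap P4 K4 q0P

theorem qk_eq : qk = QR (gk 0) (gk 1) (gk 2) (gk 3) := map_QR (algebraMap P4 K4) _ _ _ _

/-- evaluate at `0` -/
theorem q0P_ne : q0P ≠ 0 := by
  intro h
  have h1 := congrArg (eval (fun _ : Fin 4 => (0 : ℂ))) h
  unfold q0P at h1
  rw [map_QR (eval (fun _ : Fin 4 => (0 : ℂ)))] at h1
  simp [QR, qR, tauR, ccR] at h1

theorem qk_ne : qk ≠ 0 := by
  unfold qk
  rw [Ne, FaithfulSMul.algebraMap_eq_zero_iff]
  exact q0P_ne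

/-- `t ↦ Q`, `u ↦ g₃ / Q`, `v ↦ (g₂ - 1) / Q`, `a ↦ g₁`, `b ↦ g₄` -/
def phi : P5 →ₐ[ℂ] K4 := aeval ![qk, gk 2 / qk, (gk 1 - 1) / qk, gk 0, gk 3]

private theorem Ker_X0 : phi (X 0) = qk := by
  unfold phi
  rw [aeval_X]
  rfl

private theorem Ker_X1 : phi (X 1) = gk 2 / qk := by
  unfold phi
  rw [aeval_X]
  rfl

private theorem Ker_X2 : phi (X 2) = (gk 1 - 1) / qk := by
  unfold phi
  rw [aeval_X]
  rfl

private theorem Ker_X3 : phi (X 3) = gk 0 := by
  unfold phi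
  rw [aeval_X]
  rfl

private theorem Ker_X4 : phi (X 4) = gk 3 := by
  unfold phi
  rw [aeval_X]
  rfl

private theorem Ker_a : phi (1 + X 0 * X 2) = gk 1 := by
  rw [map_add, map_mul, map_one, Ker_X0, Ker_X2, mul_div_cancel₀ _ qk_ne]
  ring

private theorem Ker_b : phi (X 0 * X 1) = gk 2 := by
  rw [map_mul, Ker_X0, Ker_X1, mul_div_cancel₀ _ qk_ne]

theorem phi_pp : phi pp = 0 := by
  unfold pp
  have h1 : phi (QR (X 3) (1 + X 0 * X 2) (X 0 * X 1) (X 4)) =
      QR (phi (X 3)) (phi (1 + X 0 * X 2)) (phi (X 0 * X 1)) (phi (X 4)) :=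
    map_QR (phi : P5 →+* K4) _ _ _ _
  rw [map_sub, h1, Ker_X3, Ker_a, Ker_b, Ker_X4, Ker_X0, ← qk_eq, sub_self]

/-- `ℂ[g][T] → ℂ[t, u, v, a, b]`, `T ↦ t`, `g ↦ (a, 1 + t v, t u, b)` -/
def psi : Polynomial P4 →+* P5 :=
  Polynomial.eval₂RingHom
    ((aeval ![X 3, 1 + X 0 * X 2, X 0 * X 1, X 4] : P4 →ₐ[ℂ] P5) : P4 →+* P5) (X 0)

private theorem Ker_psiT : psi Polynomial.X = X 0 := by
  unfold psi
  rw [Polynomial.coe_eval₂RingHom, Polynomial.eval₂_X]

private theorem Ker_psiC (p : P4) : psi (Polynomial.C p) =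
    (aeval ![X 3, 1 + X 0 * X 2, X 0 * X 1, X 4] : P4 →ₐ[ℂ] P5) p := by
  unfold psi
  rw [Polynomial.coe_eval₂RingHom, Polynomial.eval₂_C]
  rfl

private theorem Ker_psi0 : psi (Polynomial.C (X 0)) = X 3 := by
  rw [Ker_psiC, aeval_X]
  rfl

private theorem Ker_psi1 : psi (Polynomial.C (X 1)) = 1 + X 0 * X 2 := by
  rw [Ker_psiC, aeval_X]
  rfl

private theorem Ker_psi2 : psi (Polynomial.C (X 2)) = X 0 * X 1 := by
  rw [Ker_psiC, aeval_X]
  rfl

private theorem Ker_psi3 : psi (Polynomial.C (X 3)) = X 4 := by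
  rw [Ker_psiC, aeval_X]
  rfl

private theorem Ker_psic (a : ℂ) : psi (Polynomial.C (C a)) = C a := by
  rw [Ker_psiC, aeval_C]
  rfl

/-- Proof. Induction on `F` (`MvPolynomial.induction_on`; model: `clear_denom` in Lib/MP_c984cf_ag/Hyp.lean):
`t = psi T`, `a = psi g₁`, `b = psi g₄`, `t u = psi g₃`, `t v = psi (g₂ - 1)`. -/
theorem clear (F : P5) : ∃ (N : ℕ) (G : Polynomial P4), X 0 ^ N * F = psi G := by
  induction F using MvPolynomial.induction_on with
  | C a => exact ⟨0, Polynomial.C (C a), by rw [Ker_psic, pow_zero, one_mul]⟩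
  | add a b ha hb =>
    obtain ⟨N, G, hG⟩ := ha
    obtain ⟨M, H, hH⟩ := hb
    refine ⟨N + M, Polynomial.X ^ M * G + Polynomial.X ^ N * H, ?_⟩
    rw [map_add, map_mul, map_mul, map_pow, map_pow, Ker_psiT, ← hG, ← hH]
    ring
  | mul_X a j ha =>
    obtain ⟨N, G, hG⟩ := ha
    have hj : ∃ (n : ℕ) (q : Polynomial P4), X 0 ^ n * (X j : P5) = psi q := by
      fin_cases j
      · exact ⟨0, Polynomial.X, by rw [Ker_psiT, pow_zero, one_mul]; rfl⟩
      · exact ⟨1, Polynomial.C (X 2), by rw [Ker_psi2, pow_one]; rfl⟩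
      · refine ⟨1, Polynomial.C (X 1) - 1, ?_⟩
        rw [map_sub, map_one, Ker_psi1, pow_one, add_sub_cancel_left]
        rfl
      · exact ⟨0, Polynomial.C (X 0), by rw [Ker_psi0, pow_zero, one_mul]; rfl⟩
      · exact ⟨0, Polynomial.C (X 3), by rw [Ker_psi3, pow_zero, one_mul]; rfl⟩
    obtain ⟨n, q, hq⟩ := hj
    refine ⟨N + n, G * q, ?_⟩
    rw [map_mul, ← hG, ← hq]
    ring

/-- Proof. `T - q0P` divides `G - C (G.eval q0P)` (`Polynomial.X_sub_C_dvd_sub_C_eval`), `psi (T - q0P) = - pp`. -/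
theorem psi_mod (G : Polynomial P4) : pp ∣ psi G - psi (Polynomial.C (G.eval q0P)) := by
  obtain ⟨H, hH⟩ := Polynomial.X_sub_C_dvd_sub_C_eval (a := q0P) (p := G)
  have h1 : psi (Polynomial.C q0P) = QR (X 3) (1 + X 0 * X 2) (X 0 * X 1) (X 4) := by
    have h2 := map_QR (psi.comp Polynomial.C) (X 0) (X 1) (X 2) (X 3)
    rw [RingHom.comp_apply, RingHom.comp_apply, RingHom.comp_apply, RingHom.comp_apply,
      RingHom.comp_apply, Ker_psi0, Ker_psi1, Ker_psi2, Ker_psi3] at h2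
    exact h2
  refine ⟨-psi H, ?_⟩
  rw [← map_sub, hH, map_mul, map_sub, Ker_psiT, h1]
  unfold pp
  ring

/-- Proof. Both sides are ring homomorphisms in `G` (`Polynomial.ringHom_ext`, `MvPolynomial.ringHom_ext`); `Q (g₃ / Q) = g₃`. -/
theorem phi_psi (G : Polynomial P4) : phi (psi G) = algebraMap P4 K4 (G.eval q0P) := by
  have key : ((phi : P5 →+* K4).comp psi) =
      (algebraMap P4 K4).comp (Polynomial.evalRingHom q0P) := by
    refine Polynomial.ringHom_ext' ?_ ?_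
    · refine MvPolynomial.ringHom_ext ?_ ?_
      · intro r
        show phi (psi (Polynomial.C (C r))) =
          algebraMap P4 K4 (Polynomial.eval q0P (Polynomial.C (C r)))
        rw [Ker_psic, Polynomial.eval_C]
        unfold phi
        rw [aeval_C, IsScalarTower.algebraMap_apply ℂ P4 K4]
        rfl
      · intro i
        show phi (psi (Polynomial.C (X i))) =
          algebraMap P4 K4 (Polynomial.eval q0P (Polynomial.C (X i)))
        rw [Polynomial.eval_C]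
        have hg : ∀ j : Fin 4, algebraMap P4 K4 (X j) = gk j := fun _ => rfl
        rw [hg]
        fin_cases i
        · exact (congrArg phi Ker_psi0).trans Ker_X3
        · exact (congrArg phi Ker_psi1).trans Ker_a
        · exact (congrArg phi Ker_psi2).trans Ker_b
        · exact (congrArg phi Ker_psi3).trans Ker_X4
    · show phi (psi Polynomial.X) = algebraMap P4 K4 (Polynomial.eval q0P Polynomial.X)
      rw [Ker_psiT, Ker_X0, Polynomial.eval_X]
      rfl
  exact congrArg (fun g : Polynomial P4 →+* K4 => g G) key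

private theorem Ker_eval0 : eval (fun _ : Fin 5 => (0 : ℂ)) pp = 1 := by
  rw [eval_pp]
  simp [QR, qR, tauR, ccR]

private theorem Ker_X0_ndvd : ¬ (X 0 : P5) ∣ pp := by
  rintro ⟨H, hH⟩
  have h1 := Ker_eval0
  rw [hH, map_mul, eval_X, zero_mul] at h1
  exact zero_ne_one h1

/-- `X 0` is prime and does not divide `pp` (evaluate at `0`: `pp 0 = 1`). Induction on `N`. -/
theorem dvd_of_pow {F : P5} (N : ℕ) (h : pp ∣ X 0 ^ N * F) : pp ∣ F := by
  induction N with
  | zero => rwa [pow_zero, one_mul] at h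
  | succ N ih =>
    apply ih
    obtain ⟨H, hH⟩ := h
    have h1 : (X 0 : P5) ∣ pp * H := ⟨X 0 ^ N * F, by rw [← hH]; ring⟩
    rcases (MvPolynomial.X_prime (R := ℂ) (i := (0 : Fin 5))).dvd_or_dvd h1 with h2 | h2
    · exact absurd h2 Ker_X0_ndvd
    · obtain ⟨H', rfl⟩ := h2
      refine ⟨H', ?_⟩
      refine mul_left_cancel₀ (MvPolynomial.X_ne_zero (R := ℂ) (0 : Fin 5)) ?_
      have h3 : (X 0 : P5) * (X 0 ^ N * F) = X 0 ^ (N + 1) * F := by ring
      rw [h3, hH]
      ring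

/-- Proof. `clear`, `phi_psi`: `G.eval q0P = 0`, so `pp ∣ psi G` (`psi_mod`), `dvd_of_pow`. -/
theorem phi_ker {F : P5} (h : phi F = 0) : pp ∣ F := by
  obtain ⟨N, G, hG⟩ := clear F
  have h1 := phi_psi G
  rw [← hG, map_mul, h, mul_zero] at h1
  have h2 : G.eval q0P = 0 := (FaithfulSMul.algebraMap_eq_zero_iff P4 K4).1 h1.symm
  have h3 := psi_mod G
  rw [h2, map_zero, map_zero, sub_zero, ← hG] at h3
  exact dvd_of_pow N h3

/-- Proof. `Prime pp`: `pp ≠ 0`; not a unit (`phi_pp`); if `pp ∣ F G`, `phi F * phi G = 0`, `phi_ker`. -/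
theorem pp_prime : Prime pp := by
  refine ⟨?_, ?_, ?_⟩
  · intro h
    have h1 := Ker_eval0
    rw [h, map_zero] at h1
    exact zero_ne_one h1
  · intro h
    have h1 : IsUnit (phi pp) := h.map phi
    rw [phi_pp] at h1
    exact not_isUnit_zero h1
  · rintro a b ⟨H, hH⟩
    have h1 : phi a * phi b = 0 := by
      rw [← map_mul, hH, map_mul, phi_pp, zero_mul]
    rcases mul_eq_zero.1 h1 with h2 | h2
    · exact Or.inl (phi_ker h2)
    · exact Or.inr (phi_ker h2)

end Pool.Agent.MP_c984cf_ag_N5
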