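import Pool.Agent.Lib.MP_c984cf_ag_N5.HDefs

/-!
# Contractible hypersurfaces of log-general type in dimension five: the five forms are regular
-/

set_option autoImplicit false

noncomputable section

namespace Pool.Agent.MP_c984cf_ag_N5

open MvPolynomial Pool.Agent.MP_c984cf_ag

variable {D : Fin 4 → Derivation ℂ K4 K4} (hD : ∀ i j, D j (gk i) = if i = j then 1 else 0)

private theorem RegF_t : algebraMap A5 K4 (Ideal.Quotient.mk _ (X 0)) = qk := by
  rw [algA5_eq, phiA_mk, phi, aeval_X]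
  rfl

private theorem RegF_u : algebraMap A5 K4 (Ideal.Quotient.mk _ (X 1)) = gk 2 / qk := by
  rw [algA5_eq, phiA_mk, phi, aeval_X]
  rfl

private theorem RegF_v : algebraMap A5 K4 (Ideal.Quotient.mk _ (X 2)) = (gk 1 - 1) / qk := by
  rw [algA5_eq, phiA_mk, phi, aeval_X]
  rfl

private theorem RegF_a : algebraMap A5 K4 (Ideal.Quotient.mk _ (X 3)) = gk 0 := by
  rw [algA5_eq, phiA_mk, phi, aeval_X]
  rfl

private theorem RegF_b : algebraMap A5 K4 (Ideal.Quotient.mk _ (X 4)) = gk 3 := by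
  rw [algA5_eq, phiA_mk, phi, aeval_X]
  rfl

private theorem RegF_g (i : Fin 4) : gk i ∈ (algebraMap A5 K4).range := by
  have ht : qk ∈ (algebraMap A5 K4).range := ⟨_, RegF_t⟩
  have hu : gk 2 / qk ∈ (algebraMap A5 K4).range := ⟨_, RegF_u⟩
  have hv : (gk 1 - 1) / qk ∈ (algebraMap A5 K4).range := ⟨_, RegF_v⟩
  have h1 : gk 1 = 1 + qk * ((gk 1 - 1) / qk) := by
    rw [mul_div_cancel₀ _ qk_ne]
    ring
  have h2 : gk 2 = qk * (gk 2 / qk) := by
    rw [mul_div_cancel₀ _ qk_ne]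
  fin_cases i
  · exact ⟨_, RegF_a⟩
  · show gk 1 ∈ _
    rw [h1]
    exact add_mem (one_mem _) (mul_mem ht hv)
  · show gk 2 ∈ _
    rw [h2]
    exact mul_mem ht hu
  · exact ⟨_, RegF_b⟩

/-- the numerators are in the coordinate ring (`gk 0 = phi (X 3)`, `gk 1 = phi (1 + X 0 * X 2)`, `gk 2 = phi (X 0 * X 1)`,
`gk 3 = phi (X 4)`) -/
theorem nk_mem (i : Fin 5) : ∃ a : A5, nk i = algebraMap A5 K4 a := by
  have h : nk i ∈ (algebraMap A5 K4).range := by
    have g := RegF_g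
    have hz : ∀ j, zk j ∈ (algebraMap A5 K4).range := by
      intro j
      fin_cases j
      · exact mul_mem (g 0) (pow_mem (g 1) 2)
      · exact mul_mem (g 2) (pow_mem (g 3) 3)
      · exact mul_mem (g 0) (g 2)
      · exact mul_mem (g 1) (g 3)
    have ht : tk ∈ (algebraMap A5 K4).range := add_mem (hz 0) (hz 1)
    have hc : ck ∈ (algebraMap A5 K4).range := add_mem (hz 2) (hz 3)
    have h1 : m1 ∈ (algebraMap A5 K4).range := mul_mem (pow_mem ht 2) hc
    have h2 : m2 ∈ (algebraMap A5 K4).range := mul_mem ht (pow_mem hc 2)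
    have h3 : gk 0 * gk 1 ^ 2 * gk 3 ∈ (algebraMap A5 K4).range :=
      mul_mem (mul_mem (g 0) (pow_mem (g 1) 2)) (g 3)
    fin_cases i
    · exact h3
    · exact mul_mem (g 3) ht
    · exact mul_mem (mul_mem (g 0) (g 1)) hc
    · exact mul_mem h3 h1
    · exact mul_mem h3 h2
  obtain ⟨a, ha⟩ := h
  exact ⟨a, ha.symm⟩

include hD in
private theorem RegF_jac (c d : K4) : jac D ![gk 0, c, d, gk 3] = D 1 c * D 2 d - D 2 c * D 1 d := by
  unfold jac
  rw [Matrix.det_succ_row_zero]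
  simp [hD, Matrix.det_fin_three, Fin.succAbove]

include hD in
/-- Proof. `t = qk`, `u = gk 2 / qk`, `v = (gk 1 - 1) / qk`, `a = gk 0`, `b = gk 3` are in the coordinate ring. As
`gk 1 = 1 + t v`, `gk 2 = t u`: `D j (gk 1) = t D j v + v D j t`, `D j (gk 2) = t D j u + u D j t`, and `jac D gk = 1` (`hD`), so
`1 = t * (t * jac (a, v, u, b) + u * jac (a, v, t, b) + v * jac (a, t, u, b))` (expand the 4 x 4 determinants, `ring`). -/
theorem inv_reg : qk⁻¹ ∈ regForms A5 D := by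
  obtain ⟨t, ht⟩ : ∃ t, t = qk := ⟨_, rfl⟩
  obtain ⟨u, hu⟩ : ∃ u, u = gk 2 / qk := ⟨_, rfl⟩
  obtain ⟨v, hv⟩ : ∃ v, v = (gk 1 - 1) / qk := ⟨_, rfl⟩
  have t0 : t ≠ 0 := by
    rw [ht]
    exact qk_ne
  have e1 : gk 1 = 1 + t * v := by
    rw [ht, hv, mul_div_cancel₀ _ qk_ne]
    ring
  have e2 : gk 2 = t * u := by
    rw [ht, hu, mul_div_cancel₀ _ qk_ne]
  have d1 : ∀ j, D j (gk 1) = t * D j v + v * D j t := by
    intro j
    rw [e1, map_add, Derivation.map_one_eq_zero, zero_add, Derivation.leibniz, smul_eq_mul,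
      smul_eq_mul]
  have d2 : ∀ j, D j (gk 2) = t * D j u + u * D j t := by
    intro j
    rw [e2, Derivation.leibniz, smul_eq_mul, smul_eq_mul]
  have f1 : t * D 1 v + v * D 1 t = 1 := by
    rw [← d1, hD]
    rfl
  have f2 : t * D 2 v + v * D 2 t = 0 := by
    rw [← d1, hD]
    rfl
  have f3 : t * D 1 u + u * D 1 t = 0 := by
    rw [← d2, hD]
    rfl
  have f4 : t * D 2 u + u * D 2 t = 1 := by
    rw [← d2, hD]
    rfl
  have key : qk⁻¹ = t * jac D ![gk 0, v, u, gk 3] + u * jac D ![gk 0, v, t, gk 3] +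
      v * jac D ![gk 0, t, u, gk 3] := by
    rw [← ht, RegF_jac hD, RegF_jac hD, RegF_jac hD]
    refine inv_eq_of_mul_eq_one_right ?_
    linear_combination (t * D 2 u + u * D 2 t) * f1 + f4 - (t * D 1 u + u * D 1 t) * f2
  have hmem : ∀ c : Fin 4 → A5, jac D (fun i => algebraMap A5 K4 (c i)) ∈ regForms A5 D :=
    fun c => Submodule.subset_span ⟨c, rfl⟩
  have tA : algebraMap A5 K4 (Ideal.Quotient.mk _ (X 0)) = t := by rw [RegF_t, ht]
  have uA : algebraMap A5 K4 (Ideal.Quotient.mk _ (X 1)) = u := by rw [RegF_u, hu]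
  have vA : algebraMap A5 K4 (Ideal.Quotient.mk _ (X 2)) = v := by rw [RegF_v, hv]
  have hj : ∀ c d : A5, jac D ![gk 0, algebraMap A5 K4 c, algebraMap A5 K4 d, gk 3] ∈
      regForms A5 D := by
    intro c d
    have h := hmem ![Ideal.Quotient.mk _ (X 3), c, d, Ideal.Quotient.mk _ (X 4)]
    have h2 : (fun i => algebraMap A5 K4
        ((![Ideal.Quotient.mk _ (X 3), c, d, Ideal.Quotient.mk _ (X 4)] : Fin 4 → A5) i)) =
        ![gk 0, algebraMap A5 K4 c, algebraMap A5 K4 d, gk 3] := by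
      funext i
      fin_cases i
      · exact RegF_a
      · rfl
      · rfl
      · exact RegF_b
    rw [h2] at h
    exact h
  have hs : ∀ (c : A5) (x : K4), x ∈ regForms A5 D → algebraMap A5 K4 c * x ∈ regForms A5 D := by
    intro c x hx
    rw [← Algebra.smul_def]
    exact Submodule.smul_mem _ c hx
  rw [key, ← tA, ← uA, ← vA]
  exact add_mem (add_mem (hs _ _ (hj _ _)) (hs _ _ (hj _ _))) (hs _ _ (hj _ _))

include hD in
/-- Proof. `hk i = a • (qk⁻¹ * qk⁻¹ * qk⁻¹)` with `a` from `nk_mem`. -/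
theorem hk_reg (i : Fin 5) : hk i ∈ regForms A5 D ^ 3 := by
  obtain ⟨a, ha⟩ := nk_mem i
  have h : hk i = a • (qk⁻¹) ^ 3 := by
    rw [Algebra.smul_def, ← ha, inv_pow]
    rfl
  rw [h]
  exact Submodule.smul_mem _ a (Submodule.pow_mem_pow _ (inv_reg hD) 3)

end Pool.Agent.MP_c984cf_ag_N5
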