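import Pool.Agent.Lib.MP_c984cf_ag_N5.LogH
import Pool.Agent.Lib.MP_c984cf_ag_N5.RegF
import Pool.Agent.Lib.MP_c984cf_ag_N5.JacH
import Pool.Agent.Lib.MP_c984cf_ag_N5.AlgJ

/-!
# Contractible hypersurfaces of log-general type in dimension five: log-general type
-/

set_option autoImplicit false

noncomputable section

namespace Pool.Agent.MP_c984cf_ag_N5

open MvPolynomial Pool.Agent.MP_c984cf_ag

theorem pp_logGeneral : LogGeneralType (P5 ⧸ Ideal.span {pp}) 4 := by
  obtain ⟨D, hD⟩ := exists_frame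
  refine ⟨K4, inferInstance, inferInstance, algA5, towerA5, fracA5, D, 3, hk, ⟨gk, ?_⟩, by norm_num,
    fun i => ⟨hk_reg hD i, fun R hR => hk_log hD R hR i⟩, ?_, ?_⟩
  · unfold jac
    have h1 : (Matrix.of fun i j => D j (gk i)) = (1 : Matrix (Fin 4) (Fin 4) K4) := by
      ext i j
      rw [Matrix.of_apply, hD, Matrix.one_apply]
    rw [h1, Matrix.det_one]
    exact one_ne_zero
  · unfold hk nk
    refine div_ne_zero ?_ (pow_ne_zero _ qk_ne)
    exact mul_ne_zero (mul_ne_zero (gk_ne 0) (pow_ne_zero _ (gk_ne 1))) (gk_ne 3)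
  · exact algInd_of_jac D _ (jac_hk hD)

end Pool.Agent.MP_c984cf_ag_N5
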