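import Pool.Agent.Lib.MP_c984cf_ag_N5.DLz

/-!
# Contractible hypersurfaces of log-general type in dimension five: logarithmic forms
-/

set_option autoImplicit false

noncomputable section

namespace Pool.Agent.MP_c984cf_ag_N5

open MvPolynomial Pool.Agent.MP_c984cf_ag

variable {D : Fin 4 → Derivation ℂ K4 K4} (hD : ∀ i j, D j (gk i) = if i = j then 1 else 0)

/-- `dlog c₁ ∧ .. ∧ dlog c₄` is a log form along every valuation ring (take `S = univ`). -/
theorem log_mem (R : ValuationSubring K4) (c : Fin 4 → K4) (hc : ∀ i, c i ≠ 0) :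
    jac D c / ∏ i, c i ∈ logForms R D := by
  exact Submodule.subset_span ⟨Finset.univ, c, fun i _ => hc i,
    fun i hi => absurd (Finset.mem_univ i) hi, rfl⟩

/-- Multiplication by a complex constant. -/
theorem log_smul (R : ValuationSubring K4) (hR : ∀ z : ℂ, algebraMap ℂ K4 z ∈ R) (z : ℂ) {h : K4}
    (hh : h ∈ logForms R D) : algebraMap ℂ K4 z * h ∈ logForms R D := by
  exact (logForms R D).smul_mem (⟨algebraMap ℂ K4 z, hR z⟩ : R) hh

private theorem LogF_det (a b A1 A2 A3 A4 B1 B2 B3 B4 : K4) :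
    Matrix.det (!![-a, a, 0, 0; 0, 0, -b, b; A1, A2, A3, A4; B1, B2, B3, B4] :
      Matrix (Fin 4) (Fin 4) K4) =
      -(a * b * ((A1 + A2) * (B3 + B4) - (A3 + A4) * (B1 + B2))) := by
  simp [Matrix.det_succ_row_zero, Fin.sum_univ_succ, Fin.succAbove]
  ring

include hD in
private theorem LogF_core (R : ValuationSubring K4)
    {a b A1 A2 A3 A4 B1 B2 B3 B4 f1 f2 f3 f4 : K4} (h1 : lin D f1 ![-a, a, 0, 0])
    (h2 : lin D f2 ![0, 0, -b, b]) (h3 : lin D f3 ![A1, A2, A3, A4])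
    (h4 : lin D f4 ![B1, B2, B3, B4]) :
    a * b * ((A1 + A2) * (B3 + B4) - (A3 + A4) * (B1 + B2)) / pk ∈ logForms R D := by
  have h : ∀ i, lin D ((![f1, f2, f3, f4] : Fin 4 → K4) i)
      ((!![-a, a, 0, 0; 0, 0, -b, b; A1, A2, A3, A4; B1, B2, B3, B4] :
        Matrix (Fin 4) (Fin 4) K4) i) := by
    intro i
    fin_cases i
    · exact h1
    · exact h2
    · exact h3
    · exact h4
  have e1 := jac_lin hD h
  rw [LogF_det] at e1
  have e2 := log_mem (D := D) R (![f1, f2, f3, f4] : Fin 4 → K4) fun i => (h i).1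
  rw [e1] at e2
  rw [neg_mul, neg_neg, ← div_eq_mul_inv] at e2
  exact e2

include hD in
/-- Proof. `c = (f₁, f₂, f₃, f₄)` with `f₁ = xk'` for `ex = xk` (row `xk * (-1, 1, 0, 0)`), `f₁ = xk` for `ex = xk'` (row
`xk' * (1, -1, 0, 0)`), `f₂ = yk'` for `ey = yk`, `f₂ = yk` for `ey = yk'`, `(f₃, f₄) = (qk, m2)` for `em = m1`, `(m1, qk)` for
`em = m2`, `(m1, m2)` for `em = qk`. By `jac_lin` the form is `± 3 ex ey em / (pk qk)` (use `xk + xk' = 1`, `yk + yk' = 1`
to simplify the determinant: eliminate `xk' = 1 - xk`, `yk' = 1 - yk`, then `ring` after `Matrix.det_succ_row_zero`). -/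
theorem log_basic (R : ValuationSubring K4) (hR : ∀ z : ℂ, algebraMap ℂ K4 z ∈ R) {ex ey em : K4}
    (hx : ex = xk ∨ ex = xk') (hy : ey = yk ∨ ey = yk') (hm : em = m1 ∨ em = m2 ∨ em = qk) :
    ex * ey * em / (pk * qk) ∈ logForms R D := by
  have hX : ∃ f a : K4, lin D f ![-a, a, 0, 0] ∧ (a = ex ∨ a = -ex) := by
    rcases hx with rfl | rfl
    · exact ⟨xk', xk, lin_x', Or.inl rfl⟩
    · refine ⟨xk, -xk', ?_, Or.inr rfl⟩
      rw [neg_neg]
      exact lin_x
  have hY : ∃ f b : K4, lin D f ![0, 0, -b, b] ∧ (b = ey ∨ b = -ey) := by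
    rcases hy with rfl | rfl
    · exact ⟨yk', yk, lin_y', Or.inl rfl⟩
    · refine ⟨yk, -yk', ?_, Or.inr rfl⟩
      rw [neg_neg]
      exact lin_y
  have ex1 : xk' = 1 - xk := by rw [← xk_add]; ring
  have ey1 : yk' = 1 - yk := by rw [← yk_add]; ring
  have hq := qk_ne
  have hM : ∃ f3 f4 A1 A2 A3 A4 B1 B2 B3 B4 : K4, lin D f3 ![A1, A2, A3, A4] ∧
      lin D f4 ![B1, B2, B3, B4] ∧
      (A1 + A2) * (B3 + B4) - (A3 + A4) * (B1 + B2) = 3 * em / qk := by
    rcases hm with rfl | rfl | rfl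
    · refine ⟨_, _, _, _, _, _, _, _, _, _, lin_q, lin_m2, ?_⟩
      rw [ex1, ey1]
      field_simp
      ring
    · refine ⟨_, _, _, _, _, _, _, _, _, _, lin_m1, lin_q, ?_⟩
      rw [ex1, ey1]
      field_simp
      ring
    · refine ⟨_, _, _, _, _, _, _, _, _, _, lin_m1, lin_m2, ?_⟩
      rw [ex1, ey1]
      field_simp
      ring
  obtain ⟨f1, a, h1, ha⟩ := hX
  obtain ⟨f2, b, h2, hb⟩ := hY
  obtain ⟨f3, f4, A1, A2, A3, A4, B1, B2, B3, B4, h3, h4, hΔ⟩ := hM
  have e1 := LogF_core hD R h1 h2 h3 h4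
  rw [hΔ] at e1
  have hp := pk_ne
  have e3 : algebraMap ℂ K4 (1 / 3) = 1 / 3 := by
    rw [map_div₀, map_one, map_ofNat]
  have e4 : algebraMap ℂ K4 (-1 / 3) = -1 / 3 := by
    rw [map_div₀, map_neg, map_one, map_ofNat]
  have key : a * b = ex * ey ∨ a * b = -(ex * ey) := by
    rcases ha with rfl | rfl <;> rcases hb with rfl | rfl
    · exact Or.inl rfl
    · exact Or.inr (by ring)
    · exact Or.inr (by ring)
    · exact Or.inl (by ring)
  rcases key with hk | hk
  · have e2 := log_smul R hR (1 / 3) e1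
    rw [e3, hk] at e2
    have e5 : 1 / 3 * (ex * ey * (3 * em / qk) / pk) = ex * ey * em / (pk * qk) := by
      field_simp
    rw [e5] at e2
    exact e2
  · have e2 := log_smul R hR (-1 / 3) e1
    rw [e4, hk] at e2
    have e5 : -1 / 3 * (-(ex * ey) * (3 * em / qk) / pk) = ex * ey * em / (pk * qk) := by
      field_simp
    rw [e5] at e2
    exact e2

include hD in
/-- Proof. `1 = xk + xk'`, `1 = yk + yk'`, `1 = qk - m1 - m2`; sums of `log_basic`. -/
theorem log_one (R : ValuationSubring K4) (hR : ∀ z : ℂ, algebraMap ℂ K4 z ∈ R) {ex ey em : K4}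
    (hx : ex = xk ∨ ex = xk' ∨ ex = 1) (hy : ey = yk ∨ ey = yk' ∨ ey = 1)
    (hm : em = m1 ∨ em = m2 ∨ em = 1) : ex * ey * em / (pk * qk) ∈ logForms R D := by
  have hM : ∀ {ex ey em : K4}, (ex = xk ∨ ex = xk') → (ey = yk ∨ ey = yk') →
      (em = m1 ∨ em = m2 ∨ em = 1) → ex * ey * em / (pk * qk) ∈ logForms R D := by
    intro ex ey em hx hy hm
    rcases hm with rfl | rfl | rfl
    · exact log_basic hD R hR hx hy (Or.inl rfl)
    · exact log_basic hD R hR hx hy (Or.inr (Or.inl rfl))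
    · have h1 : (1 : K4) = qk - m1 - m2 := by rw [qk_m]; ring
      have h2 : ex * ey * 1 / (pk * qk) = ex * ey * qk / (pk * qk) - ex * ey * m1 / (pk * qk) -
          ex * ey * m2 / (pk * qk) := by
        rw [← sub_div, ← sub_div, ← mul_sub, ← mul_sub, ← h1]
      rw [h2]
      exact (logForms R D).sub_mem ((logForms R D).sub_mem
        (log_basic hD R hR hx hy (Or.inr (Or.inr rfl))) (log_basic hD R hR hx hy (Or.inl rfl)))
        (log_basic hD R hR hx hy (Or.inr (Or.inl rfl)))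
  have hY : ∀ {ex ey em : K4}, (ex = xk ∨ ex = xk') → (ey = yk ∨ ey = yk' ∨ ey = 1) →
      (em = m1 ∨ em = m2 ∨ em = 1) → ex * ey * em / (pk * qk) ∈ logForms R D := by
    intro ex ey em hx hy hm
    rcases hy with rfl | rfl | rfl
    · exact hM hx (Or.inl rfl) hm
    · exact hM hx (Or.inr rfl) hm
    · have h2 : ex * 1 * em / (pk * qk) = ex * yk * em / (pk * qk) +
          ex * yk' * em / (pk * qk) := by
        rw [← add_div, ← add_mul, ← mul_add, yk_add]
      rw [h2]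
      exact (logForms R D).add_mem (hM hx (Or.inl rfl) hm) (hM hx (Or.inr rfl) hm)
  rcases hx with rfl | rfl | rfl
  · exact hY (Or.inl rfl) hy hm
  · exact hY (Or.inr rfl) hy hm
  · have h2 : 1 * ey * em / (pk * qk) = xk * ey * em / (pk * qk) +
        xk' * ey * em / (pk * qk) := by
      rw [← add_div, ← add_mul, ← add_mul, xk_add]
    rw [h2]
    exact (logForms R D).add_mem (hY (Or.inl rfl) hy hm) (hY (Or.inr rfl) hy hm)

end Pool.Agent.MP_c984cf_ag_N5
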