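import Pool.Agent.Lib.MP_c984cf_ag_N5.HDefs
import Pool.Agent.Lib.MP_c984cf_ag_N5.LogF

/-!
# Contractible hypersurfaces of log-general type in dimension five: the five forms are logarithmic
-/

set_option autoImplicit false

noncomputable section

namespace Pool.Agent.MP_c984cf_ag_N5

open MvPolynomial Pool.Agent.MP_c984cf_ag

private theorem LogH_aux {a b c n q p : K4} (hp : p ≠ 0) (h : a * b * c = n * p ^ 3) :
    n / q ^ 3 = a / (p * q) * (b / (p * q)) * (c / (p * q)) := by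
  rw [div_mul_div_comm, div_mul_div_comm, h]
  have : p * q * (p * q) * (p * q) = q ^ 3 * p ^ 3 := by ring
  rw [this, mul_div_mul_right _ _ (pow_ne_zero 3 hp)]

variable {D : Fin 4 → Derivation ℂ K4 K4} (hD : ∀ i j, D j (gk i) = if i = j then 1 else 0)

include hD in
/-- Proof. Write `[ex, ey, em] = ex * ey * em / (pk * qk)` (`log_one`). Then `hk 0 = [x, y, m1] [x, y, m2] [x', y', 1]`,
`hk 1 = [x, y, m1] [1, y, m2] [x', y', 1]`, `hk 2 = [x, y, m1] [x, y, m2] [x', 1, 1]`,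
`hk 3 = [x, y, m1] [x, y, m1] [x', y', m2]`, `hk 4 = [x, y, m1] [x, y, m2] [x', y', m2]` (`field_simp` in the `gk i`, `tk`, `ck`,
using `x = g₁ g₂² / τ`, `x' = g₃ g₄³ / τ`, `y = g₁ g₃ / c`, `y' = g₂ g₄ / c`, `m1 = τ² c`, `m2 = τ c²`). -/
theorem hk_log (R : ValuationSubring K4) (hR : ∀ z : ℂ, algebraMap ℂ K4 z ∈ R) (i : Fin 5) :
    hk i ∈ logForms R D ^ 3 := by
  have t0 := tk_ne
  have c0 := ck_ne
  have key : ∀ {a b c n : K4}, a / (pk * qk) ∈ logForms R D → b / (pk * qk) ∈ logForms R D →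
      c / (pk * qk) ∈ logForms R D → a * b * c = n * pk ^ 3 → n / qk ^ 3 ∈ logForms R D ^ 3 := by
    intro a b c n ha hb hc h
    rw [LogH_aux pk_ne h, pow_succ, pow_two]
    exact Submodule.mul_mem_mul (Submodule.mul_mem_mul ha hb) hc
  have hx1 : xk = xk ∨ xk = xk' ∨ xk = 1 := Or.inl rfl
  have hx2 : xk' = xk ∨ xk' = xk' ∨ xk' = 1 := Or.inr (Or.inl rfl)
  have hx3 : (1 : K4) = xk ∨ (1 : K4) = xk' ∨ (1 : K4) = 1 := Or.inr (Or.inr rfl)
  have hy1 : yk = yk ∨ yk = yk' ∨ yk = 1 := Or.inl rfl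
  have hy2 : yk' = yk ∨ yk' = yk' ∨ yk' = 1 := Or.inr (Or.inl rfl)
  have hy3 : (1 : K4) = yk ∨ (1 : K4) = yk' ∨ (1 : K4) = 1 := Or.inr (Or.inr rfl)
  have hm1 : m1 = m1 ∨ m1 = m2 ∨ m1 = 1 := Or.inl rfl
  have hm2 : m2 = m1 ∨ m2 = m2 ∨ m2 = 1 := Or.inr (Or.inl rfl)
  have hm3 : (1 : K4) = m1 ∨ (1 : K4) = m2 ∨ (1 : K4) = 1 := Or.inr (Or.inr rfl)
  unfold hk
  fin_cases i
  · refine key (log_one hD R hR hx1 hy1 hm1) (log_one hD R hR hx1 hy1 hm2)
      (log_one hD R hR hx2 hy2 hm3) ?_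
    change _ = gk 0 * gk 1 ^ 2 * gk 3 * pk ^ 3
    simp only [xk, xk', yk, yk', m1, m2, zk, pk, Matrix.cons_val_zero, Matrix.cons_val_one,
      Matrix.cons_val]
    field_simp
  · refine key (log_one hD R hR hx1 hy1 hm1) (log_one hD R hR hx3 hy1 hm2)
      (log_one hD R hR hx2 hy2 hm3) ?_
    change _ = gk 3 * tk * pk ^ 3
    simp only [xk, xk', yk, yk', m1, m2, zk, pk, Matrix.cons_val_zero, Matrix.cons_val_one,
      Matrix.cons_val]
    field_simp
  · refine key (log_one hD R hR hx1 hy1 hm1) (log_one hD R hR hx1 hy1 hm2)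
      (log_one hD R hR hx2 hy3 hm3) ?_
    change _ = gk 0 * gk 1 * ck * pk ^ 3
    simp only [xk, xk', yk, m1, m2, zk, pk, Matrix.cons_val_zero, Matrix.cons_val_one,
      Matrix.cons_val]
    field_simp
  · refine key (log_one hD R hR hx1 hy1 hm1) (log_one hD R hR hx1 hy1 hm1)
      (log_one hD R hR hx2 hy2 hm2) ?_
    change _ = gk 0 * gk 1 ^ 2 * gk 3 * m1 * pk ^ 3
    simp only [xk, xk', yk, yk', m1, m2, zk, pk, Matrix.cons_val_zero, Matrix.cons_val_one,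
      Matrix.cons_val]
    field_simp
  · refine key (log_one hD R hR hx1 hy1 hm1) (log_one hD R hR hx1 hy1 hm2)
      (log_one hD R hR hx2 hy2 hm2) ?_
    change _ = gk 0 * gk 1 ^ 2 * gk 3 * m2 * pk ^ 3
    simp only [xk, xk', yk, yk', m1, m2, zk, pk, Matrix.cons_val_zero, Matrix.cons_val_one,
      Matrix.cons_val]
    field_simp

end Pool.Agent.MP_c984cf_ag_N5
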