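import Pool.Agent.Lib.MP_c984cf_ag_N5.XDefs
import Pool.Agent.Lib.MP_c984cf_ag.Defs

/-!
# Contractible hypersurfaces of log-general type in dimension five: the polynomial `pp`

Variables `X 0 = t, X 1 = u, X 2 = v, X 3 = a, X 4 = b`.
-/

set_option autoImplicit false

noncomputable section

namespace Pool.Agent.MP_c984cf_ag_N5

open MvPolynomial

/-- `g₁ g₂² + g₃ g₄³` -/
def tauR {R : Type} [CommRing R] (a b c d : R) : R := a * b ^ 2 + c * d ^ 3

/-- `g₁ g₃ + g₂ g₄` -/
def ccR {R : Type} [CommRing R] (a b c d : R) : R := a * c + b * d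

/-- `1 + τ² c + τ c²` -/
def qR {R : Type} [CommRing R] (τ c : R) : R := 1 + τ ^ 2 * c + τ * c ^ 2

/-- `Q (Φ g)` -/
def QR {R : Type} [CommRing R] (a b c d : R) : R := qR (tauR a b c d) (ccR a b c d)

abbrev P5 : Type := MvPolynomial (Fin 5) ℂ

abbrev P4 : Type := MvPolynomial (Fin 4) ℂ

/-- the polynomial -/
def pp : P5 := QR (X 3) (1 + X 0 * X 2) (X 0 * X 1) (X 4) - X 0

theorem map_QR {R T : Type} [CommRing R] [CommRing T] (f : R →+* T) (a b c d : R) :
    f (QR a b c d) = QR (f a) (f b) (f c) (f d) := by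
  simp [QR, qR, tauR, ccR]

theorem eval_pp (x : Fin 5 → ℂ) :
    eval x pp = QR (x 3) (1 + x 0 * x 2) (x 0 * x 1) (x 4) - x 0 := by
  unfold pp
  rw [map_sub, map_QR (eval x)]
  simp

/-- the zero set is homeomorphic to `X5` -/
def homX : {x : Fin 5 → ℂ // eval x pp = 0} ≃ₜ X5 where
  toFun x := ⟨(x.1 0, x.1 1, x.1 2, x.1 3, x.1 4), by
    have h := x.2
    rw [eval_pp, sub_eq_zero] at h
    exact h⟩
  invFun z := ⟨![z.1.1, z.1.2.1, z.1.2.2.1, z.1.2.2.2.1, z.1.2.2.2.2], by
    rw [eval_pp, sub_eq_zero]
    exact z.2⟩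
  left_inv x := by
    apply Subtype.ext
    funext i
    fin_cases i <;> rfl
  right_inv z := by
    apply Subtype.ext
    rfl
  continuous_toFun := by
    refine Continuous.subtype_mk ?_ _
    have h : ∀ i : Fin 5, Continuous fun x : {x : Fin 5 → ℂ // eval x pp = 0} => x.1 i :=
      fun i => (continuous_apply i).comp continuous_subtype_val
    exact (h 0).prodMk ((h 1).prodMk ((h 2).prodMk ((h 3).prodMk (h 4))))
  continuous_invFun := by
    refine Continuous.subtype_mk ?_ _
    refine continuous_pi fun i => ?_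
    fin_cases i
    · exact continuous_fst.comp continuous_subtype_val
    · exact (continuous_fst.comp continuous_snd).comp continuous_subtype_val
    · exact (continuous_fst.comp (continuous_snd.comp continuous_snd)).comp continuous_subtype_val
    · exact (continuous_fst.comp (continuous_snd.comp (continuous_snd.comp continuous_snd))).comp
        continuous_subtype_val
    · exact (continuous_snd.comp (continuous_snd.comp (continuous_snd.comp continuous_snd))).comp
        continuous_subtype_val

end Pool.Agent.MP_c984cf_ag_N5
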