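import Pool.Agent.Lib.MP_c984cf_ag_N5.Basic

/-!
# Contractible hypersurfaces of log-general type in dimension five: a homotopy retract
-/

set_option autoImplicit false

noncomputable section

namespace Pool.Agent.MP_c984cf_ag_N5

open Set Filter Topology

variable {E F : Type} [TopologicalSpace E] [TopologicalSpace F]

/-- `π : X → Y` is a homeomorphism over `{l < 1}` (inverse `q`) and has a left homotopy inverse `j` over
`{0 < l}`; if `Y` is contractible then `X` is contractible.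

Proof. Let `K` be the homotopy from `x ↦ j (π x)` (`K 0`) to `id` (`K 1`) on `X₂ = {x ∈ X | 0 < l (π x)}`, in `X₂`,
`k y = max 0 (min 1 (2 - 3 l y))` (`= 1` for `l ≤ 1/3`, `= 0` for `2/3 ≤ l`). Define `ψ : Y → X` by `ψ y = q y` if
`l y ≤ 1/3`, `K (k y) (q y)` if `1/3 < l y < 2/3`, `j y` if `2/3 ≤ l y`; it is continuous on `Y` (`cont_glue` twice).
Homotopy from `x ↦ ψ (π x)` to `id` on `X`: `(s, x) ↦ x` if `l (π x) ≤ 1/3`, `K (max s (k (π x))) x` if
`1/3 ≤ l (π x)` (`q (π x) = x`). `Y` contractible: `ψ ∘ π` is homotopic to a constant map (`Hty.pre`, `Hty.post`),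
so `id` is. -/
theorem retr {X : Set E} {Y : Set F} {π : E → F} {q : F → E} {l : F → ℝ} (hπ : MapC X Y π)
    (hl : ContinuousOn l Y) (hq : MapC {y | y ∈ Y ∧ l y < 1} X q)
    (hq1 : ∀ x ∈ X, l (π x) < 1 → q (π x) = x) (hq2 : ∀ y ∈ Y, l y < 1 → π (q y) = y)
    {j : F → E} (hj : MapC {y | y ∈ Y ∧ 0 < l y} {x | x ∈ X ∧ 0 < l (π x)} j)
    (h : Hty {x | x ∈ X ∧ 0 < l (π x)} {x | x ∈ X ∧ 0 < l (π x)} (fun x => j (π x)) id)
    (hY : Ctr Y) : Ctr X := by
  obtain ⟨K, hK1, hK2, hK3', hK4'⟩ := h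
  have hK3 : ∀ a ∈ {x | x ∈ X ∧ 0 < l (π x)}, K 0 a = j (π a) := hK3'
  have hK4 : ∀ a ∈ {x | x ∈ X ∧ 0 < l (π x)}, K 1 a = a := hK4'
  obtain ⟨k, hk⟩ : ∃ k : F → ℝ, k = fun y => max 0 (min 1 (2 - 3 * l y)) := ⟨_, rfl⟩
  have hkc : ContinuousOn k Y := by
    rw [hk]
    exact continuous_max.comp_continuousOn (continuousOn_const.prodMk
      (continuous_min.comp_continuousOn (continuousOn_const.prodMk
        (continuousOn_const.sub (continuousOn_const.mul hl)))))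
  have hk0 : ∀ y, 0 ≤ k y := by
    intro y
    rw [hk]
    exact le_max_left _ _
  have hk1 : ∀ y, k y ≤ 1 := by
    intro y
    rw [hk]
    exact max_le zero_le_one (min_le_left _ _)
  have hkl : ∀ y, l y ≤ 1 / 3 → k y = 1 := by
    intro y hy
    rw [hk]
    have h1 : (1 : ℝ) ≤ 2 - 3 * l y := by linarith
    simp only [min_eq_left h1]
    exact max_eq_right zero_le_one
  have hkr : ∀ y, 2 / 3 ≤ l y → k y = 0 := by
    intro y hy
    rw [hk]
    have h1 : (2 : ℝ) - 3 * l y ≤ 0 := by linarith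
    exact max_eq_left ((min_le_right _ _).trans h1)
  obtain ⟨ψ, hψ⟩ : ∃ ψ : F → E, ψ = fun y => if l y ≤ 1 / 3 then q y else
      if l y < 2 / 3 then K (k y) (q y) else j y := ⟨_, rfl⟩
  have hψ1 : ∀ y, l y ≤ 1 / 3 → ψ y = q y := by
    intro y hy
    rw [hψ]
    exact if_pos hy
  have hqX2 : ∀ y ∈ Y, l y < 1 → 0 < l y → q y ∈ {x | x ∈ X ∧ 0 < l (π x)} := by
    intro y hy h1 h2
    refine ⟨hq.2 ⟨hy, h1⟩, ?_⟩
    rwa [hq2 y hy h1]
  have hψ2 : ∀ y ∈ Y, 1 / 3 ≤ l y → l y ≤ 2 / 3 → ψ y = K (k y) (q y) := by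
    intro y hy h1 h2
    have h3 : q y ∈ {x | x ∈ X ∧ 0 < l (π x)} := hqX2 y hy (by linarith) (by linarith)
    by_cases h4 : l y ≤ 1 / 3
    · rw [hψ1 y h4, hkl y h4, hK4 _ h3]
    · by_cases h5 : l y < 2 / 3
      · rw [hψ]
        simp only [if_neg h4, if_pos h5]
      · rw [hkr y (not_lt.1 h5), hK3 _ h3, hq2 y hy (by linarith), hψ]
        simp only [if_neg h4, if_neg h5]
  have hψ3 : ∀ y, 2 / 3 ≤ l y → ψ y = j y := by
    intro y hy
    rw [hψ]
    simp only [if_neg (show ¬l y ≤ 1 / 3 by linarith), if_neg (show ¬l y < 2 / 3 by linarith)]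
  have hψm : MapsTo ψ Y X := by
    intro y hy
    rcases le_total (l y) (1 / 3) with h1 | h1
    · rw [hψ1 y h1]
      exact hq.2 ⟨hy, by linarith⟩
    · rcases le_total (l y) (2 / 3) with h2 | h2
      · rw [hψ2 y hy h1 h2]
        exact (hK2 _ ⟨hk0 y, hk1 y⟩ (hqX2 y hy (by linarith) (by linarith))).1
      · rw [hψ3 y h2]
        exact (hj.2 ⟨hy, by linarith⟩).1
  have hψc : ContinuousOn ψ Y := by
    refine cont_glue hl (1 / 3) ?_ ?_
    · refine (hq.1.mono ?_).congr fun y hy => hψ1 y hy.2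
      exact fun y hy => ⟨hy.1, by linarith [hy.2]⟩
    · refine cont_glue (hl.mono fun y hy => hy.1) (2 / 3) ?_ ?_
      · have h1 : ContinuousOn (fun y => ((k y, q y) : ℝ × E))
            {y | y ∈ {x | x ∈ Y ∧ 1 / 3 ≤ l x} ∧ l y ≤ 2 / 3} :=
          (hkc.mono fun y hy => hy.1.1).prodMk
            (hq.1.mono fun y hy => ⟨hy.1.1, by linarith [hy.2]⟩)
        refine (hK1.comp h1 ?_).congr ?_
        · intro y hy
          exact ⟨⟨hk0 y, hk1 y⟩, hqX2 y hy.1.1 (by linarith [hy.2]) (by linarith [hy.1.2])⟩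
        · intro y hy
          exact hψ2 y hy.1.1 hy.1.2 hy.2
      · refine (hj.1.mono ?_).congr fun y hy => hψ3 y hy.2
        exact fun y hy => ⟨hy.1.1, by linarith [hy.2]⟩
  have hlπ : ContinuousOn (fun x => l (π x)) X := hl.comp hπ.1 hπ.2
  have hkπ : ContinuousOn (fun x => k (π x)) X := hkc.comp hπ.1 hπ.2
  have hH : Hty X X (fun x => ψ (π x)) id := by
    obtain ⟨H, hHd⟩ : ∃ H : ℝ → E → E, H = fun s x => if l (π x) ≤ 1 / 3 then x else
        K (max s (k (π x))) x := ⟨_, rfl⟩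
    have hH1 : ∀ s x, l (π x) ≤ 1 / 3 → H s x = x := by
      intro s x hx
      rw [hHd]
      exact if_pos hx
    have hH2 : ∀ s ∈ Icc (0 : ℝ) 1, ∀ x ∈ X, 1 / 3 ≤ l (π x) →
        H s x = K (max s (k (π x))) x := by
      intro s hs x hx h1
      by_cases h2 : l (π x) ≤ 1 / 3
      · have h3 : max s (k (π x)) = 1 := by
          rw [hkl _ h2]
          exact max_eq_right hs.2
        have h4 : x ∈ {x | x ∈ X ∧ 0 < l (π x)} := ⟨hx, by linarith⟩
        rw [hH1 s x h2, h3, hK4 x h4]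
      · rw [hHd]
        exact if_neg h2
    have hms : ∀ s ∈ Icc (0 : ℝ) 1, ∀ x, max s (k (π x)) ∈ Icc (0 : ℝ) 1 := by
      intro s hs x
      exact ⟨hs.1.trans (le_max_left _ _), max_le hs.2 (hk1 _)⟩
    refine ⟨H, ?_, ?_, ?_, ?_⟩
    · have hc0 : ContinuousOn (fun z : ℝ × E => l (π z.2)) (Icc (0 : ℝ) 1 ×ˢ X) :=
        hlπ.comp continuousOn_snd fun z hz => hz.2
      refine cont_glue hc0 (1 / 3) ?_ ?_
      · exact continuousOn_snd.congr fun z hz => hH1 z.1 z.2 hz.2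
      · have h1 : ContinuousOn (fun z : ℝ × E => ((max z.1 (k (π z.2)), z.2) : ℝ × E))
            {z | z ∈ Icc (0 : ℝ) 1 ×ˢ X ∧ 1 / 3 ≤ l (π z.2)} := by
          refine ContinuousOn.prodMk ?_ continuousOn_snd
          exact continuous_max.comp_continuousOn (continuousOn_fst.prodMk
            (hkπ.comp continuousOn_snd fun z hz => hz.1.2))
        refine (hK1.comp h1 ?_).congr ?_
        · intro z hz
          exact ⟨hms z.1 hz.1.1 z.2, hz.1.2, by linarith [hz.2]⟩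
        · intro z hz
          exact hH2 z.1 hz.1.1 z.2 hz.1.2 hz.2
    · intro s hs x hx
      rcases le_total (l (π x)) (1 / 3) with h1 | h1
      · rw [hH1 s x h1]
        exact hx
      · rw [hH2 s hs x hx h1]
        exact (hK2 _ (hms s hs x) ⟨hx, by linarith⟩).1
    · intro x hx
      have h0 : (0 : ℝ) ∈ Icc (0 : ℝ) 1 := ⟨le_rfl, zero_le_one⟩
      change H 0 x = ψ (π x)
      rcases le_total (l (π x)) (1 / 3) with h1 | h1
      · rw [hH1 0 x h1, hψ1 _ h1, hq1 x hx (by linarith)]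
      · have hm : max 0 (k (π x)) = k (π x) := max_eq_right (hk0 _)
        rw [hH2 0 h0 x hx h1, hm]
        rcases le_total (l (π x)) (2 / 3) with h2 | h2
        · rw [hψ2 _ (hπ.2 hx) h1 h2, hq1 x hx (by linarith)]
        · have h4 : x ∈ {x | x ∈ X ∧ 0 < l (π x)} := ⟨hx, by linarith⟩
          rw [hkr _ h2, hK3 x h4, hψ3 _ h2]
    · intro x hx
      have h0 : (1 : ℝ) ∈ Icc (0 : ℝ) 1 := ⟨zero_le_one, le_rfl⟩
      change H 1 x = x
      rcases le_total (l (π x)) (1 / 3) with h1 | h1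
      · rw [hH1 1 x h1]
      · have hm : max 1 (k (π x)) = 1 := max_eq_left (hk1 _)
        have h4 : x ∈ {x | x ∈ X ∧ 0 < l (π x)} := ⟨hx, by linarith⟩
        rw [hH2 1 h0 x hx h1, hm, hK4 x h4]
  obtain ⟨y0, hy0, hY0⟩ := hY
  refine ⟨ψ y0, hψm hy0, ?_⟩
  exact hH.symm.trans ((hY0.pre hπ).post ⟨hψc, hψm⟩)

end Pool.Agent.MP_c984cf_ag_N5
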