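import Pool.Agent.Lib.MP_c984cf_ag_N5.SDefs

/-!
# Contractible hypersurfaces of log-general type in dimension five: the map `rho`
-/

set_option autoImplicit false

noncomputable section

namespace Pool.Agent.MP_c984cf_ag_N5

open Set Filter Topology

private theorem Rho_xx : Continuous xx := by
  unfold xx
  fun_prop

private theorem Rho_yy : Continuous yy := by
  unfold yy
  fun_prop

private theorem Rho_ddy : Continuous fun g : C4 => dd (yy g) := dd_continuous.comp Rho_yy

private theorem Rho_cut : ContinuousOn cut Sm := by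
  have h1 : ContinuousOn (fun g : C4 => ((xx g).re - 1 / 2) / dd (yy g)) Sm :=
    ContinuousOn.div ((Complex.continuous_re.comp Rho_xx).sub continuous_const).continuousOn
      Rho_ddy.continuousOn fun g hg => hg.2.ne'
  have h2 : Continuous fun t : ℝ => max 0 (min 1 (1 / 2 + t)) := by fun_prop
  exact h2.comp_continuousOn h1

private theorem Rho_prod {g : C4} (hg : g ∈ Sm) : g.2.1 * g.2.2.2 = 1 - yy g := (S_y hg.1).symm

private theorem Rho_log : ContinuousOn (fun g : C4 => Complex.log (g.2.1 * g.2.2.2)) Sm := by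
  refine ContinuousOn.clog (by fun_prop) fun g hg => ?_
  rw [Rho_prod hg]
  exact dd_slit hg.2

private theorem Rho_ne {g : C4} (hg : g ∈ Sm) : g.2.1 ≠ 0 := by
  intro h
  have h1 := Rho_prod hg
  rw [h, zero_mul] at h1
  exact dd_ne_one hg.2 h1.symm

private theorem Rho_eq {g : C4} (hg : 0 < dd (yy g)) :
    rho g = g.2.1 * Complex.exp (-((1 - cut g : ℝ) : ℂ) * Complex.log (g.2.1 * g.2.2.2)) := by
  unfold rho
  rw [if_neg hg.ne']

private theorem Rho_T1_ne {g : C4} (hg : g ∈ T1) : g.2.1 ≠ 0 := by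
  intro h
  have h1 : xx g = 0 := by
    unfold xx
    rw [h]
    ring
  have h2 := hg.2.2
  rw [h1, sub_zero, Complex.one_re] at h2
  linarith [dd_nonneg (yy g)]

private theorem Rho_T0_ne {g : C4} (hg : g ∈ T0) : g.2.2.2 ≠ 0 := by
  intro h
  have h1 : 1 - xx g = 0 := by
    rw [S_x hg.1, h]
    ring
  have h3 : xx g = 1 := by linear_combination -h1
  have h2 := hg.2.2
  rw [h3, Complex.one_re] at h2
  linarith [dd_nonneg (yy g)]

/-- Proof. If `dd y = 0`, `Re x < 1 / 2`. If `0 < dd y`: `(Re x - 1 / 2) / dd y < - 1 / 2`, so `cut = 0` and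
`rho = g₂ exp (- log (g₂ g₄)) = g₂ / (g₂ g₄)` (`g₂ g₄ = 1 - y ≠ 0`). -/
theorem rho_T0 {g : C4} (hg : g ∈ T0) : rho g = (g.2.2.2)⁻¹ := by
  obtain ⟨hS, h1, h2⟩ := hg
  rcases eq_or_lt_of_le (dd_nonneg (yy g)) with h | h
  · unfold rho
    rw [if_pos h.symm, if_pos]
    rw [← h] at h2
    linarith
  · have h3 : ((xx g).re - 1 / 2) / dd (yy g) < -(1 / 2) := by
      rw [div_lt_iff₀ h]
      linarith
    have h4 : cut g = 0 := by
      unfold cut
      refine max_eq_left ((min_le_right _ _).trans ?_)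
      linarith
    have h5 := Rho_prod ⟨hS, h⟩
    have h6 : g.2.1 * g.2.2.2 ≠ 0 := by
      rw [h5]
      exact dd_ne_one h
    rw [Rho_eq h, h4]
    have h7 : -((1 - 0 : ℝ) : ℂ) * Complex.log (g.2.1 * g.2.2.2) =
        -Complex.log (g.2.1 * g.2.2.2) := by
      push_cast
      ring
    rw [h7, Complex.exp_neg, Complex.exp_log h6]
    have h8 : g.2.1 ≠ 0 := left_ne_zero_of_mul h6
    have h9 : g.2.2.2 ≠ 0 := right_ne_zero_of_mul h6
    field_simp

/-- Proof. If `dd y = 0`, `1 / 2 < Re x`. If `0 < dd y`: `1 / 2 < (Re x - 1 / 2) / dd y`, so `cut = 1`. -/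
theorem rho_T1 {g : C4} (hg : g ∈ T1) : rho g = g.2.1 := by
  obtain ⟨hS, h1, h2⟩ := hg
  rw [Complex.sub_re, Complex.one_re] at h2
  rcases eq_or_lt_of_le (dd_nonneg (yy g)) with h | h
  · unfold rho
    rw [if_pos h.symm, if_neg]
    rw [← h] at h2
    linarith
  · have h3 : 1 / 2 < ((xx g).re - 1 / 2) / dd (yy g) := by
      rw [lt_div_iff₀ h]
      linarith
    have h4 : cut g = 1 := by
      unfold cut
      rw [min_eq_left (by linarith)]
      exact max_eq_right zero_le_one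
    rw [Rho_eq h, h4, sub_self, Complex.ofReal_zero, neg_zero, zero_mul, Complex.exp_zero,
      mul_one]

/-- Proof. `cut` is continuous on `Sm`, `g₂ g₄ = 1 - y` is in the slit plane, `g₂ ≠ 0`. -/
theorem rho_Sm : MapC Sm Cx rho := by
  refine ⟨?_, ?_⟩
  · have h1 : ContinuousOn (fun g : C4 => g.2.1 *
        Complex.exp (-((1 - cut g : ℝ) : ℂ) * Complex.log (g.2.1 * g.2.2.2))) Sm := by
      refine ContinuousOn.mul (by fun_prop) (ContinuousOn.cexp (ContinuousOn.mul ?_ Rho_log))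
      exact (Complex.continuous_ofReal.comp_continuousOn (continuousOn_const.sub Rho_cut)).neg
    exact h1.congr fun g hg => Rho_eq hg.2
  · intro g hg
    change rho g ≠ 0
    rw [Rho_eq hg.2]
    exact mul_ne_zero (Rho_ne hg) (Complex.exp_ne_zero _)

/-- Proof. `T0`, `T1`, `Sm` are open in `Aa` (strict inequalities between continuous functions); use `rho_T0`
(`g₄ ≠ 0` on `T0` as `1 - x = g₃ g₄³ ≠ 0`), `rho_T1` (`g₂ ≠ 0` on `T1` as `x = g₁ g₂² ≠ 0`), `rho_Sm`. -/
theorem rho_mapC : MapC Aa Cx rho := by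
  have c1 : ContinuousOn rho T1 := by
    have h1 : ContinuousOn (fun g : C4 => g.2.1) T1 := by fun_prop
    exact h1.congr fun g hg => rho_T1 hg
  have c0 : ContinuousOn rho T0 := by
    have h1 : ContinuousOn (fun g : C4 => (g.2.2.2)⁻¹) T0 :=
      ContinuousOn.inv₀ (by fun_prop) fun g hg => Rho_T0_ne hg
    exact h1.congr fun g hg => rho_T0 hg
  have hAS : ∀ g ∈ Aa, g ∈ S := by
    rintro g (h | h | h)
    · exact h.1
    · exact h.1
    · exact h.1
  have hre : Continuous fun g : C4 => 2 * (xx g).re :=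
    continuous_const.mul (Complex.continuous_re.comp Rho_xx)
  have hre1 : Continuous fun g : C4 => 2 * (1 - xx g).re :=
    continuous_const.mul (Complex.continuous_re.comp (continuous_const.sub Rho_xx))
  refine ⟨?_, ?_⟩
  · rintro g (h | h | h)
    · refine (c1 g h).mono_of_mem_nhdsWithin ?_
      have e1 : {g : C4 | dd (yy g) < 1} ∈ 𝓝 g :=
        (isOpen_lt Rho_ddy continuous_const).mem_nhds h.2.1
      have e2 : {g : C4 | 2 * (1 - xx g).re < 1 - dd (yy g)} ∈ 𝓝 g :=
        (isOpen_lt hre1 (continuous_const.sub Rho_ddy)).mem_nhds h.2.2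
      filter_upwards [self_mem_nhdsWithin, mem_nhdsWithin_of_mem_nhds e1,
        mem_nhdsWithin_of_mem_nhds e2] with k k1 k2 k3
      exact ⟨hAS k k1, k2, k3⟩
    · refine (c0 g h).mono_of_mem_nhdsWithin ?_
      have e1 : {g : C4 | dd (yy g) < 1} ∈ 𝓝 g :=
        (isOpen_lt Rho_ddy continuous_const).mem_nhds h.2.1
      have e2 : {g : C4 | 2 * (xx g).re < 1 - dd (yy g)} ∈ 𝓝 g :=
        (isOpen_lt hre (continuous_const.sub Rho_ddy)).mem_nhds h.2.2
      filter_upwards [self_mem_nhdsWithin, mem_nhdsWithin_of_mem_nhds e1,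
        mem_nhdsWithin_of_mem_nhds e2] with k k1 k2 k3
      exact ⟨hAS k k1, k2, k3⟩
    · refine (rho_Sm.1 g h).mono_of_mem_nhdsWithin ?_
      have e1 : {g : C4 | 0 < dd (yy g)} ∈ 𝓝 g :=
        (isOpen_lt continuous_const Rho_ddy).mem_nhds h.2
      filter_upwards [self_mem_nhdsWithin, mem_nhdsWithin_of_mem_nhds e1] with k k1 k2
      exact ⟨hAS k k1, k2⟩
  · rintro g (h | h | h)
    · change rho g ≠ 0
      rw [rho_T1 h]
      exact Rho_T1_ne h
    · change rho g ≠ 0
      rw [rho_T0 h]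
      exact inv_ne_zero (Rho_T0_ne h)
    · exact rho_Sm.2 h

/-- Proof. `(s, g) ↦ g₂ exp (- (1 - s) (1 - cut g) log (g₂ g₄))`. -/
theorem rho_hty : Hty Sm Cx rho (fun g => g.2.1) := by
  refine ⟨fun s g => g.2.1 *
    Complex.exp (-(((1 - s) * (1 - cut g) : ℝ) : ℂ) * Complex.log (g.2.1 * g.2.2.2)),
    ?_, ?_, ?_, ?_⟩
  · have hm : MapsTo (fun z : ℝ × C4 => z.2) (Icc 0 1 ×ˢ Sm) Sm := fun z hz => hz.2
    have h1 : ContinuousOn (fun z : ℝ × C4 => cut z.2) (Icc 0 1 ×ˢ Sm) :=
      Rho_cut.comp continuousOn_snd hm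
    have h2 : ContinuousOn (fun z : ℝ × C4 => Complex.log (z.2.2.1 * z.2.2.2.2))
        (Icc 0 1 ×ˢ Sm) := Rho_log.comp continuousOn_snd hm
    have h3 : ContinuousOn (fun z : ℝ × C4 => (1 - z.1) * (1 - cut z.2)) (Icc 0 1 ×ˢ Sm) :=
      (continuousOn_const.sub continuousOn_fst).mul (continuousOn_const.sub h1)
    refine ContinuousOn.mul (by fun_prop) (ContinuousOn.cexp (ContinuousOn.mul ?_ h2))
    exact (Complex.continuous_ofReal.comp_continuousOn h3).neg
  · intro s _ g hg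
    exact mul_ne_zero (Rho_ne hg) (Complex.exp_ne_zero _)
  · intro g hg
    change g.2.1 * Complex.exp (-(((1 - (0 : ℝ)) * (1 - cut g) : ℝ) : ℂ) *
      Complex.log (g.2.1 * g.2.2.2)) = rho g
    rw [Rho_eq hg.2, sub_zero, one_mul]
  · intro g _
    change g.2.1 * Complex.exp (-(((1 - (1 : ℝ)) * (1 - cut g) : ℝ) : ℂ) *
      Complex.log (g.2.1 * g.2.2.2)) = g.2.1
    rw [sub_self, zero_mul, Complex.ofReal_zero, neg_zero, zero_mul, Complex.exp_zero, mul_one]

end Pool.Agent.MP_c984cf_ag_N5
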