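import Pool.Agent.Lib.MP_c984cf_ag_N5.Rho
import Pool.Agent.Lib.MP_c984cf_ag_N5.BbE

/-!
# Contractible hypersurfaces of log-general type in dimension five: `rho` on the convex piece, formula
-/

set_option autoImplicit false

noncomputable section

namespace Pool.Agent.MP_c984cf_ag_N5

open Set Filter Topology

/-- `cut` on the intersection, extended by `0` and `1` to `Im y = 0` -/
def cu (g : C4) : ℝ := if (yy g).im = 0 then (if (xx g).re < 1 / 2 then 0 else 1) else cut g

private theorem RhoA_xx : Continuous xx := by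
  unfold xx
  fun_prop

private theorem RhoA_yy : Continuous yy := by
  unfold yy
  fun_prop

private theorem RhoA_dd {g : C4} (hg : g ∈ Bb) : dd (yy g) = |(yy g).im| := by
  unfold dd
  rw [max_eq_left (by linarith [hg.2.2.2]), add_zero]

private theorem RhoA_zero {k : C4} (hk : k ∈ Bb) (h : |(yy k).im| < 1 - 2 * (xx k).re) :
    cu k = 0 := by
  unfold cu
  split_ifs with h1 h2
  · rfl
  · rw [h1, abs_zero] at h
    exact absurd (by linarith) h2
  · have h3 : 0 < |(yy k).im| := abs_pos.2 h1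
    have h4 : ((xx k).re - 1 / 2) / |(yy k).im| ≤ -(1 / 2) := by
      rw [div_le_iff₀ h3]
      linarith
    unfold cut
    rw [RhoA_dd hk]
    refine max_eq_left ((min_le_right _ _).trans ?_)
    linarith

private theorem RhoA_one {k : C4} (hk : k ∈ Bb) (h : |(yy k).im| < 2 * (xx k).re - 1) :
    cu k = 1 := by
  unfold cu
  split_ifs with h1 h2
  · rw [h1, abs_zero] at h
    linarith
  · rfl
  · have h3 : 0 < |(yy k).im| := abs_pos.2 h1
    have h4 : 1 / 2 ≤ ((xx k).re - 1 / 2) / |(yy k).im| := by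
      rw [le_div_iff₀ h3]
      linarith
    unfold cut
    rw [RhoA_dd hk, min_eq_left (by linarith)]
    exact max_eq_right zero_le_one

private theorem RhoA_cut {g : C4} (h : 0 < dd (yy g)) : ContinuousAt cut g := by
  have h1 : ContinuousAt (fun g : C4 => ((xx g).re - 1 / 2) / dd (yy g)) g :=
    ContinuousAt.div ((Complex.continuous_re.comp RhoA_xx).sub continuous_const).continuousAt
      (dd_continuous.comp RhoA_yy).continuousAt h.ne'
  have h2 : Continuous fun t : ℝ => max 0 (min 1 (1 / 2 + t)) := by fun_prop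
  exact ContinuousAt.comp (f := fun g : C4 => ((xx g).re - 1 / 2) / dd (yy g))
    (g := fun t : ℝ => max 0 (min 1 (1 / 2 + t))) h2.continuousAt h1

private theorem RhoA_half {g : C4} (hg : g ∈ Aa ∩ Bb) (h : (yy g).im = 0) :
    (xx g).re ≠ 1 / 2 := by
  intro h1
  refine (mem_inter hg.2).1 hg.1 ?_
  unfold ee
  rw [h, h1, sub_self, Complex.ofReal_zero, zero_mul, add_zero, neg_zero]

/-- Proof. On `Aa ∩ Bb`, `dd y = |Im y|`, `cut = max 0 (min 1 (1/2 + (Re x - 1/2) / |Im y|))`; near a point with `Im y = 0`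
(where `Re x ≠ 1/2`) it is constant `0` or `1`. -/
theorem cu_cont : ContinuousOn cu (Aa ∩ Bb) := by
  have him : Continuous fun k : C4 => (yy k).im := Complex.continuous_im.comp RhoA_yy
  have hre : Continuous fun k : C4 => (xx k).re := Complex.continuous_re.comp RhoA_xx
  have hab : Continuous fun k : C4 => |(yy k).im| := him.abs
  intro g hg
  by_cases h : (yy g).im = 0
  · rcases lt_or_gt_of_ne (RhoA_half hg h) with h2 | h2
    · have e : {k : C4 | |(yy k).im| < 1 - 2 * (xx k).re} ∈ 𝓝 g := by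
        refine (isOpen_lt hab (continuous_const.sub (continuous_const.mul hre))).mem_nhds ?_
        change |(yy g).im| < 1 - 2 * (xx g).re
        rw [h, abs_zero]
        linarith
      have e2 : cu =ᶠ[𝓝[Aa ∩ Bb] g] fun _ => (0 : ℝ) := by
        filter_upwards [self_mem_nhdsWithin, mem_nhdsWithin_of_mem_nhds e] with k k1 k2
        exact RhoA_zero k1.2 k2
      exact continuousWithinAt_const.congr_of_eventuallyEq e2 (e2.self_of_nhdsWithin hg)
    · have e : {k : C4 | |(yy k).im| < 2 * (xx k).re - 1} ∈ 𝓝 g := by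
        refine (isOpen_lt hab ((continuous_const.mul hre).sub continuous_const)).mem_nhds ?_
        change |(yy g).im| < 2 * (xx g).re - 1
        rw [h, abs_zero]
        linarith
      have e2 : cu =ᶠ[𝓝[Aa ∩ Bb] g] fun _ => (1 : ℝ) := by
        filter_upwards [self_mem_nhdsWithin, mem_nhdsWithin_of_mem_nhds e] with k k1 k2
        exact RhoA_one k1.2 k2
      exact continuousWithinAt_const.congr_of_eventuallyEq e2 (e2.self_of_nhdsWithin hg)
  · have e : {k : C4 | (yy k).im ≠ 0} ∈ 𝓝 g := (isOpen_ne_fun him continuous_const).mem_nhds h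
    have e2 : cu =ᶠ[𝓝 g] cut := by
      filter_upwards [e] with k k2
      unfold cu
      rw [if_neg k2]
    have h3 : 0 < dd (yy g) := by
      rw [RhoA_dd hg.2]
      exact abs_pos.2 h
    exact ((RhoA_cut h3).congr e2.symm).continuousWithinAt

/-- the nonvanishing factor: `y / (x (1 - x)) * exp ((2 + cu) log (y - 1))` has the logarithm `LL` -/
def LL (g : C4) : ℂ :=
  Complex.log (yy g) - Complex.log (xx g) - Complex.log (1 - xx g) +
    ((2 + cu g : ℝ) : ℂ) * Complex.log (yy g - 1)

theorem LL_cont : ContinuousOn LL (Aa ∩ Bb) := by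
  have h1 : ContinuousOn (fun g : C4 => Complex.log (yy g)) (Aa ∩ Bb) := by
    refine ContinuousOn.clog RhoA_yy.continuousOn fun g hg => ?_
    rw [Complex.mem_slitPlane_iff]
    exact Or.inl (by linarith [hg.2.2.2.2])
  have h2 : ContinuousOn (fun g : C4 => Complex.log (xx g)) (Aa ∩ Bb) := by
    refine ContinuousOn.clog RhoA_xx.continuousOn fun g hg => ?_
    rw [Complex.mem_slitPlane_iff]
    exact Or.inl hg.2.2.1
  have h3 : ContinuousOn (fun g : C4 => Complex.log (1 - xx g)) (Aa ∩ Bb) := by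
    refine ContinuousOn.clog (continuous_const.sub RhoA_xx).continuousOn fun g hg => ?_
    rw [Complex.mem_slitPlane_iff]
    refine Or.inl ?_
    rw [Complex.sub_re, Complex.one_re]
    linarith [hg.2.2.2.1]
  have h4 : ContinuousOn (fun g : C4 => Complex.log (yy g - 1)) (Aa ∩ Bb) := by
    refine ContinuousOn.clog (RhoA_yy.sub continuous_const).continuousOn fun g hg => ?_
    rw [Complex.mem_slitPlane_iff]
    refine Or.inl ?_
    rw [Complex.sub_re, Complex.one_re]
    linarith [hg.2.2.2.2]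
  have h5 : ContinuousOn (fun g : C4 => (2 + cu g : ℝ)) (Aa ∩ Bb) :=
    continuousOn_const.add cu_cont
  exact ((h1.sub h2).sub h3).add ((Complex.continuous_ofReal.comp_continuousOn h5).mul h4)

/-- the remaining factor -/
def uu (g : C4) : ℂ :=
  if (yy g).im < 0 then Complex.exp ((Real.pi * cu g : ℝ) * Complex.I)
  else Complex.exp (-((Real.pi * cu g : ℝ) * Complex.I))

private theorem RhoA_ne {g : C4} (hg : g ∈ Bb) :
    xx g ≠ 0 ∧ 1 - xx g ≠ 0 ∧ yy g ≠ 0 ∧ yy g - 1 ≠ 0 := by
  obtain ⟨_, h1, h2, h3⟩ := hg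
  refine ⟨?_, ?_, ?_, ?_⟩
  · intro h
    rw [h, Complex.zero_re] at h1
    exact lt_irrefl _ h1
  · intro h
    have h4 := congrArg Complex.re h
    rw [Complex.sub_re, Complex.one_re, Complex.zero_re] at h4
    linarith
  · intro h
    rw [h, Complex.zero_re] at h3
    linarith
  · intro h
    have h4 := congrArg Complex.re h
    rw [Complex.sub_re, Complex.one_re, Complex.zero_re] at h4
    linarith

private theorem RhoA_exp {g : C4} (hg : g ∈ Bb) : Complex.exp (LL g) =
    yy g / (xx g * (1 - xx g)) * Complex.exp (((2 + cu g : ℝ) : ℂ) * Complex.log (yy g - 1)) := by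
  obtain ⟨h1, h2, h3, _⟩ := RhoA_ne hg
  unfold LL
  rw [Complex.exp_add, Complex.exp_sub, Complex.exp_sub, Complex.exp_log h3, Complex.exp_log h1,
    Complex.exp_log h2, div_div]

private theorem RhoA_g2 {g : C4} (hg : g ∈ Bb) :
    g.2.1 = yy g * (1 - yy g) ^ 3 / (xx g * (1 - xx g)) :=
  (congrArg (fun z : C4 => z.2.1) (Bi_left hg)).symm

private theorem RhoA_g4 {g : C4} (hg : g ∈ Bb) :
    g.2.2.2 = xx g * (1 - xx g) / (yy g * (1 - yy g) ^ 2) :=
  (congrArg (fun z : C4 => z.2.2.2) (Bi_left hg)).symm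

private theorem RhoA_rho {g : C4} (hg : g ∈ Bb) (h : (yy g).im ≠ 0) : rho g =
    yy g / (xx g * (1 - xx g)) *
      Complex.exp (((2 + cu g : ℝ) : ℂ) * Complex.log (1 - yy g)) := by
  have h0 : dd (yy g) ≠ 0 := by
    rw [RhoA_dd hg]
    exact abs_ne_zero.2 h
  have h1 : cu g = cut g := by
    unfold cu
    rw [if_neg h]
  obtain ⟨_, _, _, h4⟩ := RhoA_ne hg
  have h5 : 1 - yy g ≠ 0 := fun h6 => h4 (by linear_combination -h6)
  have h6 : (1 - yy g) ^ 3 = Complex.exp (3 * Complex.log (1 - yy g)) := by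
    have h7 := Complex.exp_nat_mul (Complex.log (1 - yy g)) 3
    rw [Complex.exp_log h5] at h7
    rw [← h7]
    norm_num
  have h8 : ((2 + cut g : ℝ) : ℂ) * Complex.log (1 - yy g) = 3 * Complex.log (1 - yy g) +
      -((1 - cut g : ℝ) : ℂ) * Complex.log (1 - yy g) := by
    push_cast
    ring
  unfold rho
  rw [if_neg h0, ← S_y hg.1, RhoA_g2 hg, h6, h1, h8, Complex.exp_add]
  ring

private theorem RhoA_two_pi (c : ℝ) : Complex.exp (((2 + c : ℝ) : ℂ) * (Real.pi * Complex.I)) =
    Complex.exp ((Real.pi * c : ℝ) * Complex.I) := by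
  have h1 : ((2 + c : ℝ) : ℂ) * (Real.pi * Complex.I) = 2 * Real.pi * Complex.I +
      (Real.pi * c : ℝ) * Complex.I := by
    push_cast
    ring
  rw [h1, Complex.exp_add, Complex.exp_two_pi_mul_I, one_mul]

private theorem RhoA_two_pi' (c : ℝ) :
    Complex.exp (-(((2 + c : ℝ) : ℂ) * (Real.pi * Complex.I))) =
    Complex.exp (-((Real.pi * c : ℝ) * Complex.I)) := by
  rw [Complex.exp_neg, Complex.exp_neg, RhoA_two_pi]

private theorem RhoA_log_pos {y : ℂ} (h : 0 < y.im) :
    Complex.log (1 - y) = Complex.log (y - 1) - Real.pi * Complex.I := by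
  have h1 : 0 < (y - 1).im := by
    rw [Complex.sub_im, Complex.one_im, sub_zero]
    exact h
  have h2 := Complex.arg_neg_eq_arg_sub_pi_of_im_pos h1
  rw [neg_sub] at h2
  unfold Complex.log
  rw [h2, norm_sub_rev 1 y]
  push_cast
  ring

private theorem RhoA_log_neg {y : ℂ} (h : y.im < 0) :
    Complex.log (1 - y) = Complex.log (y - 1) + Real.pi * Complex.I := by
  have h1 : (y - 1).im < 0 := by
    rw [Complex.sub_im, Complex.one_im, sub_zero]
    exact h
  have h2 := Complex.arg_neg_eq_arg_add_pi_of_im_neg h1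
  rw [neg_sub] at h2
  unfold Complex.log
  rw [h2, norm_sub_rev 1 y]
  push_cast
  ring

/-- Proof. `g₂ = y (1 - y)³ / (x (1 - x))`, `g₄ = x (1 - x) / (y (1 - y)²)` (`Bi_left`). If `Im y ≠ 0`:
`rho = y / (x (1 - x)) * exp ((2 + cut) log (1 - y))` and `log (1 - y) = log (y - 1) - π i` for `0 < Im y`,
`log (y - 1) + π i` for `Im y < 0`; `exp (± 2 π i) = 1`. If `Im y = 0`: `Re x < 1/2`: `rho = 1 / g₄ = y (1 - y)² / (x (1 - x))`,
`cu = 0`; `1/2 < Re x` (`mem_inter`): `rho = g₂`, `cu = 1`, `(1 - y)³ = - (y - 1)³`. -/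
theorem rho_eq {g : C4} (hg : g ∈ Aa ∩ Bb) : rho g = Complex.exp (LL g) * uu g := by
  have hb := hg.2
  rw [RhoA_exp hb]
  rcases lt_trichotomy (yy g).im 0 with h | h | h
  · unfold uu
    rw [if_pos h, RhoA_rho hb h.ne, RhoA_log_neg h, mul_add, Complex.exp_add, RhoA_two_pi,
      mul_assoc]
  · obtain ⟨h1, h2, h3, h4⟩ := RhoA_ne hb
    have h5 : dd (yy g) = 0 := by rw [RhoA_dd hb, h, abs_zero]
    have h6 : ¬(yy g).im < 0 := by rw [h]; exact lt_irrefl _
    have h7 : 1 - yy g ≠ 0 := fun h6 => h4 (by linear_combination -h6)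
    unfold uu rho cu
    rw [if_neg h6, if_pos h5, if_pos h]
    split_ifs with h8
    · rw [RhoA_g4 hb]
      have h9 := Complex.exp_nat_mul (Complex.log (yy g - 1)) 2
      rw [Complex.exp_log h4] at h9
      have h10 : ((2 + 0 : ℝ) : ℂ) * Complex.log (yy g - 1) =
          ((2 : ℕ) : ℂ) * Complex.log (yy g - 1) := by
        push_cast
        ring
      rw [h10, h9, mul_zero, Complex.ofReal_zero, zero_mul, neg_zero, Complex.exp_zero, mul_one,
        inv_div]
      ring
    · rw [RhoA_g2 hb]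
      have h9 := Complex.exp_nat_mul (Complex.log (yy g - 1)) 3
      rw [Complex.exp_log h4] at h9
      have h10 : ((2 + 1 : ℝ) : ℂ) * Complex.log (yy g - 1) =
          ((3 : ℕ) : ℂ) * Complex.log (yy g - 1) := by
        push_cast
        ring
      rw [h10, h9, mul_one, Complex.exp_neg, Complex.exp_pi_mul_I]
      have h11 : ((-1 : ℂ))⁻¹ = -1 := by norm_num
      rw [h11]
      ring
  · unfold uu
    rw [if_neg (not_lt.2 h.le), RhoA_rho hb h.ne', RhoA_log_pos h,
      mul_sub ((2 + cu g : ℝ) : ℂ) (Complex.log (yy g - 1)) (Real.pi * Complex.I),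
      sub_eq_add_neg (((2 + cu g : ℝ) : ℂ) * Complex.log (yy g - 1)), Complex.exp_add,
      RhoA_two_pi', mul_assoc]

end Pool.Agent.MP_c984cf_ag_N5
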