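import Pool.Agent.Lib.MP_c984cf_ag_N5.RhoA

/-!
# Contractible hypersurfaces of log-general type in dimension five: `rho` on the convex piece
-/

set_option autoImplicit false

noncomputable section

namespace Pool.Agent.MP_c984cf_ag_N5

open Set Filter Topology

private theorem RhoB_cu01 (g : C4) : 0 ≤ cu g ∧ cu g ≤ 1 := by
  unfold cu
  split_ifs
  · exact ⟨le_rfl, zero_le_one⟩
  · exact ⟨zero_le_one, le_rfl⟩
  · unfold cut
    exact ⟨le_max_left _ _, max_le zero_le_one (min_le_left _ _)⟩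

private theorem RhoB_sin (g : C4) : 0 ≤ Real.sin (Real.pi * cu g) := by
  obtain ⟨h1, h2⟩ := RhoB_cu01 g
  have hp := Real.pi_pos
  refine Real.sin_nonneg_of_nonneg_of_le_pi (by positivity) ?_
  calc Real.pi * cu g ≤ Real.pi * 1 := mul_le_mul_of_nonneg_left h2 hp.le
    _ = Real.pi := mul_one _

private theorem RhoB_uu_ne (g : C4) : uu g ≠ 0 := by
  unfold uu
  split_ifs <;> exact Complex.exp_ne_zero _

private theorem RhoB_ee_re (g : C4) : (ee g).re = 1 / 2 - (xx g).re := by
  unfold ee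
  simp

private theorem RhoB_ee_im (g : C4) : (ee g).im = -(yy g).im := by
  unfold ee
  simp

private theorem RhoB_comb {g : C4} (hg : g ∈ Aa ∩ Bb) {s : ℝ} (h0 : 0 ≤ s) (h1 : s ≤ 1) :
    ((1 - s : ℝ) : ℂ) * uu g + (s : ℂ) * ee g ≠ 0 := by
  have hee : ee g ≠ 0 := (mem_inter hg.2).1 hg.1
  have hs := RhoB_sin g
  have hre : (((1 - s : ℝ) : ℂ) * uu g + (s : ℂ) * ee g).re =
      (1 - s) * (uu g).re + s * (1 / 2 - (xx g).re) := by
    rw [Complex.add_re, Complex.re_ofReal_mul, Complex.re_ofReal_mul, RhoB_ee_re]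
  have him : (((1 - s : ℝ) : ℂ) * uu g + (s : ℂ) * ee g).im =
      (1 - s) * (uu g).im + s * -(yy g).im := by
    rw [Complex.add_im, Complex.im_ofReal_mul, Complex.im_ofReal_mul, RhoB_ee_im]
  rcases lt_trichotomy (yy g).im 0 with hy | hy | hy
  · -- lower side
    intro hc
    have hu : (uu g).im = Real.sin (Real.pi * cu g) := by
      unfold uu
      rw [if_pos hy, Complex.exp_ofReal_mul_I_im]
    rw [hc, Complex.zero_im, hu] at him
    have h2 : 0 ≤ (1 - s) * Real.sin (Real.pi * cu g) := mul_nonneg (by linarith) hs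
    rcases eq_or_lt_of_le h0 with h3 | h3
    · rw [← h3] at hc
      simp only [sub_zero, Complex.ofReal_one, one_mul, Complex.ofReal_zero, zero_mul,
        add_zero] at hc
      exact RhoB_uu_ne g hc
    · have h4 : 0 < s * -(yy g).im := mul_pos h3 (by linarith)
      linarith
  · -- real `y`
    have hx : (xx g).re ≠ 1 / 2 := by
      intro hx
      apply hee
      apply Complex.ext
      · rw [RhoB_ee_re, hx, sub_self, Complex.zero_re]
      · rw [RhoB_ee_im, hy, neg_zero, Complex.zero_im]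
    intro hc
    rcases lt_or_gt_of_ne hx with hx | hx
    · have hu : uu g = 1 := by
        unfold uu cu
        rw [if_neg (by rw [hy]; exact lt_irrefl 0), if_pos hy, if_pos hx]
        simp
      rw [hc, hu, Complex.zero_re, Complex.one_re] at hre
      rcases eq_or_lt_of_le h0 with h3 | h3
      · rw [← h3] at hre
        linarith
      · have h4 : 0 < s * (1 / 2 - (xx g).re) := mul_pos h3 (by linarith)
        linarith
    · have hu : uu g = -1 := by
        unfold uu cu
        rw [if_neg (by rw [hy]; exact lt_irrefl 0), if_pos hy, if_neg (not_lt.2 hx.le), mul_one,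
          Complex.exp_neg, Complex.exp_pi_mul_I]
        norm_num
      rw [hc, hu, Complex.zero_re, Complex.neg_re, Complex.one_re] at hre
      rcases eq_or_lt_of_le h0 with h3 | h3
      · rw [← h3] at hre
        linarith
      · have h4 : s * (1 / 2 - (xx g).re) < 0 := mul_neg_of_pos_of_neg h3 (by linarith)
        linarith
  · -- upper side
    intro hc
    have hu : (uu g).im = -Real.sin (Real.pi * cu g) := by
      unfold uu
      rw [if_neg (not_lt.2 hy.le), ← neg_mul, ← Complex.ofReal_neg,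
        Complex.exp_ofReal_mul_I_im, Real.sin_neg]
    rw [hc, Complex.zero_im, hu] at him
    have h2 : 0 ≤ (1 - s) * Real.sin (Real.pi * cu g) := mul_nonneg (by linarith) hs
    rcases eq_or_lt_of_le h0 with h3 | h3
    · rw [← h3] at hc
      simp only [sub_zero, Complex.ofReal_one, one_mul, Complex.ofReal_zero, zero_mul,
        add_zero] at hc
      exact RhoB_uu_ne g hc
    · have h4 : 0 < s * (yy g).im := mul_pos h3 hy
      linarith

private theorem RhoB_ee_cont : Continuous ee := by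
  unfold ee xx yy
  fun_prop

/-- The segment from `u` to `ee g` avoids `0`. Proof. `u = uu g`, factor out `exp LL`. `0 < Im y`:
`Im u ≤ 0` and `Im (ee g) < 0`; `Im y < 0`: `0 ≤ Im u`, `0 < Im (ee g)` (`0 ≤ cu ≤ 1`); `Im y =
0`: `u = 1`, `ee g > 0` if `Re x < 1/2`; `u = -1`, `ee g < 0` if `1/2 < Re x`. -/
theorem seg {g : C4} (hg : g ∈ Aa ∩ Bb) {s : ℝ} (h0 : 0 ≤ s) (h1 : s ≤ 1) :
    (1 - s : ℝ) * rho g + (s : ℝ) * (Complex.exp (LL g) * ee g) ≠ 0 := by
  have h2 : ((1 - s : ℝ) : ℂ) * rho g + (s : ℂ) * (Complex.exp (LL g) * ee g) =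
      Complex.exp (LL g) * (((1 - s : ℝ) : ℂ) * uu g + (s : ℂ) * ee g) := by
    rw [rho_eq hg]
    ring
  rw [h2]
  exact mul_ne_zero (Complex.exp_ne_zero _) (RhoB_comb hg h0 h1)

/-- Proof. `rho ~ exp LL * ee` by the segment (`seg`, `rho_mapC`, `LL_cont`); `exp LL * ee ~ ee` by
`exp ((1 - s) LL) * ee`. -/
theorem rho_ee : Hty (Aa ∩ Bb) Cx rho ee := by
  have hr : ContinuousOn (fun z : ℝ × C4 => rho z.2) (Icc 0 1 ×ˢ (Aa ∩ Bb)) :=
    rho_mapC.1.comp continuousOn_snd fun z hz => hz.2.1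
  have hL : ContinuousOn (fun z : ℝ × C4 => LL z.2) (Icc 0 1 ×ˢ (Aa ∩ Bb)) :=
    LL_cont.comp continuousOn_snd fun z hz => hz.2
  have he : ContinuousOn (fun z : ℝ × C4 => ee z.2) (Icc 0 1 ×ˢ (Aa ∩ Bb)) :=
    (RhoB_ee_cont.comp continuous_snd).continuousOn
  have hs1 : ContinuousOn (fun z : ℝ × C4 => ((1 - z.1 : ℝ) : ℂ)) (Icc 0 1 ×ˢ (Aa ∩ Bb)) :=
    (Complex.continuous_ofReal.comp (continuous_const.sub continuous_fst)).continuousOn
  have hs : ContinuousOn (fun z : ℝ × C4 => ((z.1 : ℝ) : ℂ)) (Icc 0 1 ×ˢ (Aa ∩ Bb)) :=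
    (Complex.continuous_ofReal.comp continuous_fst).continuousOn
  have h1 : Hty (Aa ∩ Bb) Cx rho (fun g => Complex.exp (LL g) * ee g) := by
    refine ⟨fun s g => ((1 - s : ℝ) : ℂ) * rho g + (s : ℂ) * (Complex.exp (LL g) * ee g),
      (hs1.mul hr).add (hs.mul (hL.cexp.mul he)), fun s hs g hg => seg hg hs.1 hs.2,
      fun g _ => ?_, fun g _ => ?_⟩
    · simp
    · simp
  have h2 : Hty (Aa ∩ Bb) Cx (fun g => Complex.exp (LL g) * ee g) ee := by
    refine ⟨fun s g => Complex.exp (((1 - s : ℝ) : ℂ) * LL g) * ee g,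
      (hs1.mul hL).cexp.mul he,
      fun s _ g hg => mul_ne_zero (Complex.exp_ne_zero _) ((mem_inter hg.2).1 hg.1),
      fun g _ => ?_, fun g _ => ?_⟩
    · simp
    · simp
  exact h1.trans h2

end Pool.Agent.MP_c984cf_ag_N5
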