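import Pool.Agent.Lib.MP_c984cf_ag_N5.SmO

/-!
# Contractible hypersurfaces of log-general type in dimension five: `S` minus `{y ∈ [1, ∞)}`
-/

set_option autoImplicit false

noncomputable section

namespace Pool.Agent.MP_c984cf_ag_N5

open Set Filter Topology

/-- the factor `1 - y` -/
private def SmE_w (z : ℂ × ℂ) : ℂ := 1 - z.1 * z.2 * (1 - z.2)

/-- the inverse map -/
private def SmE_inv (z : ℂ × ℂ) : C4 :=
  (z.2 / (z.1 * SmE_w z ^ 3) ^ 2, z.1 * SmE_w z ^ 3,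
    (1 - z.2) / ((z.1 * SmE_w z ^ 2)⁻¹) ^ 3, (z.1 * SmE_w z ^ 2)⁻¹)

private theorem SmE_ne {g : C4} (hg : g ∈ Sm) : g.2.1 ≠ 0 ∧ g.2.2.2 ≠ 0 := by
  have h1 := S_y hg.1
  have h2 := dd_ne_one hg.2
  rw [h1] at h2
  exact ⟨left_ne_zero_of_mul h2, right_ne_zero_of_mul h2⟩

private theorem SmE_y {g : C4} (hg : g ∈ Sm) :
    (g.2.1 ^ 2 * g.2.2.2 ^ 3)⁻¹ * xx g * (1 - xx g) = yy g := by
  obtain ⟨h1, h2⟩ := SmE_ne hg
  rw [S_x hg.1]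
  unfold xx yy
  field_simp

private theorem SmE_w_ne {z : ℂ × ℂ} (hz : z ∈ Oh) : SmE_w z ≠ 0 := dd_ne_one hz.2

private theorem SmE_prod {z : ℂ × ℂ} (hz : z ∈ Oh) :
    (z.1 * SmE_w z ^ 3) ^ 2 * ((z.1 * SmE_w z ^ 2)⁻¹) ^ 3 = z.1⁻¹ := by
  have h1 : z.1 ≠ 0 := hz.1
  have h2 := SmE_w_ne hz
  field_simp

private theorem SmE_yinv {z : ℂ × ℂ} (hz : z ∈ Oh) :
    yy (SmE_inv z) = z.1 * z.2 * (1 - z.2) := by
  have h1 : z.1 ≠ 0 := hz.1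
  have h2 := SmE_w_ne hz
  have h3 : yy (SmE_inv z) = z.2 / (z.1 * SmE_w z ^ 3) ^ 2 *
      ((1 - z.2) / ((z.1 * SmE_w z ^ 2)⁻¹) ^ 3) := rfl
  rw [h3, div_mul_div_comm, SmE_prod hz, div_inv_eq_mul]
  ring

private theorem SmE_xinv {z : ℂ × ℂ} (hz : z ∈ Oh) : xx (SmE_inv z) = z.2 := by
  have h1 : z.1 ≠ 0 := hz.1
  have h2 := SmE_w_ne hz
  exact div_mul_cancel₀ _ (pow_ne_zero _ (mul_ne_zero h1 (pow_ne_zero _ h2)))

private theorem SmE_memS {z : ℂ × ℂ} (hz : z ∈ Oh) : SmE_inv z ∈ S := by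
  have h1 : z.1 ≠ 0 := hz.1
  have h2 := SmE_w_ne hz
  constructor
  · have h3 : tau (SmE_inv z) = xx (SmE_inv z) +
        (1 - z.2) / ((z.1 * SmE_w z ^ 2)⁻¹) ^ 3 * ((z.1 * SmE_w z ^ 2)⁻¹) ^ 3 := rfl
    rw [h3, SmE_xinv hz, div_mul_cancel₀ _ (pow_ne_zero _ (inv_ne_zero
      (mul_ne_zero h1 (pow_ne_zero _ h2))))]
    ring
  · have h3 : cc (SmE_inv z) = yy (SmE_inv z) +
        z.1 * SmE_w z ^ 3 * (z.1 * SmE_w z ^ 2)⁻¹ := rfl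
    have h4 : z.1 * SmE_w z ^ 3 * (z.1 * SmE_w z ^ 2)⁻¹ = SmE_w z := by
      field_simp
    rw [h3, SmE_yinv hz, h4]
    unfold SmE_w
    ring

private theorem SmE_contw : Continuous SmE_w := by
  unfold SmE_w
  fun_prop

private theorem SmE_contInv : ContinuousOn SmE_inv Oh := by
  have hw : ContinuousOn SmE_w Oh := SmE_contw.continuousOn
  have h1 : ContinuousOn (fun z : ℂ × ℂ => z.1) Oh := continuousOn_fst
  have h2 : ContinuousOn (fun z : ℂ × ℂ => z.2) Oh := continuousOn_snd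
  have ha : ContinuousOn (fun z : ℂ × ℂ => z.1 * SmE_w z ^ 3) Oh := h1.mul (hw.pow 3)
  have hb : ContinuousOn (fun z : ℂ × ℂ => (z.1 * SmE_w z ^ 2)⁻¹) Oh :=
    (h1.mul (hw.pow 2)).inv₀ fun z hz => mul_ne_zero hz.1 (pow_ne_zero _ (SmE_w_ne hz))
  refine (h2.div (ha.pow 2) fun z hz => pow_ne_zero _ (mul_ne_zero hz.1
    (pow_ne_zero _ (SmE_w_ne hz)))).prodMk (ha.prodMk (((continuousOn_const.sub h2).div
      (hb.pow 3) fun z hz => pow_ne_zero _ (inv_ne_zero (mul_ne_zero hz.1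
        (pow_ne_zero _ (SmE_w_ne hz))))).prodMk hb))

/-- Proof. Inverse: `y = h x (1 - x)` (`1 - y ≠ 0` by `dd_ne_one`), `g₄ = (h (1 - y)²)⁻¹`, `g₂ = h (1 - y)³`,
`g₁ = x / g₂²`, `g₃ = (1 - x) / g₄³`. On `Sm`: `g₂ g₄ = 1 - y ≠ 0`, `h = 1 / (g₂² g₄³)`, `h x (1 - x) = g₁ g₃ = y`
(`S_x`). `Eqv.of_inv`. -/
theorem Sm_coord : Eqv Sm Oh (fun g => ((g.2.1 ^ 2 * g.2.2.2 ^ 3)⁻¹, xx g)) := by
  refine Eqv.of_inv (g := SmE_inv) ⟨?_, ?_⟩ ⟨SmE_contInv, ?_⟩ ?_ ?_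
  · have h1 : ContinuousOn (fun g : C4 => (g.2.1 ^ 2 * g.2.2.2 ^ 3)⁻¹) Sm := by
      refine ContinuousOn.inv₀ (by fun_prop) fun g hg => ?_
      obtain ⟨h1, h2⟩ := SmE_ne hg
      exact mul_ne_zero (pow_ne_zero _ h1) (pow_ne_zero _ h2)
    have h2 : ContinuousOn xx Sm := by
      unfold xx
      fun_prop
    exact h1.prodMk h2
  · intro g hg
    obtain ⟨h1, h2⟩ := SmE_ne hg
    refine ⟨inv_ne_zero (mul_ne_zero (pow_ne_zero _ h1) (pow_ne_zero _ h2)), ?_⟩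
    change 0 < dd ((g.2.1 ^ 2 * g.2.2.2 ^ 3)⁻¹ * xx g * (1 - xx g))
    rw [SmE_y hg]
    exact hg.2
  · intro z hz
    refine ⟨SmE_memS hz, ?_⟩
    rw [SmE_yinv hz]
    exact hz.2
  · intro g hg
    obtain ⟨h1, h2⟩ := SmE_ne hg
    have h3 : SmE_w ((g.2.1 ^ 2 * g.2.2.2 ^ 3)⁻¹, xx g) = g.2.1 * g.2.2.2 := by
      have h4 : SmE_w ((g.2.1 ^ 2 * g.2.2.2 ^ 3)⁻¹, xx g) =
        1 - (g.2.1 ^ 2 * g.2.2.2 ^ 3)⁻¹ * xx g * (1 - xx g) := rfl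
      rw [h4, SmE_y hg, S_y hg.1]
    have h5 : (g.2.1 ^ 2 * g.2.2.2 ^ 3)⁻¹ * (g.2.1 * g.2.2.2) ^ 3 = g.2.1 := by
      field_simp
    have h6 : ((g.2.1 ^ 2 * g.2.2.2 ^ 3)⁻¹ * (g.2.1 * g.2.2.2) ^ 2)⁻¹ = g.2.2.2 := by
      field_simp
    unfold SmE_inv
    rw [h3]
    dsimp only
    rw [h5, h6, S_x hg.1, mul_div_cancel_right₀ _ (pow_ne_zero 3 h2)]
    unfold xx
    rw [mul_div_cancel_right₀ _ (pow_ne_zero 2 h1)]
  · intro z hz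
    refine Prod.ext ?_ (SmE_xinv hz)
    change ((z.1 * SmE_w z ^ 3) ^ 2 * ((z.1 * SmE_w z ^ 2)⁻¹) ^ 3)⁻¹ = z.1
    rw [SmE_prod hz, inv_inv]

/-- Proof. Homotopy `(s, g) ↦ (g₂² g₄³)⁻¹ exp (3 s log (g₂ g₄))`; `g₂ g₄ = 1 - y` is in the slit plane on `Sm`
(`S_y`, `dd_slit`), `exp (3 log z) = z³`. -/
theorem Sm_hty : Hty Sm Cx (fun g => (g.2.1 ^ 2 * g.2.2.2 ^ 3)⁻¹) (fun g => g.2.1) := by
  have hsl : ∀ g ∈ Sm, g.2.1 * g.2.2.2 ∈ Complex.slitPlane := by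
    intro g hg
    rw [← S_y hg.1]
    exact dd_slit hg.2
  refine ⟨fun s g => (g.2.1 ^ 2 * g.2.2.2 ^ 3)⁻¹ *
    Complex.exp ((3 * s : ℝ) * Complex.log (g.2.1 * g.2.2.2)), ?_, ?_, ?_, ?_⟩
  · have h1 : ContinuousOn (fun z : ℝ × C4 => (z.2.2.1 ^ 2 * z.2.2.2.2 ^ 3)⁻¹)
        (Icc 0 1 ×ˢ Sm) := by
      refine ContinuousOn.inv₀ (by fun_prop) fun z hz => ?_
      obtain ⟨h1, h2⟩ := SmE_ne hz.2
      exact mul_ne_zero (pow_ne_zero _ h1) (pow_ne_zero _ h2)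
    have h2 : ContinuousOn (fun z : ℝ × C4 => Complex.log (z.2.2.1 * z.2.2.2.2))
        (Icc 0 1 ×ˢ Sm) := by
      refine ContinuousOn.clog (by fun_prop) fun z hz => hsl _ hz.2
    have h3 : ContinuousOn (fun z : ℝ × C4 => ((3 * z.1 : ℝ) : ℂ)) (Icc 0 1 ×ˢ Sm) := by
      fun_prop
    exact h1.mul ((h3.mul h2).cexp)
  · intro s _ g hg
    obtain ⟨h1, h2⟩ := SmE_ne hg
    exact mul_ne_zero (inv_ne_zero (mul_ne_zero (pow_ne_zero _ h1) (pow_ne_zero _ h2)))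
      (Complex.exp_ne_zero _)
  · intro g _
    simp
  · intro g hg
    obtain ⟨h1, h2⟩ := SmE_ne hg
    have h3 : Complex.exp ((3 * (1 : ℝ) : ℝ) * Complex.log (g.2.1 * g.2.2.2)) =
        (g.2.1 * g.2.2.2) ^ 3 := by
      have h4 : (((3 * (1 : ℝ) : ℝ) : ℂ)) * Complex.log (g.2.1 * g.2.2.2) =
          ((3 : ℕ) : ℂ) * Complex.log (g.2.1 * g.2.2.2) := by
        push_cast
        ring
      rw [h4, Complex.exp_nat_mul, Complex.exp_log (mul_ne_zero h1 h2)]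
    dsimp only
    rw [h3]
    field_simp

theorem Sm_eqv : Eqv Sm Cx (fun g => g.2.1) := by
  refine (Oh_eqv.comp Sm_coord).of_hty Sm_hty ⟨by fun_prop, ?_⟩
  intro g hg h0
  have h1 := S_y hg.1
  have h2 : g.2.1 = 0 := h0
  rw [h2, zero_mul] at h1
  exact dd_ne_one hg.2 h1

end Pool.Agent.MP_c984cf_ag_N5
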