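import Pool.Agent.Lib.MP_c984cf_ag_N5.Wn

/-!
# Contractible hypersurfaces of log-general type in dimension five: `T0`
-/

set_option autoImplicit false

noncomputable section

namespace Pool.Agent.MP_c984cf_ag_N5

open Set Filter Topology

private def T0E_f (g : C4) : ℂ × ℂ := ((g.2.2.1 * g.2.2.2 ^ 2)⁻¹, yy g)

private def T0E_h (z : ℂ × ℂ) : ℂ := (1 - z.1 * z.2 * (1 - z.2) ^ 2) * z.1

private def T0E_g (z : ℂ × ℂ) : C4 :=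
  (z.2 * (z.1 * T0E_h z ^ 2), (1 - z.2) / T0E_h z, (z.1 * T0E_h z ^ 2)⁻¹, T0E_h z)

private theorem T0E_ne {x : ℂ} {d : ℝ} (hd : 0 ≤ d) (h : 2 * x.re < 1 - d) : 1 - x ≠ 0 := by
  intro h1
  have h2 : x = 1 := (sub_eq_zero.1 h1).symm
  rw [h2, Complex.one_re] at h
  linarith

private theorem T0E_ne34 {g : C4} (hg : g ∈ T0) : g.2.2.1 ≠ 0 ∧ g.2.2.2 ≠ 0 := by
  have h1 : 1 - xx g ≠ 0 := T0E_ne (dd_nonneg _) hg.2.2
  rw [S_x hg.1] at h1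
  refine ⟨left_ne_zero_of_mul h1, ?_⟩
  have h2 := right_ne_zero_of_mul h1
  intro h3
  rw [h3] at h2
  exact h2 (by norm_num)

private theorem T0E_xx {g : C4} (hg : g ∈ T0) :
    (T0E_f g).1 * (T0E_f g).2 * (1 - (T0E_f g).2) ^ 2 = xx g := by
  obtain ⟨h3, h4⟩ := T0E_ne34 hg
  change (g.2.2.1 * g.2.2.2 ^ 2)⁻¹ * yy g * (1 - yy g) ^ 2 = xx g
  rw [S_y hg.1]
  unfold yy xx
  field_simp

private theorem T0E_fmem {g : C4} (hg : g ∈ T0) : T0E_f g ∈ Wn 2 := by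
  obtain ⟨h3, h4⟩ := T0E_ne34 hg
  refine ⟨inv_ne_zero (mul_ne_zero h3 (pow_ne_zero _ h4)), hg.2.1, ?_⟩
  rw [T0E_xx hg]
  exact hg.2.2

private theorem T0E_hne {z : ℂ × ℂ} (hz : z ∈ Wn 2) : T0E_h z ≠ 0 :=
  mul_ne_zero (T0E_ne (dd_nonneg _) hz.2.2) hz.1

private theorem T0E_yy {z : ℂ × ℂ} (hz : z ∈ Wn 2) : yy (T0E_g z) = z.2 := by
  have h1 := T0E_hne hz
  have h2 := hz.1
  change z.2 * (z.1 * T0E_h z ^ 2) * (z.1 * T0E_h z ^ 2)⁻¹ = z.2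
  field_simp

private theorem T0E_gxx {z : ℂ × ℂ} (hz : z ∈ Wn 2) :
    xx (T0E_g z) = z.1 * z.2 * (1 - z.2) ^ 2 := by
  have h1 := T0E_hne hz
  have h2 := hz.1
  change z.2 * (z.1 * T0E_h z ^ 2) * ((1 - z.2) / T0E_h z) ^ 2 = _
  field_simp

private theorem T0E_gmem {z : ℂ × ℂ} (hz : z ∈ Wn 2) : T0E_g z ∈ T0 := by
  have h1 := T0E_hne hz
  have h2 := hz.1
  refine ⟨⟨?_, ?_⟩, ?_, ?_⟩
  · have h3 : xx (T0E_g z) = z.1 * z.2 * (1 - z.2) ^ 2 := T0E_gxx hz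
    change xx (T0E_g z) + (z.1 * T0E_h z ^ 2)⁻¹ * T0E_h z ^ 3 = 1
    have h4 : (z.1 * T0E_h z ^ 2)⁻¹ * T0E_h z ^ 3 = T0E_h z / z.1 := by
      field_simp
    have h5 : T0E_h z / z.1 = 1 - z.1 * z.2 * (1 - z.2) ^ 2 := by
      unfold T0E_h
      rw [mul_div_assoc, div_self h2, mul_one]
    rw [h4, h5, h3]
    ring
  · change yy (T0E_g z) + (1 - z.2) / T0E_h z * T0E_h z = 1
    rw [T0E_yy hz, div_mul_cancel₀ _ h1]
    ring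
  · rw [T0E_yy hz]
    exact hz.2.1
  · rw [T0E_yy hz, T0E_gxx hz]
    exact hz.2.2

private theorem T0E_fg {z : ℂ × ℂ} (hz : z ∈ Wn 2) : T0E_f (T0E_g z) = z := by
  have h1 := T0E_hne hz
  have h2 := hz.1
  refine Prod.ext ?_ (T0E_yy hz)
  change ((z.1 * T0E_h z ^ 2)⁻¹ * T0E_h z ^ 2)⁻¹ = z.1
  field_simp

private theorem T0E_gf {g : C4} (hg : g ∈ T0) : T0E_g (T0E_f g) = g := by
  obtain ⟨h3, h4⟩ := T0E_ne34 hg
  have h5 : T0E_h (T0E_f g) = g.2.2.2 := by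
    unfold T0E_h
    rw [T0E_xx hg, S_x hg.1]
    change g.2.2.1 * g.2.2.2 ^ 3 * (g.2.2.1 * g.2.2.2 ^ 2)⁻¹ = g.2.2.2
    field_simp
  have h6 : (T0E_f g).1 * T0E_h (T0E_f g) ^ 2 = g.2.2.1⁻¹ := by
    rw [h5]
    change (g.2.2.1 * g.2.2.2 ^ 2)⁻¹ * g.2.2.2 ^ 2 = g.2.2.1⁻¹
    field_simp
  unfold T0E_g
  rw [h6, h5]
  refine Prod.ext ?_ (Prod.ext ?_ (Prod.ext ?_ rfl))
  · change yy g * g.2.2.1⁻¹ = g.1
    unfold yy
    rw [mul_assoc, mul_inv_cancel₀ h3, mul_one]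
  · change (1 - yy g) / g.2.2.2 = g.2.1
    rw [S_y hg.1, mul_div_assoc, div_self h4, mul_one]
  · change g.2.2.1⁻¹⁻¹ = g.2.2.1
    exact inv_inv _

private theorem T0E_fcont : ContinuousOn T0E_f T0 := by
  have h1 : ContinuousOn (fun g : C4 => (g.2.2.1 * g.2.2.2 ^ 2)⁻¹) T0 := by
    refine ContinuousOn.inv₀ (by fun_prop) fun g hg => ?_
    obtain ⟨h3, h4⟩ := T0E_ne34 hg
    exact mul_ne_zero h3 (pow_ne_zero _ h4)
  have h2 : ContinuousOn (fun g : C4 => yy g) T0 := by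
    unfold yy
    fun_prop
  exact h1.prodMk h2

private theorem T0E_gcont : ContinuousOn T0E_g (Wn 2) := by
  have h1 : ContinuousOn T0E_h (Wn 2) := by
    unfold T0E_h
    fun_prop
  have h2 : ContinuousOn (fun z : ℂ × ℂ => z.1 * T0E_h z ^ 2) (Wn 2) :=
    continuousOn_fst.mul (h1.pow 2)
  have h3 : ContinuousOn (fun z : ℂ × ℂ => (z.1 * T0E_h z ^ 2)⁻¹) (Wn 2) :=
    h2.inv₀ fun z hz => mul_ne_zero hz.1 (pow_ne_zero _ (T0E_hne hz))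
  have h4 : ContinuousOn (fun z : ℂ × ℂ => (1 - z.2) / T0E_h z) (Wn 2) :=
    ContinuousOn.div (by fun_prop) h1 fun z hz => T0E_hne hz
  exact (continuousOn_snd.mul h2).prodMk (h4.prodMk (h3.prodMk h1))

/-- Proof. `Eqv.transport` from `Wn_eqv 2` with `f g = ((g₃ g₄²)⁻¹, g₁ g₃)` and the inverse `(w, y) ↦ (g₁, g₂, g₃, g₄)`,
`x = w y (1 - y)²`, `g₄ = (1 - x) w`, `g₃ = (w g₄²)⁻¹`, `g₁ = y / g₃`, `g₂ = (1 - y) / g₄`. On `T0`: `Re x < 1 / 2`, so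
`g₃ g₄³ = 1 - x ≠ 0`; `x = w y (1 - y)²` because `y (1 - y)² = g₁ g₃ (g₂ g₄)² = x g₃ g₄²`. -/
theorem T0_eqv : Eqv (T0 ∩ Sm) T0 id := by
  refine Eqv.transport (f := T0E_f) (g := T0E_g) inter_subset_left (fun z hz => hz.1)
    ⟨T0E_fcont, fun g hg => T0E_fmem hg⟩ ⟨T0E_gcont, fun z hz => T0E_gmem hz⟩ ?_ ?_
    (fun g hg => T0E_gf hg) (fun z hz => T0E_fg hz) (Wn_eqv 2)
  · intro g hg
    exact ⟨T0E_fmem hg.1, hg.2.2⟩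
  · intro z hz
    refine ⟨T0E_gmem hz.1, (T0E_gmem hz.1).1, ?_⟩
    rw [T0E_yy hz.1]
    exact hz.2

end Pool.Agent.MP_c984cf_ag_N5
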