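import Pool.Agent.Lib.MP_c984cf_ag_N5.Wn

/-!
# Contractible hypersurfaces of log-general type in dimension five: `T1`
-/

set_option autoImplicit false

noncomputable section

namespace Pool.Agent.MP_c984cf_ag_N5

open Set Filter Topology

/-- the coordinate `x` -/
private def T1E_X (z : ℂ × ℂ) : ℂ := 1 - z.1 * z.2 * (1 - z.2) ^ 3

private def T1E_g (z : ℂ × ℂ) : C4 :=
  (z.1 ^ 2 * T1E_X z ^ 3, (z.1 * T1E_X z)⁻¹, z.2 * (z.1 ^ 2 * T1E_X z ^ 3)⁻¹,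
    (1 - z.2) * (z.1 * T1E_X z))

private def T1E_f (g : C4) : ℂ × ℂ := ((g.1 * g.2.1 ^ 3)⁻¹, g.1 * g.2.2.1)

private theorem T1E_X_ne {z : ℂ × ℂ} (h : z ∈ Wn 3) : T1E_X z ≠ 0 := by
  intro h0
  have h1 : z.1 * z.2 * (1 - z.2) ^ 3 = 1 := by
    unfold T1E_X at h0
    linear_combination -h0
  have h2 := h.2.2
  rw [h1, Complex.one_re] at h2
  linarith [dd_nonneg z.2]

private theorem T1E_ne {g : C4} (h : g ∈ T1) : g.1 ≠ 0 ∧ g.2.1 ≠ 0 := by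
  have h0 : xx g ≠ 0 := by
    intro h0
    have h1 := h.2.2
    rw [h0, sub_zero, Complex.one_re] at h1
    linarith [dd_nonneg (yy g)]
  unfold xx at h0
  exact ⟨left_ne_zero_of_mul h0, fun h1 => h0 (by rw [h1]; ring)⟩

private theorem T1E_x {g : C4} (h : g ∈ T1) :
    (T1E_f g).1 * (T1E_f g).2 * (1 - (T1E_f g).2) ^ 3 = 1 - xx g := by
  obtain ⟨h1, h2⟩ := T1E_ne h
  have h3 := S_x h.1
  have h4 : 1 - g.1 * g.2.2.1 = g.2.1 * g.2.2.2 := S_y h.1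
  rw [h3]
  change (g.1 * g.2.1 ^ 3)⁻¹ * (g.1 * g.2.2.1) * (1 - g.1 * g.2.2.1) ^ 3 = _
  rw [h4]
  field_simp

private theorem T1E_yg {z : ℂ × ℂ} (h : z ∈ Wn 3) : yy (T1E_g z) = z.2 := by
  have h1 := h.1
  have h2 := T1E_X_ne h
  change z.1 ^ 2 * T1E_X z ^ 3 * (z.2 * (z.1 ^ 2 * T1E_X z ^ 3)⁻¹) = z.2
  field_simp

private theorem T1E_xg {z : ℂ × ℂ} (h : z ∈ Wn 3) : xx (T1E_g z) = T1E_X z := by
  have h1 := h.1
  have h2 := T1E_X_ne h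
  change z.1 ^ 2 * T1E_X z ^ 3 * ((z.1 * T1E_X z)⁻¹) ^ 2 = T1E_X z
  field_simp

private theorem T1E_map {z : ℂ × ℂ} (h : z ∈ Wn 3) : T1E_g z ∈ T1 := by
  have h1 := h.1
  have h2 := T1E_X_ne h
  refine ⟨⟨?_, ?_⟩, ?_, ?_⟩
  · change xx (T1E_g z) + (T1E_g z).2.2.1 * (T1E_g z).2.2.2 ^ 3 = 1
    rw [T1E_xg h]
    have h3 : (T1E_g z).2.2.1 * (T1E_g z).2.2.2 ^ 3 = z.1 * z.2 * (1 - z.2) ^ 3 := by
      change z.2 * (z.1 ^ 2 * T1E_X z ^ 3)⁻¹ * ((1 - z.2) * (z.1 * T1E_X z)) ^ 3 = _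
      field_simp
    rw [h3]
    unfold T1E_X
    ring
  · change yy (T1E_g z) + (T1E_g z).2.1 * (T1E_g z).2.2.2 = 1
    rw [T1E_yg h]
    have h3 : (T1E_g z).2.1 * (T1E_g z).2.2.2 = 1 - z.2 := by
      change (z.1 * T1E_X z)⁻¹ * ((1 - z.2) * (z.1 * T1E_X z)) = _
      field_simp
    rw [h3]
    ring
  · rw [T1E_yg h]
    exact h.2.1
  · rw [T1E_yg h, T1E_xg h]
    have h3 : 1 - T1E_X z = z.1 * z.2 * (1 - z.2) ^ 3 := by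
      unfold T1E_X
      ring
    rw [h3]
    exact h.2.2

/-- Proof. `Eqv.transport` from `Wn_eqv 3` with `f g = ((g₁ g₂³)⁻¹, g₁ g₃)` and the inverse `(w, y) ↦ (g₁, g₂, g₃, g₄)`,
`x = 1 - w y (1 - y)³`, `g₂ = (w x)⁻¹`, `g₁ = w² x³`, `g₃ = y / g₁`, `g₄ = (1 - y) / g₂`. On `T1`: `Re (1 - x) < 1 / 2`, so
`g₁ g₂² = x ≠ 0`; `1 - x = w y (1 - y)³` because `y (1 - y)³ = g₁ g₃ (g₂ g₄)³ = (1 - x) g₁ g₂³`. -/
theorem T1_eqv : Eqv (T1 ∩ Sm) T1 id := by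
  refine Eqv.transport (B := Wn 3) (B' := Wn' 3) (f := T1E_f) (g := T1E_g) inter_subset_left
    (fun z hz => hz.1) ⟨?_, ?_⟩ ⟨?_, fun z hz => T1E_map hz⟩ ?_ ?_ ?_ ?_ (Wn_eqv 3)
  · refine ContinuousOn.prodMk (ContinuousOn.inv₀ (by fun_prop) fun g hg => ?_) (by fun_prop)
    obtain ⟨h1, h2⟩ := T1E_ne hg
    exact mul_ne_zero h1 (pow_ne_zero 3 h2)
  · intro g hg
    obtain ⟨h1, h2⟩ := T1E_ne hg
    refine ⟨inv_ne_zero (mul_ne_zero h1 (pow_ne_zero 3 h2)), hg.2.1, ?_⟩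
    rw [T1E_x hg]
    exact hg.2.2
  · have hX : ContinuousOn T1E_X (Wn 3) := by
      unfold T1E_X
      fun_prop
    have h1 : ∀ z ∈ Wn 3, z.1 ^ 2 * T1E_X z ^ 3 ≠ 0 := fun z hz =>
      mul_ne_zero (pow_ne_zero 2 hz.1) (pow_ne_zero 3 (T1E_X_ne hz))
    have h2 : ∀ z ∈ Wn 3, z.1 * T1E_X z ≠ 0 := fun z hz => mul_ne_zero hz.1 (T1E_X_ne hz)
    have e1 : ContinuousOn (fun z : ℂ × ℂ => z.1 ^ 2 * T1E_X z ^ 3) (Wn 3) :=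
      (continuousOn_fst.pow 2).mul (hX.pow 3)
    have e2 : ContinuousOn (fun z : ℂ × ℂ => z.1 * T1E_X z) (Wn 3) := continuousOn_fst.mul hX
    exact e1.prodMk ((e2.inv₀ h2).prodMk ((continuousOn_snd.mul (e1.inv₀ h1)).prodMk
      ((continuousOn_const.sub continuousOn_snd).mul e2)))
  · intro g hg
    obtain ⟨h1, h2⟩ := T1E_ne hg.1
    refine ⟨⟨inv_ne_zero (mul_ne_zero h1 (pow_ne_zero 3 h2)), hg.1.2.1, ?_⟩, hg.2.2⟩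
    rw [T1E_x hg.1]
    exact hg.1.2.2
  · intro z hz
    have h1 := T1E_map hz.1
    refine ⟨h1, h1.1, ?_⟩
    rw [T1E_yg hz.1]
    exact hz.2
  · intro g hg
    obtain ⟨h1, h2⟩ := T1E_ne hg
    have h3 : T1E_X (T1E_f g) = g.1 * g.2.1 ^ 2 := by
      unfold T1E_X
      rw [T1E_x hg]
      unfold xx
      ring
    have h4 : 1 - g.1 * g.2.2.1 = g.2.1 * g.2.2.2 := S_y hg.1
    unfold T1E_g
    rw [h3]
    refine Prod.ext ?_ (Prod.ext ?_ (Prod.ext ?_ ?_))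
    · change ((g.1 * g.2.1 ^ 3)⁻¹) ^ 2 * (g.1 * g.2.1 ^ 2) ^ 3 = g.1
      field_simp
    · change ((g.1 * g.2.1 ^ 3)⁻¹ * (g.1 * g.2.1 ^ 2))⁻¹ = g.2.1
      field_simp
    · change g.1 * g.2.2.1 * (((g.1 * g.2.1 ^ 3)⁻¹) ^ 2 * (g.1 * g.2.1 ^ 2) ^ 3)⁻¹ = g.2.2.1
      field_simp
    · change (1 - g.1 * g.2.2.1) * ((g.1 * g.2.1 ^ 3)⁻¹ * (g.1 * g.2.1 ^ 2)) = g.2.2.2
      rw [h4]
      field_simp
  · intro z hz
    have h1 := hz.1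
    have h2 := T1E_X_ne hz
    refine Prod.ext ?_ (T1E_yg hz)
    change (z.1 ^ 2 * T1E_X z ^ 3 * ((z.1 * T1E_X z)⁻¹) ^ 3)⁻¹ = z.1
    field_simp

end Pool.Agent.MP_c984cf_ag_N5
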