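import Pool.Agent.Lib.MP_c984cf_ag_N5.Glue
import Pool.Agent.Lib.MP_c984cf_ag_N5.SmE
import Pool.Agent.Lib.MP_c984cf_ag_N5.T0E
import Pool.Agent.Lib.MP_c984cf_ag_N5.T1E
import Pool.Agent.Lib.MP_c984cf_ag_N5.RhoB

/-!
# Contractible hypersurfaces of log-general type in dimension five: `S` is contractible
-/

set_option autoImplicit false

noncomputable section

namespace Pool.Agent.MP_c984cf_ag_N5

open Set Filter Topology

private theorem cdd {f : C4 → ℂ} (hf : Continuous f) {A : Set C4} :
    ContinuousOn (fun g => dd (f g)) A := (dd_continuous.comp hf).continuousOn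

theorem xx_cont : Continuous xx := by unfold xx; fun_prop

theorem yy_cont : Continuous yy := by unfold yy; fun_prop

/-- positive exactly on `T0` (inside `S`) -/
def q0 (g : C4) : ℝ := min (1 - dd (yy g)) (1 - dd (yy g) - 2 * (xx g).re)

/-- positive exactly on `T1` (inside `S`) -/
def q1 (g : C4) : ℝ := min (1 - dd (yy g)) (1 - dd (yy g) - 2 * (1 - xx g).re)

theorem q0_cont : Continuous q0 := by
  have h1 : Continuous fun g => dd (yy g) := dd_continuous.comp yy_cont
  have h2 : Continuous fun g => (xx g).re := Complex.continuous_re.comp xx_cont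
  unfold q0
  fun_prop

theorem q1_cont : Continuous q1 := by
  have h1 : Continuous fun g => dd (yy g) := dd_continuous.comp yy_cont
  have h2 : Continuous fun g => (1 - xx g).re :=
    Complex.continuous_re.comp (continuous_const.sub xx_cont)
  unfold q1
  fun_prop

theorem q0_pos {g : C4} (hg : g ∈ S) : 0 < q0 g ↔ g ∈ T0 := by
  unfold q0 T0
  rw [lt_min_iff, mem_setOf_eq]
  constructor
  · rintro ⟨h1, h2⟩
    exact ⟨hg, by linarith, by linarith⟩
  · rintro ⟨_, h1, h2⟩
    exact ⟨by linarith, by linarith⟩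

theorem q1_pos {g : C4} (hg : g ∈ S) : 0 < q1 g ↔ g ∈ T1 := by
  unfold q1 T1
  rw [lt_min_iff, mem_setOf_eq]
  constructor
  · rintro ⟨h1, h2⟩
    exact ⟨hg, by linarith, by linarith⟩
  · rintro ⟨_, h1, h2⟩
    exact ⟨by linarith, by linarith⟩

/-- the gluing lemma with two nonnegative functions -/
theorem glue' {E : Type} [TopologicalSpace E] {A B : Set E} {a b : E → ℝ}
    (ha : ContinuousOn a (A ∪ B)) (hb : ContinuousOn b (A ∪ B))
    (hA : ∀ x ∈ A ∪ B, 0 < a x ↔ x ∈ A) (hB : ∀ x ∈ A ∪ B, 0 < b x ↔ x ∈ B)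
    (h : Eqv (A ∩ B) A id) : Eqv B (A ∪ B) id := by
  have hpos : ∀ x ∈ A ∪ B, 0 < max 0 (a x) + max 0 (b x) := by
    intro x hx
    rcases hx with h1 | h1
    · have h2 := (hA x (Or.inl h1)).2 h1
      have h3 : 0 < max 0 (a x) := lt_max_of_lt_right h2
      have h4 := le_max_left 0 (b x)
      linarith
    · have h2 := (hB x (Or.inr h1)).2 h1
      have h3 : 0 < max 0 (b x) := lt_max_of_lt_right h2
      have h4 := le_max_left 0 (a x)
      linarith
  refine glue (l := fun x => max 0 (a x) / (max 0 (a x) + max 0 (b x))) ?_ ?_ ?_ h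
  · refine ContinuousOn.div (by fun_prop) (by fun_prop) fun x hx => (hpos x hx).ne'
  · intro x hx h1
    rw [← hA x hx]
    by_contra h2
    rw [max_eq_left (not_lt.1 h2), zero_div] at h1
    exact lt_irrefl _ h1
  · intro x hx h1
    rw [← hB x hx]
    by_contra h2
    have h3 := hpos x hx
    rw [max_eq_left (not_lt.1 h2), add_zero] at h1 h3
    rw [div_self h3.ne'] at h1
    exact lt_irrefl _ h1

theorem step0 : Eqv Sm (T0 ∪ Sm) id := by
  refine glue' (a := q0) (b := fun g => dd (yy g)) q0_cont.continuousOn (cdd yy_cont) ?_ ?_ T0_eqv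
  · rintro x (hx | hx)
    · exact q0_pos hx.1
    · exact q0_pos hx.1
  · rintro x (hx | hx)
    · exact ⟨fun h => ⟨hx.1, h⟩, fun h => h.2⟩
    · exact ⟨fun h => ⟨hx.1, h⟩, fun h => h.2⟩

theorem T_disj {g : C4} (h0 : g ∈ T0) (h1 : g ∈ T1) : False := by
  have h2 := dd_nonneg (yy g)
  have h3 := h0.2.2
  have h4 := h1.2.2
  rw [Complex.sub_re, Complex.one_re] at h4
  linarith

theorem step1 : Eqv (T0 ∪ Sm) Aa id := by
  have hS : ∀ x ∈ T1 ∪ (T0 ∪ Sm), x ∈ S := by
    rintro x (hx | hx | hx) <;> exact hx.1
  refine glue' (a := q1) (b := fun g => dd (yy g) + max 0 (q0 g)) q1_cont.continuousOn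
    ((cdd yy_cont).add (by have := q0_cont; fun_prop)) ?_ ?_ ?_
  · intro x hx
    exact q1_pos (hS x hx)
  · intro x hx
    have hx' := hS x hx
    constructor
    · intro h
      by_cases h1 : 0 < dd (yy x)
      · exact Or.inr ⟨hx', h1⟩
      · left
        rw [← q0_pos hx']
        by_contra h2
        rw [max_eq_left (not_lt.1 h2)] at h
        exact h1 (by linarith)
    · rintro (h | h)
      · have h1 := lt_max_of_lt_right (b := (0 : ℝ)) ((q0_pos hx').2 h)
        have h2 := dd_nonneg (yy x)
        have h3 : 0 < max 0 (q0 x) := lt_max_of_lt_right ((q0_pos hx').2 h)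
        linarith
      · have h2 := h.2
        have h3 := le_max_left 0 (q0 x)
        linarith
  · have h1 : T1 ∩ (T0 ∪ Sm) = T1 ∩ Sm := by
      ext g
      constructor
      · rintro ⟨h1, h2 | h2⟩
        · exact (T_disj h2 h1).elim
        · exact ⟨h1, h2⟩
      · rintro ⟨h1, h2⟩
        exact ⟨h1, Or.inr h2⟩
    rw [h1]
    exact T1_eqv

theorem rho_eqv : Eqv Aa Cx rho := by
  have h1 : Eqv Sm Aa id := step1.comp step0
  refine Eqv.of_comp_left (f := id) rho_mapC h1 ?_
  exact Sm_eqv.of_hty rho_hty.symm rho_Sm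

theorem inter_eqv : Eqv (Aa ∩ Bb) Aa id := by
  refine Eqv.of_comp_right (MapC.id.mono (fun _ h => h) inter_subset_left) rho_eqv ?_
  exact ee_eqv.of_hty rho_ee.symm (rho_mapC.mono inter_subset_left fun _ h => h)

theorem union_eq : Aa ∪ Bb = S := by
  ext g
  constructor
  · rintro ((h | h | h) | h) <;> exact h.1
  · intro hg
    by_cases h1 : 0 < dd (yy g)
    · exact Or.inl (Or.inr (Or.inr ⟨hg, h1⟩))
    · have h2 : dd (yy g) = 0 := le_antisymm (not_lt.1 h1) (dd_nonneg _)
      rcases lt_trichotomy (xx g).re (1 / 2) with h3 | h3 | h3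
      · exact Or.inl (Or.inr (Or.inl ⟨hg, by rw [h2]; norm_num, by rw [h2]; linarith⟩))
      · refine Or.inr ⟨hg, by rw [h3]; norm_num, by rw [h3]; norm_num, ?_⟩
        have h4 := dd_eq_zero.1 h2
        refine lt_of_le_of_ne h4.2 fun h5 => ?_
        -- `y = 1`, so `g₂ g₄ = 0`, so `x = 0` or `x = 1`
        have h6 : yy g = 1 := Complex.ext h5.symm h4.1
        have h7 := S_y hg
        rw [h6, sub_self, eq_comm, mul_eq_zero] at h7
        rcases h7 with h7 | h7
        · have h8 : xx g = 0 := by unfold xx; rw [h7]; ring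
          rw [h8, Complex.zero_re] at h3
          norm_num at h3
        · have h8 := S_x hg
          rw [h7] at h8
          have h9 : xx g = 1 := by linear_combination -h8
          rw [h9, Complex.one_re] at h3
          norm_num at h3
      · refine Or.inl (Or.inl ⟨hg, by rw [h2]; norm_num, ?_⟩)
        rw [h2, Complex.sub_re, Complex.one_re]
        linarith

theorem S_ctr : Ctr S := by
  have h1 : Eqv Bb S id := by
    rw [← union_eq]
    have hS : ∀ x ∈ Aa ∪ Bb, x ∈ S := by
      intro x hx
      rw [union_eq] at hx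
      exact hx
    refine glue' (a := fun g => dd (yy g) + |(xx g).re - 1 / 2|)
      (b := fun g => min (min (xx g).re (1 - (xx g).re)) ((yy g).re - 1)) ?_ ?_ ?_ ?_ inter_eqv
    · refine (cdd yy_cont).add ?_
      have h2 : Continuous fun g => (xx g).re := Complex.continuous_re.comp xx_cont
      fun_prop
    · have h2 : Continuous fun g => (xx g).re := Complex.continuous_re.comp xx_cont
      have h3 : Continuous fun g => (yy g).re := Complex.continuous_re.comp yy_cont
      fun_prop
    · intro g hg
      have hg' := hS g hg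
      have h2 := dd_nonneg (yy g)
      constructor
      · intro h
        by_cases h1 : 0 < dd (yy g)
        · exact Or.inr (Or.inr ⟨hg', h1⟩)
        · have h3 : dd (yy g) = 0 := le_antisymm (not_lt.1 h1) h2
          rw [h3, zero_add, abs_pos] at h
          rcases lt_or_gt_of_ne h with h4 | h4
          · exact Or.inr (Or.inl ⟨hg', by rw [h3]; norm_num, by rw [h3]; linarith⟩)
          · refine Or.inl ⟨hg', by rw [h3]; norm_num, ?_⟩
            rw [h3, Complex.sub_re, Complex.one_re]
            linarith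
      · have h3 := abs_nonneg ((xx g).re - 1 / 2)
        rintro (h | h | h)
        · have h4 := h.2.2
          rw [Complex.sub_re, Complex.one_re] at h4
          have h5 : 0 < |(xx g).re - 1 / 2| := abs_pos.2 (by linarith)
          linarith
        · have h4 := h.2.2
          have h5 : 0 < |(xx g).re - 1 / 2| := abs_pos.2 (by
            intro h6
            linarith)
          linarith
        · have h4 := h.2
          linarith
    · intro g hg
      have hg' := hS g hg
      rw [lt_min_iff, lt_min_iff]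
      constructor
      · rintro ⟨⟨h1, h2⟩, h3⟩
        exact ⟨hg', h1, by linarith, by linarith⟩
      · rintro ⟨_, h1, h2, h3⟩
        exact ⟨⟨h1, by linarith⟩, by linarith⟩
  exact Bb_ctr.of_eqv h1

end Pool.Agent.MP_c984cf_ag_N5
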