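import Pool.Agent.Lib.MP_c984cf_ag_N5.Basic

/-!
# Contractible hypersurfaces of log-general type in dimension five: the surface `S`, definitions

`S = {g₁ g₂² + g₃ g₄³ = 1, g₁ g₃ + g₂ g₄ = 1}` in `ℂ⁴`, `x = g₁ g₂²`, `y = g₁ g₃`; so `1 - x = g₃ g₄³`,
`1 - y = g₂ g₄`. `dd y` vanishes exactly on the ray `[1, ∞)`.
-/

set_option autoImplicit false

noncomputable section

namespace Pool.Agent.MP_c984cf_ag_N5

open Set Filter Topology

abbrev C4 : Type := ℂ × ℂ × ℂ × ℂ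

def tau (g : C4) : ℂ := g.1 * g.2.1 ^ 2 + g.2.2.1 * g.2.2.2 ^ 3

def cc (g : C4) : ℂ := g.1 * g.2.2.1 + g.2.1 * g.2.2.2

def xx (g : C4) : ℂ := g.1 * g.2.1 ^ 2

def yy (g : C4) : ℂ := g.1 * g.2.2.1

/-- the surface -/
def S : Set C4 := {g | tau g = 1 ∧ cc g = 1}

/-- vanishes exactly on the ray `[1, ∞)` -/
def dd (y : ℂ) : ℝ := |y.im| + max 0 (1 - y.re)

/-- `y` is not in `[1, ∞)` -/
def Sm : Set C4 := {g | g ∈ S ∧ 0 < dd (yy g)}

/-- neighbourhood of `{y ∈ [1, ∞), Re x < 1 / 2}` -/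
def T0 : Set C4 := {g | g ∈ S ∧ dd (yy g) < 1 ∧ 2 * (xx g).re < 1 - dd (yy g)}

/-- neighbourhood of `{y ∈ [1, ∞), 1 / 2 < Re x}` -/
def T1 : Set C4 := {g | g ∈ S ∧ dd (yy g) < 1 ∧ 2 * (1 - xx g).re < 1 - dd (yy g)}

/-- neighbourhood of `{y ∈ [1, ∞), Re x = 1 / 2}` -/
def Bb : Set C4 := {g | g ∈ S ∧ 0 < (xx g).re ∧ (xx g).re < 1 ∧ 1 < (yy g).re}

/-- complement of `{y ∈ [1, ∞), Re x = 1 / 2}` -/
def Aa : Set C4 := T1 ∪ (T0 ∪ Sm)

/-- the punctured plane -/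
def Cx : Set ℂ := {z | z ≠ 0}

/-- cut off function: `0` near `{y ∈ [1, ∞), Re x < 1 / 2}`, `1` near `{y ∈ [1, ∞), 1 / 2 < Re x}` -/
def cut (g : C4) : ℝ := max 0 (min 1 (1 / 2 + ((xx g).re - 1 / 2) / dd (yy g)))

/-- the homotopy equivalence `Aa → Cx` -/
def rho (g : C4) : ℂ :=
  if dd (yy g) = 0 then (if (xx g).re < 1 / 2 then (g.2.2.2)⁻¹ else g.2.1)
  else g.2.1 * Complex.exp (-((1 - cut g : ℝ) : ℂ) * Complex.log (g.2.1 * g.2.2.2))

/-- transversal coordinate of `{y ∈ [1, ∞), Re x = 1 / 2}` -/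
def ee (g : C4) : ℂ := -(((xx g).re - 1 / 2 : ℝ) + (yy g).im * Complex.I)

/-! ### elementary facts -/

theorem S_x {g : C4} (h : g ∈ S) : 1 - xx g = g.2.2.1 * g.2.2.2 ^ 3 := by
  have h1 : xx g + g.2.2.1 * g.2.2.2 ^ 3 = 1 := h.1
  linear_combination -h1

theorem S_y {g : C4} (h : g ∈ S) : 1 - yy g = g.2.1 * g.2.2.2 := by
  have h1 : yy g + g.2.1 * g.2.2.2 = 1 := h.2
  linear_combination -h1

theorem dd_nonneg (y : ℂ) : 0 ≤ dd y := add_nonneg (abs_nonneg _) (le_max_left _ _)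

theorem dd_continuous : Continuous dd := by
  unfold dd
  fun_prop

theorem dd_eq_zero {y : ℂ} : dd y = 0 ↔ y.im = 0 ∧ 1 ≤ y.re := by
  unfold dd
  constructor
  · intro h
    have h1 := abs_nonneg y.im
    have h2 := le_max_left 0 (1 - y.re)
    have h3 : |y.im| = 0 := by linarith
    have h4 : max 0 (1 - y.re) = 0 := by linarith
    have h5 := le_max_right 0 (1 - y.re)
    exact ⟨abs_eq_zero.1 h3, by linarith⟩
  · rintro ⟨h1, h2⟩
    rw [h1, abs_zero, zero_add]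
    exact max_eq_left (by linarith)

theorem dd_pos {y : ℂ} : 0 < dd y ↔ ¬(y.im = 0 ∧ 1 ≤ y.re) := by
  rw [← dd_eq_zero]
  exact ⟨fun h => h.ne', fun h => lt_of_le_of_ne (dd_nonneg y) (Ne.symm h)⟩

theorem dd_slit {y : ℂ} (h : 0 < dd y) : 1 - y ∈ Complex.slitPlane := by
  rw [Complex.mem_slitPlane_iff]
  by_contra hc
  rw [not_or, not_lt, not_not] at hc
  simp only [Complex.sub_re, Complex.one_re, Complex.sub_im, Complex.one_im, zero_sub,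
    neg_eq_zero] at hc
  exact dd_pos.1 h ⟨hc.2, by linarith [hc.1]⟩

theorem dd_ne_one {y : ℂ} (h : 0 < dd y) : 1 - y ≠ 0 := by
  intro h1
  have h2 := dd_slit h
  rw [h1] at h2
  exact Complex.slitPlane_ne_zero h2 rfl

end Pool.Agent.MP_c984cf_ag_N5
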