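import Pool.Agent.Lib.MP_c984cf_ag_N5.SDefs

/-!
# Contractible hypersurfaces of log-general type in dimension five: the model of `Sm`
-/

set_option autoImplicit false

noncomputable section

namespace Pool.Agent.MP_c984cf_ag_N5

open Set Filter Topology

/-- coordinates `(h, x)`, `y = h x (1 - x)` -/
def Oh : Set (ℂ × ℂ) := {z | z.1 ≠ 0 ∧ 0 < dd (z.1 * z.2 * (1 - z.2))}

private def SmO_a (s : ℝ) : ℝ := min 1 (min (3 * s) (3 - 3 * s))

private def SmO_b (s : ℝ) : ℝ := max 0 (min 1 (3 * s - 1))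

private def SmO_M (z : ℂ × ℂ) : ℝ := ‖z.1‖ * (1 + ‖z.2‖) ^ 2

private def SmO_D (s : ℝ) (z : ℂ × ℂ) : ℂ × ℂ :=
  (z.1 / ((1 + SmO_a s * SmO_M z : ℝ) : ℂ), ((1 - SmO_b s : ℝ) : ℂ) * z.2)

private theorem SmO_M_nonneg (z : ℂ × ℂ) : 0 ≤ SmO_M z := by
  unfold SmO_M
  positivity

private theorem SmO_a_nonneg {s : ℝ} (h : s ∈ Icc (0 : ℝ) 1) : 0 ≤ SmO_a s := by
  unfold SmO_a
  exact le_min zero_le_one (le_min (by linarith [h.1]) (by linarith [h.2]))

private theorem SmO_den_pos {s : ℝ} (h : s ∈ Icc (0 : ℝ) 1) (z : ℂ × ℂ) :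
    0 < 1 + SmO_a s * SmO_M z := by
  have := mul_nonneg (SmO_a_nonneg h) (SmO_M_nonneg z)
  linarith

private theorem SmO_b_nonneg (s : ℝ) : 0 ≤ SmO_b s := le_max_left _ _

private theorem SmO_b_le (s : ℝ) : SmO_b s ≤ 1 := max_le zero_le_one (min_le_left _ _)

private theorem SmO_dd_of_re {y : ℂ} (h : y.re < 1) : 0 < dd y := by
  rw [dd_pos]
  rintro ⟨-, h2⟩
  linarith

private theorem SmO_dd_zero : 0 < dd 0 := SmO_dd_of_re (by simp)

private theorem SmO_dd_scale {y : ℂ} (h : 0 < dd y) {φ : ℝ} (h0 : 0 < φ) (h1 : φ ≤ 1) :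
    0 < dd ((φ : ℂ) * y) := by
  rw [dd_pos] at h ⊢
  rintro ⟨h2, h3⟩
  rw [Complex.im_ofReal_mul] at h2
  rw [Complex.re_ofReal_mul] at h3
  refine h ⟨(mul_eq_zero.1 h2).resolve_left h0.ne', ?_⟩
  by_contra h4
  rw [not_le] at h4
  rcases le_or_gt 0 y.re with h5 | h5
  · nlinarith
  · nlinarith [mul_neg_of_pos_of_neg h0 h5]

private theorem SmO_maps {s : ℝ} (hs : s ∈ Icc (0 : ℝ) 1) : MapsTo (SmO_D s) Oh Oh := by
  intro z hz
  have hden := SmO_den_pos hs z
  have hdenC : ((1 + SmO_a s * SmO_M z : ℝ) : ℂ) ≠ 0 := Complex.ofReal_ne_zero.2 hden.ne'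
  refine ⟨div_ne_zero hz.1 hdenC, ?_⟩
  rcases le_total s (1 / 3) with h1 | h1
  · have hb : SmO_b s = 0 := by
      unfold SmO_b
      exact max_eq_left ((min_le_right _ _).trans (by linarith))
    have e : (SmO_D s z).1 * (SmO_D s z).2 * (1 - (SmO_D s z).2) =
        (((1 + SmO_a s * SmO_M z)⁻¹ : ℝ) : ℂ) * (z.1 * z.2 * (1 - z.2)) := by
      unfold SmO_D
      rw [hb, Complex.ofReal_inv]
      simp only [sub_zero, Complex.ofReal_one, one_mul, div_eq_mul_inv]
      ring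
    rw [e]
    refine SmO_dd_scale hz.2 (inv_pos.2 hden) (inv_le_one_of_one_le₀ ?_)
    have := mul_nonneg (SmO_a_nonneg hs) (SmO_M_nonneg z)
    linarith
  · rcases le_total s (2 / 3) with h2 | h2
    · have ha : SmO_a s = 1 := by
        unfold SmO_a
        exact min_eq_left (le_min (by linarith) (by linarith))
      refine SmO_dd_of_re (lt_of_le_of_lt (Complex.re_le_norm _) ?_)
      have hM := SmO_M_nonneg z
      have e1 : ‖(SmO_D s z).1‖ = ‖z.1‖ / (1 + SmO_M z) := by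
        unfold SmO_D
        rw [ha, one_mul, norm_div, Complex.norm_real, Real.norm_of_nonneg (by linarith)]
      have e2 : ‖(SmO_D s z).2‖ ≤ ‖z.2‖ := by
        unfold SmO_D
        rw [norm_mul, Complex.norm_real, Real.norm_of_nonneg (by linarith [SmO_b_le s])]
        have h3 : 1 - SmO_b s ≤ 1 := by linarith [SmO_b_nonneg s]
        nlinarith [norm_nonneg z.2]
      have e3 : ‖1 - (SmO_D s z).2‖ ≤ 1 + ‖z.2‖ := by
        refine (norm_sub_le _ _).trans ?_
        rw [norm_one]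
        linarith
      rw [norm_mul, norm_mul, e1]
      have h4 : ‖(SmO_D s z).2‖ * ‖1 - (SmO_D s z).2‖ ≤ (1 + ‖z.2‖) ^ 2 := by
        have h5 : ‖(SmO_D s z).2‖ ≤ 1 + ‖z.2‖ := by linarith
        calc ‖(SmO_D s z).2‖ * ‖1 - (SmO_D s z).2‖ ≤ (1 + ‖z.2‖) * (1 + ‖z.2‖) :=
              mul_le_mul h5 e3 (norm_nonneg _) (by positivity)
          _ = (1 + ‖z.2‖) ^ 2 := by ring
      rw [mul_assoc, div_mul_eq_mul_div, div_lt_one (by linarith)]
      calc ‖z.1‖ * (‖(SmO_D s z).2‖ * ‖1 - (SmO_D s z).2‖) ≤ ‖z.1‖ * (1 + ‖z.2‖) ^ 2 :=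
            mul_le_mul_of_nonneg_left h4 (norm_nonneg _)
        _ = SmO_M z := rfl
        _ < 1 + SmO_M z := by linarith
    · have hb : SmO_b s = 1 := by
        unfold SmO_b
        rw [min_eq_left (by linarith)]
        exact max_eq_right zero_le_one
      have e : (SmO_D s z).1 * (SmO_D s z).2 * (1 - (SmO_D s z).2) = 0 := by
        unfold SmO_D
        rw [hb]
        simp
      rw [e]
      exact SmO_dd_zero

private theorem SmO_cont : ContinuousOn (fun z : ℝ × ℂ × ℂ => SmO_D z.1 z.2)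
    (Icc 0 1 ×ˢ Oh) := by
  have ha : Continuous fun z : ℝ × ℂ × ℂ => SmO_a z.1 := by
    unfold SmO_a
    fun_prop
  have hb : Continuous fun z : ℝ × ℂ × ℂ => SmO_b z.1 := by
    unfold SmO_b
    fun_prop
  have hM : Continuous fun z : ℝ × ℂ × ℂ => SmO_M z.2 := by
    unfold SmO_M
    fun_prop
  unfold SmO_D
  refine ContinuousOn.prodMk (ContinuousOn.div ?_ ?_ ?_) ?_
  · fun_prop
  · exact (Complex.continuous_ofReal.comp (continuous_const.add (ha.mul hM))).continuousOn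
  · intro z hz
    exact Complex.ofReal_ne_zero.2 (SmO_den_pos hz.1 z.2).ne'
  · exact ((Complex.continuous_ofReal.comp (continuous_const.sub hb)).mul
      (continuous_snd.comp continuous_snd)).continuousOn

/-- Proof. Inverse `h ↦ (h, 0)` (`dd 0 = 1`); `fst (h, 0) = h` exactly. Homotopy from `id` to `(h, x) ↦ (h, 0)` in
`Oh`: `D s (h, x) = (h / (1 + a s * M), (1 - b s) * x)` with `M = ‖h‖ (1 + ‖x‖)²`, `a s = min 1 (min (3 s) (3 - 3 s))`,
`b s = max 0 (min 1 (3 s - 1))`. `s ≤ 1/3`: `b = 0`, the new `y` is `y` times a factor in `(0, 1]`, and `0 < dd y`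
implies `0 < dd (φ y)` for `0 < φ ≤ 1` (`dd_pos`). `1/3 ≤ s ≤ 2/3`: `a = 1` and `‖y‖ < 1`, so `y.re < 1`.
`2/3 ≤ s`: `x = 0`, `y = 0`. -/
theorem Oh_eqv : Eqv Oh Cx Prod.fst := by
  refine ⟨⟨continuousOn_fst, fun z hz => hz.1⟩, fun h => (h, 0), ⟨by fun_prop, ?_⟩, ?_,
    Hty.refl MapC.id⟩
  · intro h hh
    refine ⟨hh, ?_⟩
    change 0 < dd (h * 0 * (1 - 0))
    rw [mul_zero, zero_mul]
    exact SmO_dd_zero
  · refine Hty.symm ⟨SmO_D, SmO_cont, fun s hs => SmO_maps hs, ?_, ?_⟩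
    · intro z _
      have ha : SmO_a 0 = 0 := by
        unfold SmO_a
        norm_num
      have hb : SmO_b 0 = 0 := by
        unfold SmO_b
        norm_num
      unfold SmO_D
      rw [ha, hb]
      simp
    · intro z _
      have ha : SmO_a 1 = 0 := by
        unfold SmO_a
        norm_num
      have hb : SmO_b 1 = 1 := by
        unfold SmO_b
        norm_num
      unfold SmO_D
      rw [ha, hb]
      simp

end Pool.Agent.MP_c984cf_ag_N5
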