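import Pool.Agent.Lib.MP_c984cf_ag_N5.Pol

/-!
# Contractible hypersurfaces of log-general type in dimension five: smoothness
-/

set_option autoImplicit false

noncomputable section

namespace Pool.Agent.MP_c984cf_ag_N5

open MvPolynomial

private theorem Smooth_X (i j : Fin 5) :
    pderiv i (X j : P5) = if i = j then 1 else 0 := by
  by_cases h : i = j
  · rw [h, if_pos rfl, pderiv_X_self]
  · rw [if_neg h, pderiv_X_of_ne (Ne.symm h)]

private theorem Smooth_d (i : Fin 5) (x : Fin 5 → ℂ) (t u v a b : ℂ)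
    (ht : t = if i = 0 then 1 else 0) (hu : u = if i = 1 then 1 else 0)
    (hv : v = if i = 2 then 1 else 0) (ha : a = if i = 3 then 1 else 0)
    (hb : b = if i = 4 then 1 else 0) :
    eval x (pderiv i pp) =
      (2 * tauR (x 3) (1 + x 0 * x 2) (x 0 * x 1) (x 4) *
          ccR (x 3) (1 + x 0 * x 2) (x 0 * x 1) (x 4) +
        ccR (x 3) (1 + x 0 * x 2) (x 0 * x 1) (x 4) ^ 2) *
        (a * (1 + x 0 * x 2) ^ 2 + x 3 * (2 * (1 + x 0 * x 2) * (t * x 2 + x 0 * v)) +
          (t * x 1 + x 0 * u) * x 4 ^ 3 + x 0 * x 1 * (3 * x 4 ^ 2 * b)) +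
      (tauR (x 3) (1 + x 0 * x 2) (x 0 * x 1) (x 4) ^ 2 +
        2 * tauR (x 3) (1 + x 0 * x 2) (x 0 * x 1) (x 4) *
          ccR (x 3) (1 + x 0 * x 2) (x 0 * x 1) (x 4)) *
        (a * (x 0 * x 1) + x 3 * (t * x 1 + x 0 * u) + (t * x 2 + x 0 * v) * x 4 +
          (1 + x 0 * x 2) * b) - t := by
  have e0 : eval x (pderiv i (X 0 : P5)) = t := by rw [Smooth_X, ht]; split_ifs <;> simp
  have e1 : eval x (pderiv i (X 1 : P5)) = u := by rw [Smooth_X, hu]; split_ifs <;> simp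
  have e2 : eval x (pderiv i (X 2 : P5)) = v := by rw [Smooth_X, hv]; split_ifs <;> simp
  have e3 : eval x (pderiv i (X 3 : P5)) = a := by rw [Smooth_X, ha]; split_ifs <;> simp
  have e4 : eval x (pderiv i (X 4 : P5)) = b := by rw [Smooth_X, hb]; split_ifs <;> simp
  simp only [pp, QR, qR, tauR, ccR, map_sub, map_add, Derivation.leibniz, Derivation.leibniz_pow,
    smul_eq_mul, map_mul, map_pow, eval_X, e0, e1, e2, e3, e4, pderiv_one, map_one, map_zero,
    nsmul_eq_mul, map_ofNat, Nat.cast_ofNat]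
  ring

/-- Proof. Let `x = (t, u, v, a, b)`, `g₂ = 1 + t v`, `g₃ = t u`, `τ, c` the values of `tauR, ccR`, `Q₁ = 2 τ c + c²`,
`Q₂ = τ² + 2 τ c`, `A₂ = Q₁ (2 a g₂) + Q₂ b`, `A₃ = Q₁ b³ + Q₂ a`. Then (expand `pp`, `pderiv`, `simp`, `ring`):
`∂u = t A₃`, `∂v = t A₂`, `∂t = v A₂ + u A₃ - 1`, `∂a = Q₁ g₂² + Q₂ g₃`, `∂b = Q₁ 3 g₃ b² + Q₂ g₂`. Suppose all are `0`. If
`t ≠ 0`: `A₂ = A₃ = 0`, so `∂t = -1`. If `t = 0`: `g₂ = 1, g₃ = 0`, `∂a = Q₁`, `∂b = Q₂`, `τ = a`, `c = b`, `pp = 0` means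
`1 + a² b + a b² = 0`; `b (2 a + b) = 0`, `a (a + 2 b) = 0` and `a, b ≠ 0` give `b = - 2 a`, `a = - 2 b`, `a = 0`. -/
theorem pp_smooth (x : Fin 5 → ℂ) (hx : eval x pp = 0) : ∃ i, eval x (pderiv i pp) ≠ 0 := by
  by_contra hcon
  push Not at hcon
  have h0 := hcon 0
  have h1 := hcon 1
  have h2 := hcon 2
  have h3 := hcon 3
  have h4 := hcon 4
  rw [Smooth_d 0 x 1 0 0 0 0 (by simp) (by simp) (by simp) (by simp) (by simp)] at h0
  rw [Smooth_d 1 x 0 1 0 0 0 (by simp) (by simp) (by simp) (by simp) (by simp)] at h1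
  rw [Smooth_d 2 x 0 0 1 0 0 (by simp) (by simp) (by simp) (by simp) (by simp)] at h2
  rw [Smooth_d 3 x 0 0 0 1 0 (by simp) (by simp) (by simp) (by simp) (by simp)] at h3
  rw [Smooth_d 4 x 0 0 0 0 1 (by simp) (by simp) (by simp) (by simp) (by simp)] at h4
  rw [eval_pp] at hx
  generalize x 0 = t at *
  generalize x 1 = u at *
  generalize x 2 = v at *
  generalize x 3 = a at *
  generalize x 4 = b at *
  by_cases ht : t = 0
  · subst ht
    simp only [QR, qR, tauR, ccR] at hx h3 h4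
    have k3 : b * (2 * a + b) = 0 := by linear_combination h3
    have k4 : a * (a + 2 * b) = 0 := by linear_combination h4
    have kx : 1 + a ^ 2 * b + a * b ^ 2 = 0 := by linear_combination hx
    have hb : b ≠ 0 := by
      rintro rfl
      simp at kx
    have ha : a ≠ 0 := by
      rintro rfl
      simp at kx
    have m1 : 2 * a + b = 0 := (mul_eq_zero.1 k3).resolve_left hb
    have m2 : a + 2 * b = 0 := (mul_eq_zero.1 k4).resolve_left ha
    apply ha
    linear_combination (2 / 3) * m1 - (1 / 3) * m2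
  · generalize hτ : tauR a (1 + t * v) (t * u) b = τ at *
    generalize hc : ccR a (1 + t * v) (t * u) b = c at *
    have k1 : (2 * τ * c + c ^ 2) * b ^ 3 + (τ ^ 2 + 2 * τ * c) * a = 0 := by
      have : t * ((2 * τ * c + c ^ 2) * b ^ 3 + (τ ^ 2 + 2 * τ * c) * a) = 0 := by
        linear_combination h1
      exact (mul_eq_zero.1 this).resolve_left ht
    have k2 : (2 * τ * c + c ^ 2) * (2 * a * (1 + t * v)) + (τ ^ 2 + 2 * τ * c) * b = 0 := by
      have : t * ((2 * τ * c + c ^ 2) * (2 * a * (1 + t * v)) + (τ ^ 2 + 2 * τ * c) * b) = 0 := by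
        linear_combination h2
      exact (mul_eq_zero.1 this).resolve_left ht
    have : (1 : ℂ) = 0 := by linear_combination v * k2 + u * k1 - h0
    exact one_ne_zero this

end Pool.Agent.MP_c984cf_ag_N5
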