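import Pool.Agent.Lib.MP_c984cf_ag_N5.UpC

/-!
# Contractible hypersurfaces of log-general type in dimension five: coordinates on `Up`
-/

set_option autoImplicit false

noncomputable section

namespace Pool.Agent.MP_c984cf_ag_N5

open Set Filter Topology

private theorem UpE_ch_cont : Continuous ch :=
  (Ph_cont.comp Gg_cont).prodMk (eta_cont.prodMk nu_cont)

private theorem UpE_ch_mem {z : C5} (hz : z ∈ Up) : ch z ∈ Wc := by
  obtain ⟨⟨hX, hT⟩, hs⟩ := hz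
  refine ⟨hT, ?_⟩
  change 0 < sz (Ph (Gg z)) ‖Qf (Ph (Gg z))‖ ‖eta z‖ ‖nu z‖
  rw [X5_Q hX]
  exact hs

private theorem UpE_ci_mem {z : (ℂ × ℂ) × (ℂ × ℂ)} (hz : z ∈ Wc) : ci z ∈ Up := by
  obtain ⟨h1, h2⟩ := ci_mem hz
  have h3 := ch_ci hz
  have h4 : eta (ci z) = z.2.1 := congrArg (fun w => w.2.1) h3
  have h5 : nu (ci z) = z.2.2 := congrArg (fun w => w.2.2) h3
  refine ⟨⟨h2, ?_⟩, ?_⟩
  · rw [h1]
    exact hz.1
  · rw [h1, h4, h5]
    exact hz.2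

private theorem UpE_ci_cont : ContinuousOn ci Wc := by
  have c0 : Continuous (fun z : (ℂ × ℂ) × (ℂ × ℂ) => Qf z.1) := Qf_cont.comp continuous_fst
  have c1 : Continuous om := by
    unfold om
    exact (by fun_prop : Continuous fun z : (ℂ × ℂ) × (ℂ × ℂ) => z.1.1).add
      (c0.mul (by fun_prop))
  have h1 : ∀ z ∈ Wc, om z ≠ 0 := fun z hz => (Wc_est hz).1
  have h2 : ∀ z ∈ Wc, x1 z ≠ 0 := fun z hz => (Wc_est hz).2
  have c2 : ContinuousOn xi Wc := by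
    unfold xi
    refine ContinuousOn.div ?_ c1.continuousOn h1
    exact ((by fun_prop : Continuous fun z : (ℂ × ℂ) × (ℂ × ℂ) => z.2.1).mul
      (((by fun_prop : Continuous fun z : (ℂ × ℂ) × (ℂ × ℂ) => z.1.2).sub
        (c0.mul (by fun_prop))).pow 3)).continuousOn
  have c3 : ContinuousOn x1 Wc := by
    unfold x1
    exact (by fun_prop : Continuous fun z : (ℂ × ℂ) × (ℂ × ℂ) => z.1.1).continuousOn.sub
      (c0.continuousOn.mul c2)
  have c4 : ContinuousOn (fun z => x1 z ^ 3 / om z ^ 2) Wc :=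
    (c3.pow 3).div (c1.continuousOn.pow 2) fun z hz => pow_ne_zero 2 (h1 z hz)
  have h4 : ∀ z ∈ Wc, x1 z ^ 3 / om z ^ 2 ≠ 0 := fun z hz =>
    div_ne_zero (pow_ne_zero 3 (h2 z hz)) (pow_ne_zero 2 (h1 z hz))
  unfold ci
  refine c0.continuousOn.prodMk (ContinuousOn.prodMk ?_ (ContinuousOn.prodMk ?_
    (c4.prodMk ?_)))
  · exact (by fun_prop : Continuous fun z : (ℂ × ℂ) × (ℂ × ℂ) => z.2.1).continuousOn.div c4 h4
  · exact ((by fun_prop : Continuous fun z : (ℂ × ℂ) × (ℂ × ℂ) => z.2.2).continuousOn.add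
      c2).div c3 h2
  · refine ContinuousOn.div (ContinuousOn.mul ?_ c3) c1.continuousOn h1
    exact ((by fun_prop : Continuous fun z : (ℂ × ℂ) × (ℂ × ℂ) => z.1.2).sub
        (c0.mul (by fun_prop))).continuousOn

/-- Proof. `Eqv.of_inv` with `ch : Up → Wc`, `ci`; `ci` is continuous on `Wc` (`Wc_est`); `Wc_eqv`. -/
theorem Up_eqv : Eqv Up Tt (fun z => Ph (Gg z)) := by
  have e : Eqv Up Wc ch := Eqv.of_inv (g := ci) ⟨UpE_ch_cont.continuousOn, fun z hz =>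
    UpE_ch_mem hz⟩ ⟨UpE_ci_cont, fun z hz => UpE_ci_mem hz⟩ (fun z hz => ci_ch hz)
    fun z hz => ch_ci hz
  exact Wc_eqv.comp e

/-- The same restricted to `{t ≠ 0}` (`Wc_eqv'`). -/
theorem Up_eqv' : Eqv (Vx ∩ Up) Mm (fun z => Ph (Gg z)) := by
  have e : Eqv (Vx ∩ Up) {z | z ∈ Wc ∧ Qf z.1 ≠ 0} ch := by
    refine Eqv.of_inv (g := ci) ⟨UpE_ch_cont.continuousOn, fun z hz => ⟨UpE_ch_mem hz.2, ?_⟩⟩
      ⟨UpE_ci_cont.mono fun z hz => hz.1, fun z hz => ?_⟩ (fun z hz => ci_ch hz.2)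
      fun z hz => ch_ci hz.1
    · change Qf (Ph (Gg z)) ≠ 0
      rw [X5_Q hz.2.1.1]
      exact hz.1.2
    · have h := UpE_ci_mem hz.1
      exact ⟨⟨h.1, hz.2⟩, h⟩
  exact Wc_eqv'.comp e

end Pool.Agent.MP_c984cf_ag_N5
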