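import Pool.Agent.Lib.MP_c984cf_ag_N5.SCtr
import Pool.Agent.Lib.MP_c984cf_ag_N5.Retr
import Pool.Agent.Lib.MP_c984cf_ag_N5.Act
import Pool.Agent.Lib.MP_c984cf_ag_N5.UpE

/-!
# Contractible hypersurfaces of log-general type in dimension five: `X5` is contractible
-/

set_option autoImplicit false

noncomputable section

namespace Pool.Agent.MP_c984cf_ag_N5

open Set Filter Topology

theorem PG_cont : Continuous fun z : C5 => Ph (Gg z) := Ph_cont.comp Gg_cont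

theorem Vx_iff {z : C5} : z ∈ Vx ↔ z ∈ Ux ∧ Ph (Gg z) ∈ Mm := by
  constructor
  · rintro ⟨h1, h2⟩
    refine ⟨h1, h1.2, ?_⟩
    rw [X5_Q h1.1]
    exact h2
  · rintro ⟨h1, h2⟩
    refine ⟨h1, ?_⟩
    rw [← X5_Q h1.1]
    exact h2.2

theorem sz_zero {p : ℂ × ℂ} (hp : p ∈ Tt) (e n : ℝ) : 0 < sz p 0 e n := by
  unfold sz
  have h1 : 0 < ‖p.1‖ := norm_pos_iff.2 hp.1
  rw [zero_mul, zero_mul, zero_mul, sub_zero, sub_zero, lt_min_iff]
  exact ⟨by positivity, by positivity⟩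

theorem Ux_union : Vx ∪ Up = Ux := by
  ext z
  constructor
  · rintro (h | h) <;> exact h.1
  · intro h
    by_cases h1 : z.1 = 0
    · refine Or.inr ⟨h, ?_⟩
      rw [h1, norm_zero]
      exact sz_zero h.2 _ _
    · exact Or.inl ⟨h, h1⟩

theorem Up_Ux : Eqv Up Ux id := by
  rw [← Ux_union]
  have hS : ∀ x ∈ Vx ∪ Up, x ∈ Ux := by
    intro x hx
    rw [Ux_union] at hx
    exact hx
  refine glue' (a := fun z : C5 => ‖z.1‖)
    (b := fun z : C5 => sz (Ph (Gg z)) ‖z.1‖ ‖eta z‖ ‖nu z‖) ?_ ?_ ?_ ?_ ?_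
  · fun_prop
  · have h1 : Continuous fun z : C5 => (Ph (Gg z)).1 := continuous_fst.comp PG_cont
    have h2 : Continuous fun z : C5 => (Ph (Gg z)).2 := continuous_snd.comp PG_cont
    have h3 := eta_cont
    have h4 := nu_cont
    unfold sz
    fun_prop
  · intro z hz
    rw [norm_pos_iff]
    exact ⟨fun h => ⟨hS z hz, h⟩, fun h => h.2⟩
  · intro z hz
    exact ⟨fun h => ⟨hS z hz, h⟩, fun h => h.2⟩
  · refine Eqv.of_comp_right (MapC.id.mono (fun _ h => h) inter_subset_left)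
      (Vx_eqv S_ctr) ?_
    exact Up_eqv'

theorem Ux_eqv : Eqv Ux Tt (fun z => Ph (Gg z)) :=
  Eqv.of_comp_left (f := id) ⟨PG_cont.continuousOn, fun _ hz => hz.2⟩ Up_Ux Up_eqv

/-- cut off on `ℂ⁴` -/
def lam (g : C4) : ℝ := ‖tau g * cc g‖ / (‖Qf (Ph g)‖ + ‖tau g * cc g‖)

theorem lam_pos (g : C4) : 0 < ‖Qf (Ph g)‖ + ‖tau g * cc g‖ := by
  by_cases h : Qf (Ph g) = 0
  · have h1 := Tt_of_Q h
    have h2 : 0 < ‖tau g * cc g‖ := norm_pos_iff.2 (mul_ne_zero h1.1 h1.2)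
    have h3 := norm_nonneg (Qf (Ph g))
    linarith
  · have h2 : 0 < ‖Qf (Ph g)‖ := norm_pos_iff.2 h
    have h3 := norm_nonneg (tau g * cc g)
    linarith

theorem lam_cont : Continuous lam := by
  have h1 := Qf_cont.comp Ph_cont
  have h2 := tau_cont
  have h3 := cc_cont
  unfold lam
  refine Continuous.div (by fun_prop) ?_ fun g => (lam_pos g).ne'
  exact (h1.norm).add (by fun_prop)

theorem lam_lt {g : C4} : lam g < 1 ↔ Qf (Ph g) ≠ 0 := by
  unfold lam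
  rw [div_lt_one (lam_pos g)]
  constructor
  · intro h h1
    rw [h1, norm_zero, zero_add] at h
    exact lt_irrefl _ h
  · intro h
    have := norm_pos_iff.2 h
    linarith

theorem lam_gt {g : C4} : 0 < lam g ↔ Ph g ∈ Tt := by
  unfold lam
  constructor
  · intro h
    by_contra h1
    have h2 : tau g * cc g = 0 := by
      by_contra h3
      exact h1 ⟨left_ne_zero_of_mul h3, right_ne_zero_of_mul h3⟩
    rw [h2, norm_zero, zero_div] at h
    exact lt_irrefl _ h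
  · intro h
    exact div_pos (norm_pos_iff.2 (mul_ne_zero h.1 h.2)) (lam_pos g)

theorem X5_ctr : Ctr X5 := by
  obtain ⟨_, i, mi, hi, _⟩ := Ux_eqv
  have hU : {x | x ∈ X5 ∧ 0 < lam (Gg x)} = Ux := by
    ext x
    constructor
    · rintro ⟨h1, h2⟩
      exact ⟨h1, lam_gt.1 h2⟩
    · rintro ⟨h1, h2⟩
      exact ⟨h1, lam_gt.2 h2⟩
  refine retr (X := X5) (Y := (univ : Set C4)) (π := Gg) (q := Gi) (l := lam)
    (j := fun g => i (Ph g)) ⟨Gg_cont.continuousOn, fun _ _ => mem_univ _⟩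
    lam_cont.continuousOn ?_ ?_ ?_ ?_ ?_ ?_
  · refine ⟨?_, ?_⟩
    · have h1 : ContinuousOn (fun g => Qf (Ph g)) {y | y ∈ (univ : Set C4) ∧ lam y < 1} :=
        (Qf_cont.comp Ph_cont).continuousOn
      have h2 : ∀ g ∈ {y | y ∈ (univ : Set C4) ∧ lam y < 1}, Qf (Ph g) ≠ 0 :=
        fun g hg => lam_lt.1 hg.2
      unfold Gi
      refine h1.prodMk (ContinuousOn.prodMk ?_ (ContinuousOn.prodMk ?_ (by fun_prop)))
      · exact ContinuousOn.div (by fun_prop) h1 h2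
      · exact ContinuousOn.div (by fun_prop) h1 h2
    · intro g hg
      exact Gi_mem (lam_lt.1 hg.2)
  · intro x hx h
    have h1 := lam_lt.1 h
    rw [X5_Q hx] at h1
    exact Gi_Gg hx h1
  · intro g _ h
    exact Gg_Gi (lam_lt.1 h)
  · rw [hU]
    refine mi.comp ⟨Ph_cont.continuousOn, ?_⟩
    intro g hg
    exact lam_gt.1 hg.2
  · rw [hU]
    exact hi
  · exact Ctr.of_convex convex_univ (mem_univ 0)

end Pool.Agent.MP_c984cf_ag_N5
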