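import Pool.Agent.Lib.MP_c984cf_ag_N5.LG
import Pool.Agent.Lib.MP_c984cf_ag_N5.Smooth
import Pool.Agent.Lib.MP_c984cf_ag_N5.XCtr
import Pool.Agent.Lib.MP_c984cf_ag.Step

/-!
# Contractible hypersurfaces of log-general type: all dimensions `n ≥ 5`
-/

set_option autoImplicit false

noncomputable section

namespace Pool.Agent.MP_c984cf_ag_N5

open MvPolynomial Pool.Agent.MP_c984cf_ag

/-- the explicit example in `ℂ⁵` -/
theorem pp_good : IsSmoothContractibleLG 5 pp where
  irreducible := pp_prime.irreducible
  smooth := pp_smooth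
  contractible := by
    have := X5_ctr.contractibleSpace
    exact homX.contractibleSpace
  logGeneral := pp_logGeneral

theorem exists_all (n : ℕ) (hn : 5 ≤ n) : ∃ p : MvPolynomial (Fin n) ℂ, IsSmoothContractibleLG n p := by
  induction n, hn using Nat.le_induction with
  | base => exact ⟨pp, pp_good⟩
  | succ k hk ih =>
    obtain ⟨q, hq⟩ := ih
    exact step (le_trans (by norm_num) hk) hq

end Pool.Agent.MP_c984cf_ag_N5
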