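import Pool.Agent.Lib.MP_c984cf_ag_N5.WcE

/-!
# Contractible hypersurfaces of log-general type in dimension five: coordinates on `Up`, formulas
-/

set_option autoImplicit false

noncomputable section

namespace Pool.Agent.MP_c984cf_ag_N5

open Set Filter Topology

/-- the coordinates `((τ, c), (η, ν))` -/
def ch (z : C5) : (ℂ × ℂ) × (ℂ × ℂ) := (Ph (Gg z), (eta z, nu z))

/-- `ω = τ + t ν` (this is `g₁ g₂³`) -/
def om (z : (ℂ × ℂ) × (ℂ × ℂ)) : ℂ := z.1.1 + Qf z.1 * z.2.2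

/-- `ξ = η (c - t η)³ / ω` (this is `u g₄³`) -/
def xi (z : (ℂ × ℂ) × (ℂ × ℂ)) : ℂ := z.2.1 * (z.1.2 - Qf z.1 * z.2.1) ^ 3 / om z

/-- `X₁ = τ - t ξ` (this is `g₁ g₂²`) -/
def x1 (z : (ℂ × ℂ) × (ℂ × ℂ)) : ℂ := z.1.1 - Qf z.1 * xi z

/-- inverse of `ch`: `a = X₁³ / ω²`, `v = (ν + ξ) / X₁`, `u = η / a`, `b = (c - t η) X₁ / ω` -/
def ci (z : (ℂ × ℂ) × (ℂ × ℂ)) : C5 :=
  (Qf z.1, z.2.1 / (x1 z ^ 3 / om z ^ 2), (z.2.2 + xi z) / x1 z, x1 z ^ 3 / om z ^ 2,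
    (z.1.2 - Qf z.1 * z.2.1) * x1 z / om z)

private theorem UpC_est {z : (ℂ × ℂ) × (ℂ × ℂ)} (hz : z ∈ Wc) : om z ≠ 0 ∧ x1 z ≠ 0 := Wc_est hz

private theorem UpC_g2 {z : (ℂ × ℂ) × (ℂ × ℂ)} (h1 : x1 z ≠ 0) :
    1 + Qf z.1 * ((z.2.2 + xi z) / x1 z) = om z / x1 z := by
  have h2 : om z = x1 z + Qf z.1 * (z.2.2 + xi z) := by
    unfold om x1
    ring
  rw [h2]
  field_simp

private theorem UpC_xi {z : (ℂ × ℂ) × (ℂ × ℂ)} (h : om z ≠ 0) :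
    xi z * om z = z.2.1 * (z.1.2 - Qf z.1 * z.2.1) ^ 3 := by
  unfold xi
  field_simp

private theorem UpC_Ph {z : (ℂ × ℂ) × (ℂ × ℂ)} (hz : z ∈ Wc) : Ph (Gg (ci z)) = z.1 := by
  obtain ⟨h1, h2⟩ := UpC_est hz
  have h3 := UpC_g2 h2
  have h4 := UpC_xi h1
  have h5 : z.1.1 = x1 z + Qf z.1 * xi z := by
    unfold x1
    ring
  refine Prod.ext ?_ ?_
  · show (x1 z ^ 3 / om z ^ 2) * (1 + Qf z.1 * ((z.2.2 + xi z) / x1 z)) ^ 2 +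
      (Qf z.1 * (z.2.1 / (x1 z ^ 3 / om z ^ 2))) *
        ((z.1.2 - Qf z.1 * z.2.1) * x1 z / om z) ^ 3 = z.1.1
    rw [h3, h5]
    have h6 : (x1 z ^ 3 / om z ^ 2) * (om z / x1 z) ^ 2 = x1 z := by field_simp
    have h7 : (Qf z.1 * (z.2.1 / (x1 z ^ 3 / om z ^ 2))) *
        ((z.1.2 - Qf z.1 * z.2.1) * x1 z / om z) ^ 3 =
        Qf z.1 * ((z.2.1 * (z.1.2 - Qf z.1 * z.2.1) ^ 3) / om z) := by field_simp
    rw [h6, h7, ← h4, mul_div_cancel_right₀ _ h1]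
  · show (x1 z ^ 3 / om z ^ 2) * (Qf z.1 * (z.2.1 / (x1 z ^ 3 / om z ^ 2))) +
      (1 + Qf z.1 * ((z.2.2 + xi z) / x1 z)) *
        ((z.1.2 - Qf z.1 * z.2.1) * x1 z / om z) = z.1.2
    rw [h3]
    field_simp
    ring

/-- `g₁ g₂³ = τ + t ν`, `g₂ g₄ = c - t η`, `g₁ g₂² = τ - t u g₄³`. -/
theorem ch_om {z : C5} (hz : z ∈ X5) : om (ch z) = z.2.2.2.1 * (1 + z.1 * z.2.2.1) ^ 3 := by
  have h1 : Qf (Ph (Gg z)) = z.1 := hz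
  show (Ph (Gg z)).1 + Qf (Ph (Gg z)) * nu z = _
  rw [h1]
  unfold Ph tau Gg nu
  ring

/-- Proof. `g₂ = 1 + t v = ω / X₁`, `a g₂² = X₁`, `g₃ = t u = t η / a`, `b = (c - t η) / g₂`; `tau = X₁ + t η (c - t η)³ / ω
= X₁ + t ξ = τ`, `cc = t η + (c - t η) = c`; `Qf (τ, c) = t`. -/
theorem ci_mem {z : (ℂ × ℂ) × (ℂ × ℂ)} (hz : z ∈ Wc) : Ph (Gg (ci z)) = z.1 ∧ ci z ∈ X5 := by
  have h1 := UpC_Ph hz
  refine ⟨h1, ?_⟩
  show Qf (Ph (Gg (ci z))) = Qf z.1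
  rw [h1]

/-- Proof. `eta = a u = η`, `nu = a g₂² v - u b³ = (ν + ξ) - η b³ / a`, `b³ / a = (c - t η)³ / ω`. -/
theorem ch_ci {z : (ℂ × ℂ) × (ℂ × ℂ)} (hz : z ∈ Wc) : ch (ci z) = z := by
  obtain ⟨h1, h2⟩ := UpC_est hz
  have h3 := UpC_g2 h2
  have h4 := UpC_xi h1
  refine Prod.ext (UpC_Ph hz) (Prod.ext ?_ ?_)
  · show (x1 z ^ 3 / om z ^ 2) * (z.2.1 / (x1 z ^ 3 / om z ^ 2)) = z.2.1
    field_simp
  · show (x1 z ^ 3 / om z ^ 2) * (1 + Qf z.1 * ((z.2.2 + xi z) / x1 z)) ^ 2 *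
        ((z.2.2 + xi z) / x1 z) - z.2.1 / (x1 z ^ 3 / om z ^ 2) *
        ((z.1.2 - Qf z.1 * z.2.1) * x1 z / om z) ^ 3 = z.2.2
    rw [h3]
    have h6 : (x1 z ^ 3 / om z ^ 2) * (om z / x1 z) ^ 2 * ((z.2.2 + xi z) / x1 z) =
        z.2.2 + xi z := by field_simp
    have h7 : z.2.1 / (x1 z ^ 3 / om z ^ 2) *
        ((z.1.2 - Qf z.1 * z.2.1) * x1 z / om z) ^ 3 =
        (z.2.1 * (z.1.2 - Qf z.1 * z.2.1) ^ 3) / om z := by field_simp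
    rw [h6, h7, ← h4, mul_div_cancel_right₀ _ h1]
    ring

/-- Proof. `ch z ∈ Wc`, so `ω = g₁ g₂³ ≠ 0` (`ch_om`, `Wc_est`); `ξ = u g₄³`, `X₁ = g₁ g₂²`, direct computation. -/
theorem ci_ch {z : C5} (hz : z ∈ Up) : ci (ch z) = z := by
  obtain ⟨⟨hX, hT⟩, hs⟩ := hz
  have hQ : Qf (Ph (Gg z)) = z.1 := hX
  have hW : ch z ∈ Wc := by
    refine ⟨hT, ?_⟩
    show 0 < sz (Ph (Gg z)) ‖Qf (Ph (Gg z))‖ ‖eta z‖ ‖nu z‖
    rw [hQ]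
    exact hs
  obtain ⟨h1, h2⟩ := UpC_est hW
  have hom := ch_om hX
  have hQc : Qf (ch z).1 = z.1 := hQ
  obtain ⟨t, u, v, a, b⟩ := z
  have hom' : om (ch (t, u, v, a, b)) = a * (1 + t * v) ^ 3 := hom
  rw [hom'] at h1
  have ha : a ≠ 0 := left_ne_zero_of_mul h1
  have hg : 1 + t * v ≠ 0 := by
    intro h0
    rw [h0] at h1
    simp at h1
  have hQc' : Qf (ch (t, u, v, a, b)).1 = t := hQc
  have hce : (ch (t, u, v, a, b)).1.2 - t * (ch (t, u, v, a, b)).2.1 = (1 + t * v) * b := by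
    show (a * (t * u) + (1 + t * v) * b) - t * (a * u) = (1 + t * v) * b
    ring
  have hxi : xi (ch (t, u, v, a, b)) = u * b ^ 3 := by
    unfold xi
    rw [hom', hQc', hce]
    show a * u * ((1 + t * v) * b) ^ 3 / (a * (1 + t * v) ^ 3) = u * b ^ 3
    field_simp
  have hx1 : x1 (ch (t, u, v, a, b)) = a * (1 + t * v) ^ 2 := by
    unfold x1
    rw [hQc', hxi]
    show (a * (1 + t * v) ^ 2 + t * u * b ^ 3) - t * (u * b ^ 3) = a * (1 + t * v) ^ 2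
    ring
  have hnu : (ch (t, u, v, a, b)).2.2 + u * b ^ 3 = a * (1 + t * v) ^ 2 * v := by
    show (a * (1 + t * v) ^ 2 * v - u * b ^ 3) + u * b ^ 3 = _
    ring
  unfold ci
  rw [hQc', hom', hxi, hx1, hce, hnu]
  have e1 : (a * (1 + t * v) ^ 2) ^ 3 / (a * (1 + t * v) ^ 3) ^ 2 = a := by field_simp
  rw [e1]
  refine Prod.ext rfl (Prod.ext ?_ (Prod.ext ?_ (Prod.ext rfl ?_)))
  · show a * u / a = u
    field_simp
  · show a * (1 + t * v) ^ 2 * v / (a * (1 + t * v) ^ 2) = v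
    field_simp
  · show (1 + t * v) * b * (a * (1 + t * v) ^ 2) / (a * (1 + t * v) ^ 3) = b
    field_simp

end Pool.Agent.MP_c984cf_ag_N5
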