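import Pool.Agent.Lib.MP_c984cf_ag_N5.XDefs

/-!
# Contractible hypersurfaces of log-general type in dimension five: the model of `Up`
-/

set_option autoImplicit false

noncomputable section

namespace Pool.Agent.MP_c984cf_ag_N5

open Set Filter Topology

/-- `sz` is antitone in `e, n` (for `0 ≤ t, e, n`). -/
theorem sz_anti {p : ℂ × ℂ} {t e n e' n' : ℝ} (ht : 0 ≤ t) (he' : 0 ≤ e') (hn' : 0 ≤ n') (he : e' ≤ e)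
    (hn : n' ≤ n) : sz p t e n ≤ sz p t e' n' := by
  unfold sz
  have h1 : t * n' ≤ t * n := mul_le_mul_of_nonneg_left hn ht
  have h2 : t * e' ≤ t * e := mul_le_mul_of_nonneg_left he ht
  have h3 : 0 ≤ t * e' := mul_nonneg ht he'
  have h4 : (‖p.2‖ + t * e') ^ 3 ≤ (‖p.2‖ + t * e) ^ 3 :=
    pow_le_pow_left₀ (add_nonneg (norm_nonneg _) h3) (by linarith) 3
  have h5 : t * e' * (‖p.2‖ + t * e') ^ 3 ≤ t * e * (‖p.2‖ + t * e) ^ 3 :=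
    mul_le_mul h2 h4 (pow_nonneg (add_nonneg (norm_nonneg _) h3) 3) (h3.trans h2)
  exact min_le_min (by linarith) (by linarith)

private theorem WcE_zero {b : ℂ × ℂ} (hb : b ∈ Tt) : (b, (0 : ℂ × ℂ)) ∈ Wc := by
  refine ⟨hb, ?_⟩
  have h1 : 0 < ‖b.1‖ := norm_pos_iff.2 hb.1
  change 0 < min (‖b.1‖ / 2 - ‖Qf b‖ * ‖(0 : ℂ)‖)
    (‖b.1‖ ^ 2 / 4 - ‖Qf b‖ * ‖(0 : ℂ)‖ * (‖b.2‖ + ‖Qf b‖ * ‖(0 : ℂ)‖) ^ 3)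
  rw [norm_zero, mul_zero, zero_mul, sub_zero, sub_zero]
  exact lt_min (by positivity) (by positivity)

private theorem WcE_star {z : (ℂ × ℂ) × (ℂ × ℂ)} (hz : z ∈ Wc) {s : ℝ} (hs : s ∈ Icc (0 : ℝ) 1) :
    (z.1, s • z.2) ∈ Wc := by
  refine ⟨hz.1, hz.2.trans_le ?_⟩
  have hn : ∀ w : ℂ, ‖s • w‖ ≤ ‖w‖ := by
    intro w
    rw [norm_smul, Real.norm_of_nonneg hs.1]
    exact mul_le_of_le_one_left (norm_nonneg w) hs.2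
  exact sz_anti (norm_nonneg _) (norm_nonneg _) (norm_nonneg _) (hn z.2.1) (hn z.2.2)

/-- Proof. `Eqv.of_star`; `sz_anti`; at `(p, 0)`: `sz p t 0 0 = min (‖p.1‖/2) (‖p.1‖²/4) > 0`. -/
theorem Wc_eqv : Eqv Wc Tt Prod.fst := by
  exact Eqv.of_star (fun z hz => hz.1) (fun b hb => WcE_zero hb)
    (fun z hz s hs => WcE_star hz hs)

theorem Wc_eqv' : Eqv {z | z ∈ Wc ∧ Qf z.1 ≠ 0} Mm Prod.fst := by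
  exact Eqv.of_star (fun z hz => ⟨hz.1.1, hz.2⟩) (fun b hb => ⟨WcE_zero hb.1, hb.2⟩)
    (fun z hz s hs => ⟨WcE_star hz.1 hs, hz.2⟩)

/-- Estimates in the coordinates: `ω = τ + t ν ≠ 0`, `‖t ξ‖ < ‖τ‖ / 2` for `ξ = η (c - t η)³ / ω`, so
`X₁ = τ - t ξ ≠ 0`. Proof. `‖ω‖ > ‖τ‖ / 2`, `‖t ξ‖ ≤ ‖t‖ ‖η‖ (‖c‖ + ‖t‖ ‖η‖)³ / ‖ω‖ < (‖τ‖² / 4) / (‖τ‖ / 2)`. -/
theorem Wc_est {z : (ℂ × ℂ) × (ℂ × ℂ)} (hz : z ∈ Wc) :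
    z.1.1 + Qf z.1 * z.2.2 ≠ 0 ∧
      z.1.1 - Qf z.1 * (z.2.1 * (z.1.2 - Qf z.1 * z.2.1) ^ 3 / (z.1.1 + Qf z.1 * z.2.2)) ≠ 0 := by
  obtain ⟨⟨⟨τ, c⟩, ⟨η, ν⟩⟩, hz'⟩ : ∃ w : (ℂ × ℂ) × (ℂ × ℂ), w = z := ⟨z, rfl⟩
  subst hz'
  obtain ⟨hT, hs⟩ := hz
  have h0 : 0 < ‖τ‖ := norm_pos_iff.2 hT.1
  have hs' : 0 < min (‖τ‖ / 2 - ‖Qf (τ, c)‖ * ‖ν‖)
      (‖τ‖ ^ 2 / 4 - ‖Qf (τ, c)‖ * ‖η‖ * (‖c‖ + ‖Qf (τ, c)‖ * ‖η‖) ^ 3) := hs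
  rw [lt_min_iff] at hs'
  obtain ⟨h1, h2⟩ := hs'
  change τ + Qf (τ, c) * ν ≠ 0 ∧
      τ - Qf (τ, c) * (η * (c - Qf (τ, c) * η) ^ 3 / (τ + Qf (τ, c) * ν)) ≠ 0
  generalize Qf (τ, c) = t at h1 h2 ⊢
  have h3 : ‖τ‖ / 2 < ‖τ + t * ν‖ := by
    have h4 : ‖τ‖ ≤ ‖τ + t * ν‖ + ‖t * ν‖ := by
      calc ‖τ‖ = ‖(τ + t * ν) - t * ν‖ := by rw [add_sub_cancel_right]
        _ ≤ ‖τ + t * ν‖ + ‖t * ν‖ := norm_sub_le _ _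
    rw [norm_mul] at h4
    linarith
  have h5 : 0 < ‖τ + t * ν‖ := by linarith
  refine ⟨norm_pos_iff.1 h5, ?_⟩
  intro h6
  have h7 : τ = t * (η * (c - t * η) ^ 3 / (τ + t * ν)) := sub_eq_zero.1 h6
  have h8 : ‖c - t * η‖ ≤ ‖c‖ + ‖t‖ * ‖η‖ := by
    calc ‖c - t * η‖ ≤ ‖c‖ + ‖t * η‖ := norm_sub_le _ _
      _ = ‖c‖ + ‖t‖ * ‖η‖ := by rw [norm_mul]
  have h9 : ‖c - t * η‖ ^ 3 ≤ (‖c‖ + ‖t‖ * ‖η‖) ^ 3 := pow_le_pow_left₀ (norm_nonneg _) h8 3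
  have h10 : ‖t‖ * ‖η‖ * ‖c - t * η‖ ^ 3 ≤ ‖t‖ * ‖η‖ * (‖c‖ + ‖t‖ * ‖η‖) ^ 3 :=
    mul_le_mul_of_nonneg_left h9 (by positivity)
  have h11 : ‖τ‖ * ‖τ + t * ν‖ = ‖t‖ * ‖η‖ * ‖c - t * η‖ ^ 3 := by
    have h12 : ‖τ‖ = ‖t‖ * (‖η‖ * ‖c - t * η‖ ^ 3 / ‖τ + t * ν‖) := by
      have h13 := congrArg norm h7
      rw [norm_mul, norm_div, norm_mul, norm_pow] at h13
      exact h13
    have h14 : ‖τ + t * ν‖ ≠ 0 := h5.ne'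
    calc ‖τ‖ * ‖τ + t * ν‖ = ‖t‖ * (‖η‖ * ‖c - t * η‖ ^ 3 / ‖τ + t * ν‖) * ‖τ + t * ν‖ := by
          rw [← h12]
      _ = ‖t‖ * ‖η‖ * ‖c - t * η‖ ^ 3 := by field_simp
  nlinarith [mul_lt_mul_of_pos_left h3 h0]

end Pool.Agent.MP_c984cf_ag_N5
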