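import Pool.Agent.Lib.MP_c984cf_ag_N5.SDefs

/-!
# Contractible hypersurfaces of log-general type in dimension five: the model of `T0`, `T1`
-/

set_option autoImplicit false

noncomputable section

namespace Pool.Agent.MP_c984cf_ag_N5

open Set Filter Topology

/-- coordinates `(w, y)` of `T0` (`n = 2`) and `T1` (`n = 3`) -/
def Wn (n : ℕ) : Set (ℂ × ℂ) :=
  {z | z.1 ≠ 0 ∧ dd z.2 < 1 ∧ 2 * (z.1 * z.2 * (1 - z.2) ^ n).re < 1 - dd z.2}

/-- the part with `y ∉ [1, ∞)` -/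
def Wn' (n : ℕ) : Set (ℂ × ℂ) := {z | z ∈ Wn n ∧ 0 < dd z.2}

private theorem Wn_re (y : ℂ) (s : ℝ) :
    (((1 - s : ℝ) : ℂ) * y + ((s / 2 : ℝ) : ℂ)).re = (1 - s) * y.re + s / 2 := by
  rw [Complex.add_re, Complex.re_ofReal_mul, Complex.ofReal_re]

private theorem Wn_im (y : ℂ) (s : ℝ) :
    (((1 - s : ℝ) : ℂ) * y + ((s / 2 : ℝ) : ℂ)).im = (1 - s) * y.im := by
  rw [Complex.add_im, Complex.im_ofReal_mul, Complex.ofReal_im, add_zero]

/-- `dd` is convex, `dd (1 / 2) = 1 / 2`. -/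
theorem dd_move {y : ℂ} {s : ℝ} (h0 : 0 ≤ s) (h1 : s ≤ 1) :
    dd ((1 - s : ℝ) * y + (s / 2 : ℝ)) ≤ (1 - s) * dd y + s / 2 := by
  unfold dd
  rw [Wn_re, Wn_im, abs_mul, abs_of_nonneg (by linarith : 0 ≤ 1 - s)]
  have h2 : max 0 (1 - ((1 - s) * y.re + s / 2)) ≤ (1 - s) * max 0 (1 - y.re) + s / 2 := by
    have h3 : 0 ≤ (1 - s) * max 0 (1 - y.re) :=
      mul_nonneg (by linarith) (le_max_left _ _)
    have h4 : (1 - s) * (1 - y.re) ≤ (1 - s) * max 0 (1 - y.re) :=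
      mul_le_mul_of_nonneg_left (le_max_right _ _) (by linarith)
    refine max_le (by linarith) ?_
    nlinarith
  nlinarith

/-- the point `y_s` -/
private def Wn_y (z : ℝ × ℂ × ℂ) : ℂ := ((1 - z.1 : ℝ) : ℂ) * z.2.2 + ((z.1 / 2 : ℝ) : ℂ)

/-- the number `ρ s` -/
private def Wn_r (z : ℝ × ℂ × ℂ) : ℝ := (1 - dd (Wn_y z)) / 2

/-- the number `a s` -/
private def Wn_a (n : ℕ) (z : ℝ × ℂ × ℂ) : ℝ := (z.2.1 * Wn_y z * (1 - Wn_y z) ^ n).re

/-- the denominator -/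
private def Wn_d (n : ℕ) (z : ℝ × ℂ × ℂ) : ℝ :=
  Wn_r z + max 0 (Wn_a n z - Wn_r z + (1 - dd z.2.2) / 2 - (z.2.1 * z.2.2 * (1 - z.2.2) ^ n).re)

/-- the deformation -/
private def Wn_D (n : ℕ) (z : ℝ × ℂ × ℂ) : ℂ × ℂ := (((Wn_r z / Wn_d n z : ℝ) : ℂ) * z.2.1, Wn_y z)

private theorem Wn_y_cont : Continuous Wn_y := by
  unfold Wn_y
  fun_prop

private theorem Wn_r_cont : Continuous Wn_r := by
  unfold Wn_r
  have := dd_continuous.comp Wn_y_cont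
  have h2 : Continuous fun z : ℝ × ℂ × ℂ => dd (Wn_y z) := this
  fun_prop

private theorem Wn_a_cont (n : ℕ) : Continuous (Wn_a n) := by
  unfold Wn_a
  have := Wn_y_cont
  fun_prop

private theorem Wn_d_cont (n : ℕ) : Continuous (Wn_d n) := by
  unfold Wn_d
  have h1 := Wn_r_cont
  have h2 := Wn_a_cont n
  have h3 : Continuous fun z : ℝ × ℂ × ℂ => dd z.2.2 :=
    dd_continuous.comp (continuous_snd.comp continuous_snd)
  fun_prop

private theorem Wn_r_pos {z : ℝ × ℂ × ℂ} (h0 : 0 ≤ z.1) (h1 : z.1 ≤ 1) (hy : dd z.2.2 < 1) :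
    0 < Wn_r z := by
  have h2 := dd_move (y := z.2.2) h0 h1
  have h3 : dd (Wn_y z) ≤ (1 - z.1) * dd z.2.2 + z.1 / 2 := h2
  unfold Wn_r
  have h4 : (1 - z.1) * dd z.2.2 + z.1 / 2 < 1 := by
    rcases eq_or_lt_of_le h0 with h5 | h5
    · rw [← h5]
      linarith
    · nlinarith
  linarith

private theorem Wn_d_pos (n : ℕ) {z : ℝ × ℂ × ℂ} (h0 : 0 ≤ z.1) (h1 : z.1 ≤ 1)
    (hy : dd z.2.2 < 1) : 0 < Wn_d n z := by
  have h2 := Wn_r_pos h0 h1 hy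
  unfold Wn_d
  exact add_pos_of_pos_of_nonneg h2 (le_max_left _ _)

private theorem Wn_d_gt (n : ℕ) {z : ℝ × ℂ × ℂ}
    (hz : 2 * (z.2.1 * z.2.2 * (1 - z.2.2) ^ n).re < 1 - dd z.2.2) : Wn_a n z < Wn_d n z := by
  have h1 := le_max_right 0
    (Wn_a n z - Wn_r z + (1 - dd z.2.2) / 2 - (z.2.1 * z.2.2 * (1 - z.2.2) ^ n).re)
  unfold Wn_d
  linarith

private theorem Wn_y_pos {z : ℝ × ℂ × ℂ} (h0 : 0 ≤ z.1) (h1 : z.1 ≤ 1) (hy : 0 < dd z.2.2) :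
    0 < dd (Wn_y z) := by
  rw [dd_pos] at hy ⊢
  rintro ⟨h2, h3⟩
  have e1 : (Wn_y z).im = (1 - z.1) * z.2.2.im := Wn_im _ _
  have e2 : (Wn_y z).re = (1 - z.1) * z.2.2.re + z.1 / 2 := Wn_re _ _
  rw [e1] at h2
  rw [e2] at h3
  rcases mul_eq_zero.mp h2 with h4 | h4
  · have h5 : z.1 = 1 := by linarith
    rw [h5] at h3
    linarith
  · apply hy
    refine ⟨h4, ?_⟩
    by_contra hc
    rw [not_le] at hc
    rcases eq_or_lt_of_le h1 with h5 | h5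
    · rw [h5] at h3
      linarith
    · nlinarith

private theorem Wn_D_maps (n : ℕ) {z : ℝ × ℂ × ℂ} (h0 : 0 ≤ z.1) (h1 : z.1 ≤ 1)
    (hz : z.2 ∈ Wn n) : Wn_D n z ∈ Wn n := by
  obtain ⟨hw, hy, hre⟩ := hz
  have hr := Wn_r_pos h0 h1 hy
  have hd := Wn_d_pos n h0 h1 hy
  have hq : 0 < Wn_r z / Wn_d n z := div_pos hr hd
  refine ⟨mul_ne_zero ?_ hw, ?_, ?_⟩
  · exact_mod_cast hq.ne'
  · change dd (Wn_y z) < 1
    unfold Wn_r at hr
    linarith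
  · change 2 * ((((Wn_r z / Wn_d n z : ℝ) : ℂ) * z.2.1) * Wn_y z * (1 - Wn_y z) ^ n).re <
      1 - dd (Wn_y z)
    have e1 : (((Wn_r z / Wn_d n z : ℝ) : ℂ) * z.2.1) * Wn_y z * (1 - Wn_y z) ^ n =
        ((Wn_r z / Wn_d n z : ℝ) : ℂ) * (z.2.1 * Wn_y z * (1 - Wn_y z) ^ n) := by ring
    rw [e1, Complex.re_ofReal_mul]
    have h2 : Wn_a n z < Wn_d n z := Wn_d_gt n hre
    have h3 : Wn_r z / Wn_d n z * Wn_a n z < Wn_r z := by
      rw [div_mul_eq_mul_div, div_lt_iff₀ hd]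
      exact mul_lt_mul_of_pos_left h2 hr
    have h4 : 1 - dd (Wn_y z) = 2 * Wn_r z := by
      unfold Wn_r
      ring
    rw [h4]
    have h5 : Wn_r z / Wn_d n z * (z.2.1 * Wn_y z * (1 - Wn_y z) ^ n).re < Wn_r z := h3
    linarith

/-- Proof. `Eqv.of_deform` with `D s (w, y) = (φ w, y_s)`, `y_s = (1 - s) y + s / 2`; `ρ s = (1 - dd y_s) / 2 > 0`
(`dd_move`: `dd y_s < 1`), `a s = Re (w y_s (1 - y_s)^n)`, `φ = ρ s / (ρ s + max 0 (a s - ρ s + ρ 0 - a 0)) ∈ (0, 1]`.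
`φ = 1` at `s = 0`; `φ a s < ρ s`: the denominator is `≥ a s + (ρ 0 - a 0) > a s` if `a s > 0`, clear if `a s ≤ 0`.
`0 < dd y` implies `0 < dd y_s` (`dd_pos`; `y_s` is real only if `y` is real or `s = 1`), at `s = 1`, `y_s = 1 / 2`. -/
theorem Wn_eqv (n : ℕ) : Eqv (Wn' n) (Wn n) id := by
  refine Eqv.of_deform (D := fun s a => Wn_D n (s, a)) (fun z hz => hz.1) ?_ ?_ ?_ ?_ ?_
  · have h1 : ContinuousOn (Wn_D n) (Icc 0 1 ×ˢ Wn n) := by
      unfold Wn_D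
      have hr := Wn_r_cont
      have hd := Wn_d_cont n
      have hy := Wn_y_cont
      have hq : ContinuousOn (fun z : ℝ × ℂ × ℂ => Wn_r z / Wn_d n z) (Icc 0 1 ×ˢ Wn n) :=
        hr.continuousOn.div hd.continuousOn fun z hz =>
          (Wn_d_pos n hz.1.1 hz.1.2 hz.2.2.1).ne'
      refine ContinuousOn.prodMk ?_ hy.continuousOn
      exact (Complex.continuous_ofReal.comp_continuousOn hq).mul
        (continuous_fst.comp continuous_snd).continuousOn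
    exact h1
  · intro s hs a ha
    exact Wn_D_maps n (z := (s, a)) hs.1 hs.2 ha
  · intro s hs a ha
    exact ⟨Wn_D_maps n (z := (s, a)) hs.1 hs.2 ha.1, Wn_y_pos (z := (s, a)) hs.1 hs.2 ha.2⟩
  · intro a ha
    have e1 : Wn_y (0, a) = a.2 := by
      unfold Wn_y
      simp
    have hr := Wn_r_pos (z := (0, a)) le_rfl zero_le_one ha.2.1
    have e2 : Wn_d n (0, a) = Wn_r (0, a) := by
      unfold Wn_d Wn_a Wn_r
      rw [e1]
      simp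
    change Wn_D n (0, a) = a
    unfold Wn_D
    rw [e2, div_self hr.ne', e1]
    simp
  · intro a ha
    refine ⟨Wn_D_maps n (z := (1, a)) zero_le_one le_rfl ha, ?_⟩
    have e1 : Wn_y (1, a) = ((1 / 2 : ℝ) : ℂ) := by
      unfold Wn_y
      simp
    change 0 < dd (Wn_y (1, a))
    rw [e1, dd_pos]
    rintro ⟨-, h2⟩
    rw [Complex.ofReal_re] at h2
    linarith

end Pool.Agent.MP_c984cf_ag_N5
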