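import Pool.Agent.Lib.MP_c984cf_ag_N5.SDefs

/-!
# Contractible hypersurfaces of log-general type in dimension five: the hypersurface `X5 ⊂ ℂ⁵`

Coordinates `z = (t, u, v, a, b)`; `Gg z = (a, 1 + t v, t u, b) ∈ ℂ⁴`, `Ph = (tau, cc) : ℂ⁴ → ℂ²`,
`X5 = {Qf (Ph (Gg z)) = t}`.
-/

set_option autoImplicit false

noncomputable section

namespace Pool.Agent.MP_c984cf_ag_N5

open Set Filter Topology

abbrev C5 : Type := ℂ × ℂ × ℂ × ℂ × ℂ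

def Qf (z : ℂ × ℂ) : ℂ := 1 + z.1 ^ 2 * z.2 + z.1 * z.2 ^ 2

def Ph (g : C4) : ℂ × ℂ := (tau g, cc g)

def Gg (z : C5) : C4 := (z.2.2.2.1, 1 + z.1 * z.2.2.1, z.1 * z.2.1, z.2.2.2.2)

/-- the hypersurface -/
def X5 : Set C5 := {z | Qf (Ph (Gg z)) = z.1}

/-- the torus `(ℂ \ 0)²` -/
def Tt : Set (ℂ × ℂ) := {z | z.1 ≠ 0 ∧ z.2 ≠ 0}

/-- the torus minus the curve `Qf = 0` -/
def Mm : Set (ℂ × ℂ) := {z | z ∈ Tt ∧ Qf z ≠ 0}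

/-- the part of `X5` over the torus -/
def Ux : Set C5 := {z | z ∈ X5 ∧ Ph (Gg z) ∈ Tt}

/-- the part of `X5` over the torus minus the curve -/
def Vx : Set C5 := {z | z ∈ Ux ∧ z.1 ≠ 0}

def eta (z : C5) : ℂ := z.2.2.2.1 * z.2.1

def nu (z : C5) : ℂ := z.2.2.2.1 * (1 + z.1 * z.2.2.1) ^ 2 * z.2.2.1 - z.2.1 * z.2.2.2.2 ^ 3

/-- positive exactly on `Up` -/
def sz (p : ℂ × ℂ) (t e n : ℝ) : ℝ :=
  min (‖p.1‖ / 2 - t * n) (‖p.1‖ ^ 2 / 4 - t * e * (‖p.2‖ + t * e) ^ 3)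

/-- neighbourhood of `{t = 0}` in `X5` -/
def Up : Set C5 := {z | z ∈ Ux ∧ 0 < sz (Ph (Gg z)) ‖z.1‖ ‖eta z‖ ‖nu z‖}

/-- coordinates `((τ, c), (η, ν))` of `Up` -/
def Wc : Set ((ℂ × ℂ) × (ℂ × ℂ)) := {z | z.1 ∈ Tt ∧ 0 < sz z.1 ‖Qf z.1‖ ‖z.2.1‖ ‖z.2.2‖}

/-- inverse of `z ↦ Gg z` on `{t ≠ 0}` -/
def Gi (g : C4) : C5 :=
  (Qf (Ph g), g.2.2.1 / Qf (Ph g), (g.2.1 - 1) / Qf (Ph g), g.1, g.2.2.2)

/-- action of the torus: `tau (act p g) = p.1 * tau g`, `cc (act p g) = p.2 * cc g` -/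
def act (p : ℂ × ℂ) (g : C4) : C4 :=
  (p.1 ^ 5 / p.2 ^ 8 * g.1, p.2 ^ 4 / p.1 ^ 2 * g.2.1, p.2 ^ 9 / p.1 ^ 5 * g.2.2.1,
    p.1 ^ 2 / p.2 ^ 3 * g.2.2.2)

/-! ### elementary facts -/

theorem Qf_cont : Continuous Qf := by unfold Qf; fun_prop

theorem tau_cont : Continuous tau := by unfold tau; fun_prop

theorem cc_cont : Continuous cc := by unfold cc; fun_prop

theorem Ph_cont : Continuous Ph := tau_cont.prodMk cc_cont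

theorem Gg_cont : Continuous Gg := by unfold Gg; fun_prop

theorem eta_cont : Continuous eta := by unfold eta; fun_prop

theorem nu_cont : Continuous nu := by unfold nu; fun_prop

theorem X5_Q {z : C5} (hz : z ∈ X5) : Qf (Ph (Gg z)) = z.1 := hz

/-- on `{t ≠ 0}` -/
theorem Gi_Gg {z : C5} (hz : z ∈ X5) (h : z.1 ≠ 0) : Gi (Gg z) = z := by
  unfold Gi
  rw [X5_Q hz]
  unfold Gg
  ext <;> simp <;> field_simp

theorem Gg_Gi {g : C4} (h : Qf (Ph g) ≠ 0) : Gg (Gi g) = g := by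
  unfold Gg Gi
  ext <;> simp <;> field_simp
  ring

theorem Gi_mem {g : C4} (h : Qf (Ph g) ≠ 0) : Gi g ∈ X5 := by
  change Qf (Ph (Gg (Gi g))) = Qf (Ph g)
  rw [Gg_Gi h]

/-- `Qf` does not vanish on the axes -/
theorem Tt_of_Q {z : ℂ × ℂ} (h : Qf z = 0) : z ∈ Tt := by
  constructor
  · intro h1
    unfold Qf at h
    rw [h1] at h
    simp at h
  · intro h1
    unfold Qf at h
    rw [h1] at h
    simp at h

end Pool.Agent.MP_c984cf_ag_N5
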